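import Pool.Agent.Lib_MP_752436_ts.Lift
import Pool.Agent.Lib_MP_752436_gt.Criterion

/-!
Piece V11: the height of any slice disc can be made regular near the boundary circle. Proof: take
`T = t + e (1 - |x|^2)` for a small `e > 0` (`tau` in `Criterion.lean`). The order of the points
with the same projection does not change as `F` is bi-Lipschitz, and the derivative of `T` in the
inner normal direction is positive on the circle, so `T` is regular near the circle.
-/

open Metric Set Filter
open scoped ContDiff Topology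

namespace Pool.Agent.Lib_MP_752436_ts

open Pool.Agent.Lib_MP_752436_gt Pool.Agent.Lib_MP_752436_tp Pool.Agent.Lib_MP_752436_rb
open Pool.Agent.Lib_MP_752436_mv (flipSet)

theorem coord_eq_of_shadow {F : Plane → EuclideanSpace ℝ (Fin 4)} {x y : Plane}
    (h : shadow F x = shadow F y) : ∀ i, i ≠ 3 → F x i = F y i := by
  intro i hi
  fin_cases i
  · exact congrArg (fun v : Space => v 0) h
  · exact congrArg (fun v : Space => v 1) h
  · exact congrArg (fun v : Space => v 2) h
  · exact absurd rfl hi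

theorem exists_collar {F : Plane → EuclideanSpace ℝ (Fin 4)} (hF : IsSliceDisc F)
    (hcap : ∀ x ∈ sphere (0 : Plane) 1, Function.Injective (fderiv ℝ (shadow F) x)) :
    ∃ T : Plane → ℝ, Emb (shadow F) T ∧ (∀ x ∈ sphere (0 : Plane) 1, T x = 0) ∧
      (∀ x ∈ ball (0 : Plane) 1, 0 < T x) ∧
      (∀ x ∈ closedBall (0 : Plane) 1, ∀ y ∈ closedBall (0 : Plane) 1,
        shadow F x = shadow F y → (T y < T x ↔ F y 3 < F x 3)) ∧
      ∃ r < 1, ∀ x ∈ closedBall (0 : Plane) 1, r < ‖x‖ → fderiv ℝ T x ≠ 0 := by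
  obtain ⟨c, hc, hbl, hbd⟩ := exists_bilip hF
  set ε : ℝ := c / 4 with hεdef
  have hε : 0 < ε := by positivity
  have hτs := contDiff_tau hF.smooth ε
  have key1 : ∀ x ∈ closedBall (0 : Plane) 1, ∀ y ∈ closedBall (0 : Plane) 1,
      (∀ i, i ≠ 3 → F x i = F y i) → F y 3 < F x 3 → tau F ε y < tau F ε x := by
    intro x hx y hy hi h3
    have hn : ‖F x - F y‖ = |(F x - F y) 3| :=
      norm_vertical fun i hi3 => by simp [hi i hi3]
    have hd : (F x - F y) 3 = F x 3 - F y 3 := rfl
    rw [hd, abs_of_pos (sub_pos.2 h3)] at hn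
    have h1 := hbl x hx y hy
    rw [hn] at h1
    have hx1 : ‖x‖ ≤ 1 := by simpa using hx
    have hy1 : ‖y‖ ≤ 1 := by simpa using hy
    have h2 : ‖x‖ - ‖y‖ ≤ ‖x - y‖ := norm_sub_norm_le x y
    have h4 : ‖x‖ ^ 2 - ‖y‖ ^ 2 ≤ 2 * ‖x - y‖ := by
      nlinarith [norm_nonneg x, norm_nonneg y, norm_nonneg (x - y)]
    have h5 : ε * (‖x‖ ^ 2 - ‖y‖ ^ 2) ≤ ε * (2 * ‖x - y‖) := mul_le_mul_of_nonneg_left h4 hε.le
    have h6 : ε * (2 * ‖x - y‖) = c * ‖x - y‖ / 2 := by rw [hεdef]; ring
    unfold tau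
    nlinarith
  have key2 : ∀ x ∈ closedBall (0 : Plane) 1, ∀ u, (∀ i, i ≠ 3 → fderiv ℝ F x u i = 0) →
      0 < fderiv ℝ F x u 3 → 0 < fderiv ℝ (tau F ε) x u := by
    intro x hx u hi h3
    have hn : ‖fderiv ℝ F x u‖ = |fderiv ℝ F x u 3| := norm_vertical hi
    rw [abs_of_pos h3] at hn
    have h1 := hbd x hx u
    rw [hn] at h1
    have hx1 : ‖x‖ ≤ 1 := by simpa using hx
    have h2 : (inner ℝ x u : ℝ) ≤ ‖x‖ * ‖u‖ := real_inner_le_norm x u
    have h4 : ‖x‖ * ‖u‖ ≤ ‖u‖ := mul_le_of_le_one_left (norm_nonneg u) hx1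
    rw [fderiv_tau hF.smooth]
    have h5 : 2 * ε * (inner ℝ x u : ℝ) ≤ 2 * ε * ‖u‖ :=
      mul_le_mul_of_nonneg_left (h2.trans h4) (by positivity)
    have h6 : 2 * ε * ‖u‖ = c * ‖u‖ / 2 := by rw [hεdef]; ring
    linarith
  have h0 : ∀ x ∈ sphere (0 : Plane) 1, tau F ε x = 0 := fun x hx => tau_sphere hF ε hx
  have hpos : ∀ x ∈ ball (0 : Plane) 1, 0 < tau F ε x := fun x hx => tau_pos hF hε hx
  have hG := isSliceDisc_setHeight hF hτs key1 key2 h0 hpos
  have hsh : shadow (setHeight F (tau F ε)) = shadow F := by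
    funext x
    ext i
    fin_cases i
    · exact setHeight_ne F (tau F ε) x (i := 0) (by decide)
    · exact setHeight_ne F (tau F ε) x (i := 1) (by decide)
    · exact setHeight_ne F (tau F ε) x (i := 2) (by decide)
  have hth : (fun x => setHeight F (tau F ε) x 3) = tau F ε := by
    funext x
    exact setHeight_three F (tau F ε) x
  have hE := emb_shadow hG
  rw [hsh, hth] at hE
  refine ⟨tau F ε, hE, h0, hpos, ?_, ?_⟩
  · intro x hx y hy hxy
    have hi := coord_eq_of_shadow hxy
    constructor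
    · intro hlt
      rcases lt_trichotomy (F y 3) (F x 3) with h | h | h
      · exact h
      · exfalso
        have hxy' : x = y := by
          refine hF.inj hx hy ?_
          ext i
          by_cases hi3 : i = 3
          · rw [hi3]
            exact h.symm
          · exact hi i hi3
        rw [hxy'] at hlt
        exact lt_irrefl _ hlt
      · exact absurd (key1 y hy x hx (fun i hi3 => (hi i hi3).symm) h) (not_lt.2 hlt.le)
    · exact key1 x hx y hy hi
  · set S : Set Plane := {x | x ∈ closedBall (0 : Plane) 1 ∧ fderiv ℝ (tau F ε) x = 0} with hS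
    have hSc : IsCompact S := (isCompact_closedBall (0 : Plane) 1).inter_right
      (isClosed_eq (hτs.continuous_fderiv (by simp)) continuous_const)
    rcases S.eq_empty_or_nonempty with he | hne
    · refine ⟨0, zero_lt_one, fun x hx _ hx0 => ?_⟩
      have : x ∈ S := ⟨hx, hx0⟩
      rw [he] at this
      exact this
    · obtain ⟨x₀, hx₀, hmax⟩ := hSc.exists_isMaxOn hne continuous_norm.continuousOn
      refine ⟨‖x₀‖, ?_, fun x hx hlt hx0 => ?_⟩
      · have h1 : ‖x₀‖ ≤ 1 := by simpa using hx₀.1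
        rcases h1.lt_or_eq with h | h
        · exact h
        · exfalso
          have h2 := fderiv_tau_sphere hF hε (x := x₀) (by simpa using h)
          rw [hx₀.2] at h2
          simp at h2
      · have h1 : ‖x‖ ≤ ‖x₀‖ := hmax (show x ∈ S from ⟨hx, hx0⟩)
        exact absurd h1 (not_le.2 hlt)

end Pool.Agent.Lib_MP_752436_ts
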