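import Pool.Agent.Lib_MP_752436_ts.Defs

/-!
Piece G6: the direction of the line through two points of the disc. (*) in Blueprint.md: differentiate
(t y - t x) A = H x - H y.
-/

open MeasureTheory Metric Set Filter Module
open scoped ContDiff Topology

namespace Pool.Agent.Lib_MP_752436_ts

open Pool.Agent.Lib_MP_752436_gt Pool.Agent.Lib_MP_752436_tp Pool.Agent.Lib_MP_752436_rb

/-- The parameter `a` of the projection `proj F a` which identifies the points `p.1` and `p.2`. -/
noncomputable def pm (F : Plane → EuclideanSpace ℝ (Fin 4)) : Plane × Plane → Space :=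
  fun p => (F p.2 3 - F p.1 3)⁻¹ • (shadow F p.1 - shadow F p.2)

variable {F : Plane → EuclideanSpace ℝ (Fin 4)}

theorem contDiff_height_ts (hF : ContDiff ℝ ∞ F) : ContDiff ℝ ∞ (fun x => F x 3) :=
  (contDiff_euclidean.1 hF) 3

theorem contDiff_shadow_of (hF : ContDiff ℝ ∞ F) : ContDiff ℝ ∞ (shadow F) := by
  rw [contDiff_euclidean]
  intro i
  fin_cases i
  · exact (contDiff_euclidean.1 hF) 0
  · exact (contDiff_euclidean.1 hF) 1
  · exact (contDiff_euclidean.1 hF) 2

theorem contDiff_proj (hF : ContDiff ℝ ∞ F) (a : Space) : ContDiff ℝ ∞ (proj F a) :=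
  (contDiff_shadow_of hF).add ((contDiff_height_ts hF).smul contDiff_const)

theorem fderiv_proj (hF : ContDiff ℝ ∞ F) (a : Space) (x u : Plane) :
    fderiv ℝ (proj F a) x u =
      fderiv ℝ (shadow F) x u + fderiv ℝ (fun y => F y 3) x u • a := by
  have h1 : HasFDerivAt (shadow F) (fderiv ℝ (shadow F) x) x :=
    ((contDiff_shadow_of hF).differentiable (by simp) x).hasFDerivAt
  have h2 : HasFDerivAt (fun y => F y 3) (fderiv ℝ (fun y => F y 3) x) x :=
    ((contDiff_height_ts hF).differentiable (by simp) x).hasFDerivAt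
  have h3 : HasFDerivAt (proj F a)
      (fderiv ℝ (shadow F) x + (fderiv ℝ (fun y => F y 3) x).smulRight a) x :=
    h1.add (h2.smul_const a)
  rw [h3.fderiv]
  rfl

/-- `F` is an immersion in terms of the projection and the height. -/
theorem eq_zero_of_fderiv_proj (hF : IsSliceDisc F) (a : Space) {x u : Plane}
    (hx : x ∈ closedBall (0 : Plane) 1) (h1 : fderiv ℝ (proj F a) x u = 0)
    (h2 : fderiv ℝ (fun y => F y 3) x u = 0) : u = 0 := by
  have hs := hF.smooth
  rw [fderiv_proj hs, h2, zero_smul, add_zero] at h1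
  have hcomp : ∀ i, (fderiv ℝ F x u) i = fderiv ℝ (fun y => F y i) x u := by
    intro i
    have h3 : HasFDerivAt F (fderiv ℝ F x) x := (hs.differentiable (by simp) x).hasFDerivAt
    exact (((EuclideanSpace.proj (𝕜 := ℝ) i).hasFDerivAt.comp x h3).fderiv ▸ rfl)
  have hcomp' : ∀ j, (fderiv ℝ (shadow F) x u) j = fderiv ℝ (fun y => shadow F y j) x u := by
    intro j
    have h3 : HasFDerivAt (shadow F) (fderiv ℝ (shadow F) x) x :=
      ((contDiff_shadow_of hs).differentiable (by simp) x).hasFDerivAt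
    exact (((EuclideanSpace.proj (𝕜 := ℝ) j).hasFDerivAt.comp x h3).fderiv ▸ rfl)
  have h0 : fderiv ℝ F x u = 0 := by
    ext i
    rw [hcomp i]
    fin_cases i
    · have := hcomp' 0
      rw [h1] at this
      exact this.symm
    · have := hcomp' 1
      rw [h1] at this
      exact this.symm
    · have := hcomp' 2
      rw [h1] at this
      exact this.symm
    · exact h2
  exact hF.immersion x hx (by rw [h0, map_zero])

theorem proj_eq_iff {a : Space} {x y : Plane} (h : F x 3 ≠ F y 3) :
    proj F a x = proj F a y ↔ pm F (x, y) = a := by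
  have hk : F y 3 - F x 3 ≠ 0 := sub_ne_zero.2 h.symm
  show shadow F x + F x 3 • a = shadow F y + F y 3 • a ↔
    (F y 3 - F x 3)⁻¹ • (shadow F x - shadow F y) = a
  rw [inv_smul_eq_iff₀ hk, sub_smul]
  constructor
  · intro h1
    have h2 : shadow F x = shadow F y + F y 3 • a - F x 3 • a := eq_sub_of_add_eq h1
    rw [h2]; abel
  · intro h1
    have h2 : shadow F x = F y 3 • a - F x 3 • a + shadow F y := eq_add_of_sub_eq h1
    rw [h2]; abel

/-- Two points of the disc with the same projection have different heights. -/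
theorem height_ne_of_proj (hF : IsSliceDisc F) {a : Space} {x y : Plane}
    (hx : x ∈ closedBall (0 : Plane) 1) (hy : y ∈ closedBall (0 : Plane) 1) (hne : x ≠ y)
    (h : proj F a x = proj F a y) : F x 3 ≠ F y 3 := by
  intro h3
  apply hne
  apply hF.inj hx hy
  have h4 : shadow F x + F x 3 • a = shadow F y + F y 3 • a := h
  rw [h3] at h4
  have h5 : shadow F x = shadow F y := add_right_cancel h4
  ext i
  fin_cases i
  · exact congrFun (congrArg (fun v : Space => v.ofLp) h5) 0
  · exact congrFun (congrArg (fun v : Space => v.ofLp) h5) 1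
  · exact congrFun (congrArg (fun v : Space => v.ofLp) h5) 2
  · exact h3

theorem contDiffAt_pm (hF : ContDiff ℝ ∞ F) {p : Plane × Plane} (h : F p.1 3 ≠ F p.2 3) :
    ContDiffAt ℝ ∞ (pm F) p := by
  have hk : F p.2 3 - F p.1 3 ≠ 0 := sub_ne_zero.2 h.symm
  have h1 : ContDiff ℝ ∞ (fun p : Plane × Plane => F p.2 3 - F p.1 3) :=
    ((contDiff_height_ts hF).comp contDiff_snd).sub ((contDiff_height_ts hF).comp contDiff_fst)
  have h2 : ContDiff ℝ ∞ (fun p : Plane × Plane => shadow F p.1 - shadow F p.2) :=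
    ((contDiff_shadow_of hF).comp contDiff_fst).sub ((contDiff_shadow_of hF).comp contDiff_snd)
  exact (h1.contDiffAt.inv hk).smul h2.contDiffAt

theorem fderiv_pm (hF : ContDiff ℝ ∞ F) {x y : Plane} (h : F x 3 ≠ F y 3) (u w : Plane) :
    fderiv ℝ (pm F) (x, y) (u, w) = (F y 3 - F x 3)⁻¹ •
      (fderiv ℝ (proj F (pm F (x, y))) x u - fderiv ℝ (proj F (pm F (x, y))) y w) := by
  have hk : F y 3 - F x 3 ≠ 0 := sub_ne_zero.2 h.symm
  have hH : ∀ z, HasFDerivAt (shadow F) (fderiv ℝ (shadow F) z) z := fun z =>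
    ((contDiff_shadow_of hF).differentiable (by simp) z).hasFDerivAt
  have hT : ∀ z, HasFDerivAt (fun y => F y 3) (fderiv ℝ (fun y => F y 3) z) z := fun z =>
    ((contDiff_height_ts hF).differentiable (by simp) z).hasFDerivAt
  have hfst : HasFDerivAt (Prod.fst : Plane × Plane → Plane)
      (ContinuousLinearMap.fst ℝ Plane Plane) (x, y) := hasFDerivAt_fst
  have hsnd : HasFDerivAt (Prod.snd : Plane × Plane → Plane)
      (ContinuousLinearMap.snd ℝ Plane Plane) (x, y) := hasFDerivAt_snd
  have h1 : HasFDerivAt (fun p : Plane × Plane => F p.2 3 - F p.1 3)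
      ((fderiv ℝ (fun y => F y 3) y) ∘L (ContinuousLinearMap.snd ℝ Plane Plane) -
        (fderiv ℝ (fun y => F y 3) x) ∘L (ContinuousLinearMap.fst ℝ Plane Plane)) (x, y) :=
    (HasFDerivAt.comp (x, y) (hT y) hsnd).sub (HasFDerivAt.comp (x, y) (hT x) hfst)
  have h2 : HasFDerivAt (fun p : Plane × Plane => shadow F p.1 - shadow F p.2)
      ((fderiv ℝ (shadow F) x) ∘L (ContinuousLinearMap.fst ℝ Plane Plane) -
        (fderiv ℝ (shadow F) y) ∘L (ContinuousLinearMap.snd ℝ Plane Plane)) (x, y) :=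
    (HasFDerivAt.comp (x, y) (hH x) hfst).sub (HasFDerivAt.comp (x, y) (hH y) hsnd)
  have hP : HasFDerivAt (pm F) (fderiv ℝ (pm F) (x, y)) (x, y) :=
    ((contDiffAt_pm hF (p := (x, y)) h).differentiableAt (by simp)).hasFDerivAt
  have h3 := h1.smul hP
  have h4 : (fun p : Plane × Plane => (F p.2 3 - F p.1 3) • pm F p) =ᶠ[𝓝 (x, y)]
      fun p : Plane × Plane => shadow F p.1 - shadow F p.2 := by
    have hc : ContinuousAt (fun p : Plane × Plane => F p.2 3 - F p.1 3) (x, y) := h1.continuousAt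
    filter_upwards [hc.eventually_ne hk] with p hp
    show (F p.2 3 - F p.1 3) • ((F p.2 3 - F p.1 3)⁻¹ • (shadow F p.1 - shadow F p.2)) = _
    rw [smul_inv_smul₀ hp]
  have h5 := (h3.congr_of_eventuallyEq h4.symm).unique h2
  have h6 := congrArg (fun D : Plane × Plane →L[ℝ] Space => D (u, w)) h5
  have h7 : (F y 3 - F x 3) • fderiv ℝ (pm F) (x, y) (u, w) +
      (fderiv ℝ (fun y => F y 3) y w - fderiv ℝ (fun y => F y 3) x u) • pm F (x, y) =
      fderiv ℝ (shadow F) x u - fderiv ℝ (shadow F) y w := h6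
  rw [fderiv_proj hF, fderiv_proj hF, eq_inv_smul_iff₀ hk]
  rw [eq_sub_of_add_eq h7, sub_smul]
  abel

end Pool.Agent.Lib_MP_752436_ts
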