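import Pool.Agent.Lib_MP_752436_ts.SardNull
import Pool.Agent.Lib_MP_752436_ts.PairMap

/-!
Piece G8: singular points are Whitney umbrellas in almost every direction: (G-C) in Blueprint.md.
-/

open MeasureTheory Metric Set Filter Module
open scoped ContDiff Topology

namespace Pool.Agent.Lib_MP_752436_ts

open Pool.Agent.Lib_MP_752436_gt Pool.Agent.Lib_MP_752436_tp Pool.Agent.Lib_MP_752436_rb

/-- The gradient of the height. -/
noncomputable def gradH (F : Plane → EuclideanSpace ℝ (Fin 4)) (x : Plane) : Plane :=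
  !₂[fderiv ℝ (fun y => F y 3) x (EuclideanSpace.single 0 1),
    fderiv ℝ (fun y => F y 3) x (EuclideanSpace.single 1 1)]

/-- The vectors `u` at `x` on which the derivative of the height is `-1`. -/
noncomputable def kerVec (F : Plane → EuclideanSpace ℝ (Fin 4)) (q : Plane × ℝ) : Plane :=
  -(‖gradH F q.1‖ ^ 2)⁻¹ • gradH F q.1 + q.2 • !₂[-(gradH F q.1 1), gradH F q.1 0]

/-- The map `Psi` of Blueprint.md. -/
noncomputable def capMap (F : Plane → EuclideanSpace ℝ (Fin 4)) (q : Plane × ℝ) : Space :=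
  fderiv ℝ (shadow F) q.1 (kerVec F q)

variable {F : Plane → EuclideanSpace ℝ (Fin 4)}

private theorem fderiv_height_cap (F : Plane → EuclideanSpace ℝ (Fin 4)) (x u : Plane) :
    fderiv ℝ (fun y => F y 3) x u = u 0 * gradH F x 0 + u 1 * gradH F x 1 := by
  have h1 : u = u 0 • EuclideanSpace.single (0 : Fin 2) (1 : ℝ) +
      u 1 • EuclideanSpace.single (1 : Fin 2) (1 : ℝ) := by
    ext i
    fin_cases i <;> simp
  conv_lhs => rw [h1]
  rw [map_add, map_smul, map_smul]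
  simp [gradH]

private theorem norm_sq_cap (v : Plane) : ‖v‖ ^ 2 = v 0 ^ 2 + v 1 ^ 2 := by
  rw [EuclideanSpace.real_norm_sq_eq, Fin.sum_univ_two]

private theorem norm_sq_ne_cap {v : Plane} (h : v ≠ 0) : v 0 ^ 2 + v 1 ^ 2 ≠ 0 := by
  rw [← norm_sq_cap]
  exact pow_ne_zero 2 (norm_ne_zero_iff.mpr h)

private theorem contDiff_gradH (hF : ContDiff ℝ ∞ F) : ContDiff ℝ ∞ (gradH F) := by
  have h1 : ContDiff ℝ ∞ (fderiv ℝ (fun y => F y 3)) :=
    (contDiff_height_ts hF).fderiv_right (m := ∞) le_rfl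
  rw [contDiff_euclidean]
  intro i
  fin_cases i
  · exact h1.clm_apply contDiff_const
  · exact h1.clm_apply contDiff_const

private theorem contDiffAt_kerVec (hF : ContDiff ℝ ∞ F) {q : Plane × ℝ} (h : gradH F q.1 ≠ 0) :
    ContDiffAt ℝ ∞ (kerVec F) q := by
  have h1 : ContDiff ℝ ∞ (fun q : Plane × ℝ => gradH F q.1) := (contDiff_gradH hF).comp contDiff_fst
  have h1' := contDiff_euclidean.mp h1
  have h2 : ContDiff ℝ ∞ (fun q : Plane × ℝ => ‖gradH F q.1‖ ^ 2) := h1.norm_sq ℝ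
  have h3 : ContDiffAt ℝ ∞ (fun q : Plane × ℝ => (‖gradH F q.1‖ ^ 2)⁻¹) q :=
    h2.contDiffAt.inv (pow_ne_zero 2 (norm_ne_zero_iff.mpr h))
  have h4 : ContDiff ℝ ∞ (fun q : Plane × ℝ => (!₂[-(gradH F q.1 1), gradH F q.1 0] : Plane)) := by
    rw [contDiff_euclidean]
    intro i
    fin_cases i
    · exact (h1' 1).neg
    · exact h1' 0
  exact (h3.neg.smul h1.contDiffAt).add (contDiffAt_snd.smul h4.contDiffAt)

theorem contDiffAt_capMap (hF : ContDiff ℝ ∞ F) {q : Plane × ℝ} (h : gradH F q.1 ≠ 0) :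
    ContDiffAt ℝ ∞ (capMap F) q := by
  have h1 : ContDiff ℝ ∞ (fderiv ℝ (shadow F)) :=
    (contDiff_shadow_of hF).fderiv_right (m := ∞) le_rfl
  exact (h1.comp contDiff_fst).contDiffAt.clm_apply (contDiffAt_kerVec hF h)

theorem fderiv_height_kerVec {q : Plane × ℝ} (h : gradH F q.1 ≠ 0) :
    fderiv ℝ (fun y => F y 3) q.1 (kerVec F q) = -1 := by
  rw [fderiv_height_cap]
  have h1 : gradH F q.1 0 ^ 2 + gradH F q.1 1 ^ 2 ≠ 0 := norm_sq_ne_cap h
  have h2 : kerVec F q 0 = -(gradH F q.1 0 ^ 2 + gradH F q.1 1 ^ 2)⁻¹ * gradH F q.1 0 +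
      q.2 * -(gradH F q.1 1) := by
    simp [kerVec, norm_sq_cap]
  have h3 : kerVec F q 1 = -(gradH F q.1 0 ^ 2 + gradH F q.1 1 ^ 2)⁻¹ * gradH F q.1 1 +
      q.2 * gradH F q.1 0 := by
    simp [kerVec, norm_sq_cap]
  rw [h2, h3]
  field_simp
  ring

/-- At `a = capMap F q` the vector `kerVec F q` is in the kernel. -/
theorem fderiv_proj_kerVec (hF : ContDiff ℝ ∞ F) {q : Plane × ℝ} (h : gradH F q.1 ≠ 0) :
    fderiv ℝ (proj F (capMap F q)) q.1 (kerVec F q) = 0 := by
  rw [fderiv_proj hF, fderiv_height_kerVec h, capMap]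
  simp

/-- A singular point of `proj F a`. -/
theorem exists_kerVec (hF : IsSliceDisc F) {a : Space} {x u : Plane}
    (hx : x ∈ closedBall (0 : Plane) 1) (hu : u ≠ 0) (h : fderiv ℝ (proj F a) x u = 0) :
    gradH F x ≠ 0 ∧ ∃ r c : ℝ, c ≠ 0 ∧ u = c • kerVec F (x, r) ∧ capMap F (x, r) = a := by
  have h1 : fderiv ℝ (fun y => F y 3) x u ≠ 0 := fun h2 =>
    hu (eq_zero_of_fderiv_proj hF a hx h h2)
  have h2 : gradH F x ≠ 0 := by
    intro h3
    rw [fderiv_height_cap, h3] at h1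
    simp at h1
  have h4 : gradH F x 0 ^ 2 + gradH F x 1 ^ 2 ≠ 0 := norm_sq_ne_cap h2
  set c : ℝ := -(fderiv ℝ (fun y => F y 3) x u) with hc
  have hc0 : c ≠ 0 := neg_ne_zero.mpr h1
  have hcu : c = -(u 0 * gradH F x 0 + u 1 * gradH F x 1) := by rw [hc, fderiv_height_cap]
  set r : ℝ := (gradH F x 0 * u 1 - gradH F x 1 * u 0) / (gradH F x 0 ^ 2 + gradH F x 1 ^ 2) / c
    with hr
  have h5 : u = c • kerVec F (x, r) := by
    ext i
    fin_cases i
    · have h6 : (c • kerVec F (x, r)) 0 = c * (-(gradH F x 0 ^ 2 + gradH F x 1 ^ 2)⁻¹ *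
          gradH F x 0 + r * -(gradH F x 1)) := by
        simp [kerVec, norm_sq_cap]
        ring
      change u 0 = (c • kerVec F (x, r)) 0
      rw [h6, hr]
      field_simp
      rw [hcu]
      ring
    · have h6 : (c • kerVec F (x, r)) 1 = c * (-(gradH F x 0 ^ 2 + gradH F x 1 ^ 2)⁻¹ *
          gradH F x 1 + r * gradH F x 0) := by
        simp [kerVec, norm_sq_cap]
        ring
      change u 1 = (c • kerVec F (x, r)) 1
      rw [h6, hr]
      field_simp
      rw [hcu]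
      ring
  refine ⟨h2, r, c, hc0, h5, ?_⟩
  have h6 : fderiv ℝ (proj F a) x (kerVec F (x, r)) = 0 := by
    rw [h5, map_smul] at h
    exact (smul_eq_zero.mp h).resolve_left hc0
  rw [fderiv_proj hF.smooth, fderiv_height_kerVec (q := (x, r)) h2] at h6
  rw [capMap]
  have h7 : fderiv ℝ (shadow F) x (kerVec F (x, r)) - a = 0 := by
    rw [← h6]
    module
  exact sub_eq_zero.mp h7

theorem fderiv_capMap (hF : ContDiff ℝ ∞ F) {q : Plane × ℝ} (h : gradH F q.1 ≠ 0)
    (p : Plane × ℝ) : ∃ b, fderiv ℝ (capMap F) q p =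
      fderiv ℝ (fun y => fderiv ℝ (proj F (capMap F q)) y (kerVec F q)) q.1 p.1 +
        fderiv ℝ (proj F (capMap F q)) q.1 b := by
  have hH : ContDiff ℝ ∞ (fderiv ℝ (shadow F)) :=
    (contDiff_shadow_of hF).fderiv_right (m := ∞) le_rfl
  have ht : ContDiff ℝ ∞ (fderiv ℝ (fun y => F y 3)) :=
    (contDiff_height_ts hF).fderiv_right (m := ∞) le_rfl
  have hk : HasFDerivAt (kerVec F) (fderiv ℝ (kerVec F) q) q :=
    ((contDiffAt_kerVec hF h).differentiableAt (by simp)).hasFDerivAt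
  have hH' : HasFDerivAt (fderiv ℝ (shadow F)) (fderiv ℝ (fderiv ℝ (shadow F)) q.1) q.1 :=
    (hH.differentiable (by simp) q.1).hasFDerivAt
  have ht' : HasFDerivAt (fderiv ℝ (fun y => F y 3)) (fderiv ℝ (fderiv ℝ (fun y => F y 3)) q.1) q.1 :=
    (ht.differentiable (by simp) q.1).hasFDerivAt
  have hH2 : HasFDerivAt (fun q : Plane × ℝ => fderiv ℝ (shadow F) q.1)
      ((fderiv ℝ (fderiv ℝ (shadow F)) q.1).comp (ContinuousLinearMap.fst ℝ Plane ℝ)) q :=
    hH'.comp q hasFDerivAt_fst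
  have ht2 : HasFDerivAt (fun q : Plane × ℝ => fderiv ℝ (fun y => F y 3) q.1)
      ((fderiv ℝ (fderiv ℝ (fun y => F y 3)) q.1).comp (ContinuousLinearMap.fst ℝ Plane ℝ)) q :=
    ht'.comp q hasFDerivAt_fst
  have h1 := (hH2.clm_apply hk).fderiv
  have h2 := (ht2.clm_apply hk).fderiv
  have h3 : (fun q : Plane × ℝ => fderiv ℝ (fun y => F y 3) q.1 (kerVec F q)) =ᶠ[𝓝 q]
      fun _ => (-1 : ℝ) := by
    have h4 : ∀ᶠ q' in 𝓝 q, gradH F q'.1 ≠ 0 :=
      ((contDiff_gradH hF).continuous.comp continuous_fst).continuousAt.eventually_ne h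
    filter_upwards [h4] with q' hq'
    exact fderiv_height_kerVec hq'
  have h4 : fderiv ℝ (fun q : Plane × ℝ => fderiv ℝ (fun y => F y 3) q.1 (kerVec F q)) q = 0 := by
    rw [h3.fderiv_eq]
    exact fderiv_const_apply _
  rw [h4] at h2
  have h5 := congrArg (fun L => L p) h2
  refine ⟨fderiv ℝ (kerVec F) q p, ?_⟩
  have h6 : fderiv ℝ (fun y => fderiv ℝ (proj F (capMap F q)) y (kerVec F q)) q.1 p.1 =
      fderiv ℝ (fderiv ℝ (shadow F)) q.1 p.1 (kerVec F q) +
        fderiv ℝ (fderiv ℝ (fun y => F y 3)) q.1 p.1 (kerVec F q) • capMap F q := by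
    have h7 : (fun y => fderiv ℝ (proj F (capMap F q)) y (kerVec F q)) =
        fun y => fderiv ℝ (shadow F) y (kerVec F q) +
          fderiv ℝ (fun y => F y 3) y (kerVec F q) • capMap F q := by
      funext y
      exact fderiv_proj hF _ _ _
    rw [h7]
    have h8 := (hH'.clm_apply (hasFDerivAt_const (kerVec F q) q.1)).add
      ((ht'.clm_apply (hasFDerivAt_const (kerVec F q) q.1)).smul_const (capMap F q))
    have h8' := h8.fderiv
    rw [Pi.add_def] at h8'
    rw [h8']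
    simp
  rw [h6, fderiv_proj hF]
  have h9 : fderiv ℝ (capMap F) q p = fderiv ℝ (shadow F) q.1 (fderiv ℝ (kerVec F) q p) +
      fderiv ℝ (fderiv ℝ (shadow F)) q.1 p.1 (kerVec F q) := by
    have h10 : fderiv ℝ (capMap F) q = _ := h1
    rw [h10]
    simp
  have h11 : fderiv ℝ (fun y => F y 3) q.1 (fderiv ℝ (kerVec F) q p) +
      fderiv ℝ (fderiv ℝ (fun y => F y 3)) q.1 p.1 (kerVec F q) = 0 := by
    simpa using h5.symm
  rw [h9]
  have h12 : fderiv ℝ (fun y => F y 3) q.1 (fderiv ℝ (kerVec F) q p) =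
      -fderiv ℝ (fderiv ℝ (fun y => F y 3)) q.1 p.1 (kerVec F q) := by linarith
  rw [h12]
  module

/-- Regular values of the map `capMap F`. -/
def CapReg (F : Plane → EuclideanSpace ℝ (Fin 4)) (a : Space) : Prop :=
  ∀ q : Plane × ℝ, gradH F q.1 ≠ 0 → capMap F q = a →
    Function.Surjective (fderiv ℝ (capMap F) q)

theorem ae_capReg (hF : ContDiff ℝ ∞ F) : ∀ᵐ a : Space, CapReg F a := by
  have h1 : volume (capMap F '' {q | gradH F q.1 ≠ 0 ∧
      ¬ Function.Surjective (fderiv ℝ (capMap F) q)}) = 0 := by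
    refine sard_equal volume (by simp) ?_ ?_
    · rintro q ⟨hq, -⟩
      exact (contDiffAt_capMap hF hq).differentiableAt (by simp)
    · rintro q ⟨-, hq⟩
      exact hq
  rw [ae_iff]
  refine measure_mono_null ?_ h1
  intro a ha
  simp only [CapReg, mem_setOf_eq, not_forall] at ha
  obtain ⟨q, hq, hqa, hs⟩ := ha
  exact ⟨q, ⟨hq, hs⟩, hqa⟩

theorem branch_of_capReg (hF : IsSliceDisc F) {a : Space} (h : CapReg F a) :
    ∀ x ∈ closedBall (0 : Plane) 1, ∀ u, u ≠ 0 → fderiv ℝ (proj F a) x u = 0 →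
      ∀ v, ∃ b c, fderiv ℝ (fun y => fderiv ℝ (proj F a) y u) x b +
        fderiv ℝ (proj F a) x c = v := by
  intro x hx u hu hxu v
  obtain ⟨hg, r, c, hc, huc, hra⟩ := exists_kerVec hF hx hu hxu
  obtain ⟨p, hp⟩ := h (x, r) hg hra v
  obtain ⟨b, hb⟩ := fderiv_capMap hF.smooth (q := (x, r)) hg p
  rw [hra, hp] at hb
  refine ⟨c⁻¹ • p.1, b, ?_⟩
  have h1 : (fun y => fderiv ℝ (proj F a) y u) =
      fun y => c • fderiv ℝ (proj F a) y (kerVec F (x, r)) := by
    funext y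
    rw [huc, map_smul]
  have h2 : ContDiff ℝ ∞ (fun y => fderiv ℝ (proj F a) y (kerVec F (x, r))) :=
    ((contDiff_proj hF.smooth a).fderiv_right (m := ∞) le_rfl).clm_apply contDiff_const
  rw [h1, fderiv_fun_const_smul (h2.differentiable (by simp) x)]
  rw [hb]
  simp [smul_smul, hc]

/-- No singular points on the circle. -/
theorem ae_capSphere (hF : IsSliceDisc F) :
    ∀ᵐ a : Space, ∀ x ∈ sphere (0 : Plane) 1, Function.Injective (fderiv ℝ (proj F a) x) := by
  set γ : ℝ × ℝ → Plane × ℝ := fun p => (!₂[Real.cos p.1, Real.sin p.1], p.2) with hγ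
  have hγs : ContDiff ℝ ∞ γ := by
    refine ContDiff.prodMk ?_ contDiff_snd
    rw [contDiff_euclidean]
    intro i
    fin_cases i
    · exact Real.contDiff_cos.comp contDiff_fst
    · exact Real.contDiff_sin.comp contDiff_fst
  set U : Set (ℝ × ℝ) := {p | gradH F (γ p).1 ≠ 0} with hU
  have hUo : IsOpen U := by
    refine isOpen_ne_fun ?_ continuous_const
    exact (contDiff_gradH hF.smooth).continuous.comp (continuous_fst.comp hγs.continuous)
  have h1 : volume ((fun p => capMap F (γ p)) '' U) = 0 := by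
    refine null_of_finrank_lt volume (by simp) hUo ?_
    intro p hp
    have h2 : ContDiffAt ℝ ∞ (fun p => capMap F (γ p)) p :=
      ContDiffAt.comp p (contDiffAt_capMap hF.smooth hp) hγs.contDiffAt
    exact (h2.of_le (by simp)).contDiffWithinAt
  rw [ae_iff]
  refine measure_mono_null ?_ h1
  intro a ha
  simp only [mem_setOf_eq, not_forall] at ha
  obtain ⟨x, hx, hi⟩ := ha
  rw [injective_iff_map_eq_zero] at hi
  simp only [not_forall] at hi
  obtain ⟨u, hu, hu0⟩ := hi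
  obtain ⟨hg, r, c, -, -, hra⟩ := exists_kerVec hF (sphere_subset_closedBall hx) hu0 hu
  obtain ⟨θ, hθ⟩ : ∃ θ : ℝ, x = !₂[Real.cos θ, Real.sin θ] := by
    have hx1 : x 0 ^ 2 + x 1 ^ 2 = 1 := by
      rw [← norm_sq_cap, mem_sphere_zero_iff_norm.mp hx, one_pow]
    set z : ℂ := ⟨x 0, x 1⟩ with hz
    have hz1 : ‖z‖ = 1 := by
      rw [← sq_eq_sq₀ (norm_nonneg _) zero_le_one, Complex.sq_norm, Complex.normSq_apply]
      simp only [hz]
      nlinarith
    have hz0 : z ≠ 0 := by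
      rw [← norm_ne_zero_iff, hz1]
      exact one_ne_zero
    refine ⟨Complex.arg z, ?_⟩
    rw [Complex.cos_arg hz0, Complex.sin_arg, hz1, div_one, div_one]
    ext i
    fin_cases i <;> simp [hz]
  refine ⟨(θ, r), ?_, ?_⟩
  · change gradH F !₂[Real.cos θ, Real.sin θ] ≠ 0
    rw [← hθ]
    exact hg
  · change capMap F (!₂[Real.cos θ, Real.sin θ], r) = a
    rw [← hθ]
    exact hra

end Pool.Agent.Lib_MP_752436_ts
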