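import Pool.Agent.Lib_MP_752436_ts.Param
import Pool.Agent.Lib_MP_752436_ts.Cap

/-!
Piece G9: in almost every direction no singular point is a double point: (G-CD) in Blueprint.md.
E = Plane × ℝ × Plane or (Plane × ℝ) × Plane, E' = F = Space.
-/

open MeasureTheory Metric Set Filter Module
open scoped ContDiff Topology

namespace Pool.Agent.Lib_MP_752436_ts

open Pool.Agent.Lib_MP_752436_gt Pool.Agent.Lib_MP_752436_tp Pool.Agent.Lib_MP_752436_rb

variable {F : Plane → EuclideanSpace ℝ (Fin 4)}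

/-- The derivative of the difference map. -/
private theorem capDouble_hasFDerivAt (hF : ContDiff ℝ ∞ F) {q : Plane × ℝ} {y : Plane}
    (h : gradH F q.1 ≠ 0) (ht : F q.1 3 ≠ F y 3) :
    HasFDerivAt (fun p : (Plane × ℝ) × Plane => capMap F p.1 - pm F (p.1.1, p.2))
      ((fderiv ℝ (capMap F) q).comp (ContinuousLinearMap.fst ℝ (Plane × ℝ) Plane) -
        (fderiv ℝ (pm F) (q.1, y)).comp
          (((ContinuousLinearMap.fst ℝ Plane ℝ).comp
            (ContinuousLinearMap.fst ℝ (Plane × ℝ) Plane)).prod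
              (ContinuousLinearMap.snd ℝ (Plane × ℝ) Plane))) (q, y) := by
  have h1 : HasFDerivAt (capMap F) (fderiv ℝ (capMap F) q) ((q, y) : (Plane × ℝ) × Plane).1 :=
    ((contDiffAt_capMap hF h).differentiableAt (by simp)).hasFDerivAt
  have h2 : HasFDerivAt (pm F) (fderiv ℝ (pm F) (q.1, y)) (q.1, y) :=
    ((contDiffAt_pm hF ht).differentiableAt (by simp)).hasFDerivAt
  have h3 : HasFDerivAt (fun p : (Plane × ℝ) × Plane => (p.1.1, p.2))
      (((ContinuousLinearMap.fst ℝ Plane ℝ).comp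
            (ContinuousLinearMap.fst ℝ (Plane × ℝ) Plane)).prod
              (ContinuousLinearMap.snd ℝ (Plane × ℝ) Plane)) (q, y) :=
    (((ContinuousLinearMap.fst ℝ Plane ℝ).comp
            (ContinuousLinearMap.fst ℝ (Plane × ℝ) Plane)).prod
              (ContinuousLinearMap.snd ℝ (Plane × ℝ) Plane)).hasFDerivAt
  have h4 : HasFDerivAt (fun p : (Plane × ℝ) × Plane => pm F (p.1.1, p.2))
      ((fderiv ℝ (pm F) (q.1, y)).comp
          (((ContinuousLinearMap.fst ℝ Plane ℝ).comp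
            (ContinuousLinearMap.fst ℝ (Plane × ℝ) Plane)).prod
              (ContinuousLinearMap.snd ℝ (Plane × ℝ) Plane))) (q, y) :=
    HasFDerivAt.comp (f := fun p : (Plane × ℝ) × Plane => (p.1.1, p.2)) (q, y) h2 h3
  have h5 : HasFDerivAt (fun p : (Plane × ℝ) × Plane => capMap F p.1)
      ((fderiv ℝ (capMap F) q).comp (ContinuousLinearMap.fst ℝ (Plane × ℝ) Plane)) (q, y) :=
    HasFDerivAt.comp (f := Prod.fst) (q, y) h1 hasFDerivAt_fst
  exact h5.sub h4

/-- Linear algebra: the first components of the kernel vanish. -/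
private theorem capDouble_ker {A B : Plane →L[ℝ] Space} {u : Plane} (hu : u ≠ 0) (hBu : B u = 0)
    (hs : ∀ v, ∃ a b, A a + B b = v) {a b : Plane} (h : A a + B b = 0) : a = 0 := by
  let T : Plane × Plane →ₗ[ℝ] Space :=
    (A : Plane →ₗ[ℝ] Space).coprod (B : Plane →ₗ[ℝ] Space)
  have hT : ∀ a b, T (a, b) = A a + B b := fun a b => rfl
  have hr : LinearMap.range T = ⊤ := by
    rw [LinearMap.range_eq_top]
    intro v
    obtain ⟨a, b, hab⟩ := hs v
    exact ⟨(a, b), hab⟩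
  have hk : finrank ℝ (LinearMap.ker T) = 1 := by
    have h1 := LinearMap.finrank_range_add_finrank_ker T
    rw [hr, finrank_top, finrank_prod, finrank_euclideanSpace_fin, finrank_euclideanSpace_fin] at h1
    omega
  have h0 : ((0 : Plane), u) ∈ LinearMap.ker T := by
    rw [LinearMap.mem_ker, hT, map_zero, hBu, add_zero]
  have h0' : (⟨((0 : Plane), u), h0⟩ : LinearMap.ker T) ≠ 0 := by
    intro h2
    have h3 := congrArg (fun z : LinearMap.ker T => (z : Plane × Plane).2) h2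
    exact hu h3
  have hab : (a, b) ∈ LinearMap.ker T := by
    rw [LinearMap.mem_ker, hT, h]
  obtain ⟨c, hc⟩ := exists_smul_eq_of_finrank_eq_one hk h0' ⟨(a, b), hab⟩
  have h4 := congrArg (fun z : LinearMap.ker T => (z : Plane × Plane).1) hc
  have h5 : c • (0 : Plane) = a := h4
  rw [← h5, smul_zero]

/-- The surjectivity claim. -/
theorem capDouble_surj (hF : ContDiff ℝ ∞ F) {q : Plane × ℝ} {y : Plane} (h : gradH F q.1 ≠ 0)
    (ht : F q.1 3 ≠ F y 3) (he : capMap F q = pm F (q.1, y))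
    (hs : Function.Surjective (fderiv ℝ (capMap F) q)) :
    Function.Surjective (fderiv ℝ (fun p : (Plane × ℝ) × Plane =>
      capMap F p.1 - pm F (p.1.1, p.2)) (q, y)) := by
  rw [(capDouble_hasFDerivAt hF h ht).fderiv]
  set B : Plane →L[ℝ] Space := fderiv ℝ (proj F (capMap F q)) q.1 with hB
  set A : Plane →L[ℝ] Space :=
    fderiv ℝ (fun y => fderiv ℝ (proj F (capMap F q)) y (kerVec F q)) q.1 with hA
  set u : Plane := kerVec F q with hu
  have hBu : B u = 0 := fderiv_proj_kerVec hF h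
  have hu0 : u ≠ 0 := by
    intro h0
    have h1 := fderiv_height_kerVec h
    rw [← hu, h0, map_zero] at h1
    norm_num at h1
  have hAB : ∀ v, ∃ a b, A a + B b = v := by
    intro v
    obtain ⟨p, hp⟩ := hs v
    obtain ⟨b, hb⟩ := fderiv_capMap hF h p
    exact ⟨p.1, b, by rw [← hp, hb]⟩
  intro v
  obtain ⟨p1, hp1⟩ := hs v
  obtain ⟨p2, hp2⟩ := hs (B p1.1)
  obtain ⟨b2, hb2⟩ := fderiv_capMap hF h p2
  have ha2 : p2.1 = 0 := by
    refine capDouble_ker hu0 hBu hAB (b := b2 - p1.1) ?_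
    rw [map_sub, ← add_sub_assoc]
    rw [hp2] at hb2
    exact sub_eq_zero.2 hb2.symm
  set k : ℝ := (F y 3 - F q.1 3)⁻¹ with hk
  refine ⟨(p1 + k • p2, 0), ?_⟩
  have h1 : ((fderiv ℝ (capMap F) q).comp (ContinuousLinearMap.fst ℝ (Plane × ℝ) Plane) -
        (fderiv ℝ (pm F) (q.1, y)).comp
          (((ContinuousLinearMap.fst ℝ Plane ℝ).comp
            (ContinuousLinearMap.fst ℝ (Plane × ℝ) Plane)).prod
              (ContinuousLinearMap.snd ℝ (Plane × ℝ) Plane))) (p1 + k • p2, 0) =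
      fderiv ℝ (capMap F) q (p1 + k • p2) -
        fderiv ℝ (pm F) (q.1, y) (p1.1 + k • p2.1, 0) := rfl
  rw [h1, map_add, map_smul, hp1, hp2, fderiv_pm hF ht, ← he, map_zero, sub_zero, ha2, smul_zero,
    add_zero]
  rw [add_sub_cancel_right]

theorem ae_capDouble (hF : IsSliceDisc F) :
    ∀ᵐ a : Space, ∀ x ∈ closedBall (0 : Plane) 1, ∀ y ∈ closedBall (0 : Plane) 1, x ≠ y →
      proj F a x = proj F a y → ∀ u, u ≠ 0 → fderiv ℝ (proj F a) x u ≠ 0 := by
  have hFs : ContDiff ℝ ∞ F := hF.smooth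
  set S : Set ((Plane × ℝ) × Plane) := {p | gradH F p.1.1 ≠ 0 ∧ F p.1.1 3 ≠ F p.2 3 ∧
    Function.Surjective (fderiv ℝ (capMap F) p.1) ∧ capMap F p.1 - pm F (p.1.1, p.2) = 0} with hS
  have hloc : ∀ p0 ∈ S, ∃ N ∈ 𝓝 p0, volume ((fun p : (Plane × ℝ) × Plane => capMap F p.1) ''
      {p | p ∈ N ∧ capMap F p.1 - pm F (p.1.1, p.2) = 0}) = 0 := by
    rintro ⟨q, y⟩ ⟨h1, h2, h3, h4⟩
    have hc1 : ContDiffAt ℝ ∞ (fun p : (Plane × ℝ) × Plane => capMap F p.1) (q, y) :=
      ContDiffAt.comp (q, y) (contDiffAt_capMap hFs h1) contDiffAt_fst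
    have hc2 : ContDiffAt ℝ ∞ (fun p : (Plane × ℝ) × Plane => pm F (p.1.1, p.2)) (q, y) := by
      refine ContDiffAt.comp (f := fun p : (Plane × ℝ) × Plane => (p.1.1, p.2)) (q, y)
        (contDiffAt_pm hFs h2) ?_
      exact (contDiff_fst.fst.prodMk contDiff_snd).contDiffAt
    refine null_of_submersion volume (hc1.sub hc2)
      (capDouble_surj hFs h1 h2 (sub_eq_zero.1 h4) h3) hc1 ?_
    rw [finrank_prod, finrank_prod, finrank_self, finrank_euclideanSpace_fin,
      finrank_euclideanSpace_fin]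
    norm_num
  choose! N hN hN0 using hloc
  obtain ⟨t, htS, htc, hcov⟩ := TopologicalSpace.countable_cover_nhdsWithin
    (s := S) (f := N) (fun p hp => mem_nhdsWithin_of_mem_nhds (hN p hp))
  have hnull : volume ((fun p : (Plane × ℝ) × Plane => capMap F p.1) '' S) = 0 := by
    refine measure_mono_null ?_ ((measure_biUnion_null_iff htc).2 fun p hp => hN0 p (htS hp))
    rintro _ ⟨p, hp, rfl⟩
    obtain ⟨p0, hp0, hpN⟩ := mem_iUnion₂.1 (hcov hp)
    exact mem_iUnion₂.2 ⟨p0, hp0, p, ⟨hpN, hp.2.2.2⟩, rfl⟩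
  filter_upwards [ae_capReg hFs, compl_mem_ae_iff.2 hnull] with a ha1 ha2
  intro x hx y hy hne hxy u hu hdu
  apply ha2
  obtain ⟨hg, r, c, hc, -, hr⟩ := exists_kerVec hF hx hu hdu
  have hh := height_ne_of_proj hF hx hy hne hxy
  have hpm := (proj_eq_iff hh).1 hxy
  refine ⟨((x, r), y), ⟨hg, hh, ha1 (x, r) hg hr, ?_⟩, hr⟩
  show capMap F (x, r) - pm F (x, y) = 0
  rw [hr, hpm, sub_self]

end Pool.Agent.Lib_MP_752436_ts
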