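import Pool.Agent.Lib_MP_752436_ts.Quad
import Pool.Agent.Lib_MP_752436_ts.CapDouble

/-!
Almost every projection of a slice disc is generic.
-/

open MeasureTheory Metric Set Filter Module
open scoped ContDiff Topology

namespace Pool.Agent.Lib_MP_752436_ts

open Pool.Agent.Lib_MP_752436_gt Pool.Agent.Lib_MP_752436_tp Pool.Agent.Lib_MP_752436_rb

theorem ae_gen {F : Plane → EuclideanSpace ℝ (Fin 4)} (hF : IsSliceDisc F) :
    ∀ᵐ a : Space, Gen (proj F a) ∧
      ∀ x ∈ sphere (0 : Plane) 1, Function.Injective (fderiv ℝ (proj F a) x) := by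
  filter_upwards [ae_capReg hF.smooth, ae_capSphere hF, ae_capDouble hF, ae_doubleReg hF,
    ae_noQuad hF] with a h1 h2 h3 h4 h5
  exact ⟨⟨branch_of_capReg hF h1, h3, h4, h5⟩, h2⟩

end Pool.Agent.Lib_MP_752436_ts
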