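import Pool.Agent.Lib_MP_752436_ts.Direction

/-!
Piece G13: bottom points of triple points and trisecants. For v 3 /= 0: F x - F y is a multiple of v
iff proj F (dirVec v) x = proj F (dirVec v) y. `bottoms_le_trisecants`: the map which sends a bottom
point r to the line through F r is injective on the bottoms: two bottom points on the same line
would give four distinct points with the same projection (for bottoms r, r' with chains p > q > r,
p' > q' > r' on the same line: if r /= r' then among p, q, r, p', q', r' there are four distinct points: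
say t r < t r' then r, r', q', p' are distinct as t r < t r' < t q' < t p'), against `hg.quadruple`.
-/

open MeasureTheory Metric Set Filter Module
open scoped ContDiff Topology

namespace Pool.Agent.Lib_MP_752436_ts

open Pool.Agent.Lib_MP_752436_gt Pool.Agent.Lib_MP_752436_tp Pool.Agent.Lib_MP_752436_rb

variable {F : Plane → EuclideanSpace ℝ (Fin 4)}

/-- points on a line with direction `v` have the same projection along `v` -/
private lemma Lines_proj_eq {v : EuclideanSpace ℝ (Fin 4)} (hv : v 3 ≠ 0) {x y : Plane} {c : ℝ}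
    (h : F x = F y + c • v) : proj F (dirVec v) x = proj F (dirVec v) y := by
  have h0 : ∀ i, F x i = F y i + c * v i := fun i => by
    rw [h]
    simp
  ext i
  fin_cases i
  · simp [proj, shadow, dirVec, h0]
    field_simp
    ring
  · simp [proj, shadow, dirVec, h0]
    field_simp
    ring
  · simp [proj, shadow, dirVec, h0]
    field_simp
    ring

private lemma Lines_line {v : EuclideanSpace ℝ (Fin 4)} (hv : v 3 ≠ 0) {x y : Plane}
    (h : proj F (dirVec v) x = proj F (dirVec v) y) :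
    F x = F y + ((F x 3 - F y 3) / v 3) • v := by
  have h0 : F x 0 + F x 3 * (-(v 0) / v 3) = F y 0 + F y 3 * (-(v 0) / v 3) := by
    have := congrFun (congrArg WithLp.ofLp h) 0
    simpa [proj, shadow, dirVec] using this
  have h1 : F x 1 + F x 3 * (-(v 1) / v 3) = F y 1 + F y 3 * (-(v 1) / v 3) := by
    have := congrFun (congrArg WithLp.ofLp h) 1
    simpa [proj, shadow, dirVec] using this
  have h2 : F x 2 + F x 3 * (-(v 2) / v 3) = F y 2 + F y 3 * (-(v 2) / v 3) := by
    have := congrFun (congrArg WithLp.ofLp h) 2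
    simpa [proj, shadow, dirVec] using this
  ext i
  fin_cases i
  · simp only [Fin.zero_eta, PiLp.add_apply, PiLp.smul_apply, smul_eq_mul]
    field_simp at h0 ⊢
    linarith
  · simp only [Fin.mk_one, PiLp.add_apply, PiLp.smul_apply, smul_eq_mul]
    field_simp at h1 ⊢
    linarith
  · simp only [Fin.reduceFinMk, PiLp.add_apply, PiLp.smul_apply, smul_eq_mul]
    field_simp at h2 ⊢
    linarith
  · simp only [Fin.reduceFinMk, PiLp.add_apply, PiLp.smul_apply, smul_eq_mul]
    field_simp
    ring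

private lemma Lines_mem {v : EuclideanSpace ℝ (Fin 4)} (hv : v 3 ≠ 0) {x y : Plane}
    {p : EuclideanSpace ℝ (Fin 4)} (hx : ∃ r : ℝ, F x = p + r • v) (hy : ∃ r : ℝ, F y = p + r • v) :
    proj F (dirVec v) x = proj F (dirVec v) y := by
  obtain ⟨r, hr⟩ := hx
  obtain ⟨r', hr'⟩ := hy
  apply Lines_proj_eq hv (c := r - r')
  rw [hr, hr', sub_smul]
  abel

theorem bottoms_le_trisecants (hF : IsSliceDisc F) {v : EuclideanSpace ℝ (Fin 4)} (hv : v 3 ≠ 0)
    (hg : Gen (proj F (dirVec v))) (s : ℝ) :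
    (bottoms (proj F (dirVec v)) (fun x => F x 3)
      {x | x ∈ closedBall (0 : Plane) 1 ∧ s ≤ F x 3}).encard ≤ (trisecants F s v).encard := by
  set R : Set Plane := {x | x ∈ closedBall (0 : Plane) 1 ∧ s ≤ F x 3} with hRdef
  have hR : R ⊆ closedBall (0 : Plane) 1 := fun x hx => hx.1
  refine Set.encard_le_encard_of_injOn
    (f := fun r : Plane => {q : EuclideanSpace ℝ (Fin 4) | ∃ t : ℝ, q = F r + t • v}) ?_ ?_
  · rintro r ⟨p, q, h1, h2⟩
    have h3 := Over.trans h1 h2
    refine ⟨⟨F r, rfl⟩, p, hR h1.1, q, hR h2.1, r, hR h2.2.1, Over.ne h1, Over.ne h3, Over.ne h2,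
      ⟨h1.1.2, h2.1.2, h2.2.1.2⟩, ?_, ?_, ?_⟩
    · exact ⟨_, Lines_line hv h3.2.2.1⟩
    · exact ⟨_, Lines_line hv h2.2.2.1⟩
    · exact ⟨0, by simp⟩
  · have key : ∀ r ∈ bottoms (proj F (dirVec v)) (fun x => F x 3) R,
        ∀ r' ∈ bottoms (proj F (dirVec v)) (fun x => F x 3) R,
        proj F (dirVec v) r = proj F (dirVec v) r' → ¬ F r 3 < F r' 3 := by
      rintro r ⟨p, q, h1, h2⟩ r' ⟨p', q', h1', h2'⟩ hm hlt
      exact hg.noFour hR h1' h2' (w := r) ⟨h2'.2.1, h2.2.1, hm.symm, hlt⟩
    intro r hr r' hr' hL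
    have hmem : F r' ∈ {q : EuclideanSpace ℝ (Fin 4) | ∃ t : ℝ, q = F r + t • v} := by
      have : {q : EuclideanSpace ℝ (Fin 4) | ∃ t : ℝ, q = F r + t • v} =
          {q : EuclideanSpace ℝ (Fin 4) | ∃ t : ℝ, q = F r' + t • v} := hL
      rw [this]
      exact ⟨0, by simp⟩
    obtain ⟨t, ht⟩ := hmem
    have hm : proj F (dirVec v) r' = proj F (dirVec v) r := Lines_proj_eq hv ht
    have h1 := key r hr r' hr' hm.symm
    have h2 := key r' hr' r hr hm
    have h3 : F r 3 = F r' 3 := le_antisymm (not_lt.mp h2) (not_lt.mp h1)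
    have h4 := Lines_line hv hm
    rw [h3, sub_self, zero_div, zero_smul, add_zero] at h4
    obtain ⟨-, q, -, hq⟩ := hr
    obtain ⟨-, q', -, hq'⟩ := hr'
    exact hF.inj (hR hq.2.1) (hR hq'.2.1) h4.symm

theorem trisecants_eq_empty {v : EuclideanSpace ℝ (Fin 4)} (hv : v 3 ≠ 0) (s : ℝ)
    (h : ∀ x ∈ closedBall (0 : Plane) 1, ∀ y ∈ closedBall (0 : Plane) 1,
      ∀ z ∈ closedBall (0 : Plane) 1, x ≠ y → x ≠ z → y ≠ z →
      ¬ (proj F (dirVec v) x = proj F (dirVec v) y ∧ proj F (dirVec v) x = proj F (dirVec v) z)) :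
    trisecants F s v = ∅ := by
  rw [Set.eq_empty_iff_forall_notMem]
  rintro L ⟨⟨p, rfl⟩, x, hx, y, hy, z, hz, hxy, hxz, hyz, -, h1, h2, h3⟩
  exact h x hx y hy z hz hxy hxz hyz ⟨Lines_mem hv h1 h2, Lines_mem hv h1 h3⟩

end Pool.Agent.Lib_MP_752436_ts
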