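import Pool.Agent.Lib_MP_752436_ts.PairMap
import Pool.Agent.Lib_MP_752436_rb.RibbonSmall
import Pool.Agent.Lib_MP_752436_nb.Literal

/-!
Piece G14: (RIB) in Blueprint.md. A ribbon immersion f lifts to a slice disc F with shadow F = f (see
rb/RibbonSmall, nb, rc for the existing lifting theorems: search for DoubleData and for the height
function; if no existing theorem gives shadow F = f, use rb `DoubleData`: the arcs alpha_i are compact
in the open disc and disjoint from the closed set B, take the height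
(1 - |x|^2) (1 + C b(x)), b a smooth bump function, b = 1 on the arcs, b = 0 on B: if x is on an arc
and y in B, f x = f y, then the height of x is larger for C large). No triple points: of two distinct points
with the same image exactly one is on an arc. Then the compactness argument: (x, a) -> (proj F a x, a)
has an injective strict derivative at (x, 0), so it is injective near (x, 0) (tp
eventually_injOn_of_strict), and limits of triples for a_n -> 0 are triples for a = 0.
-/

open MeasureTheory Metric Set Filter Module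
open scoped ContDiff Topology

namespace Pool.Agent.Lib_MP_752436_ts

open Pool.Agent.Lib_MP_752436_gt Pool.Agent.Lib_MP_752436_tp Pool.Agent.Lib_MP_752436_rb

/-- A map with an injective strict derivative at `c` is injective near `c`. -/
private theorem injOn_of_strict_ro {E F : Type*} [NormedAddCommGroup E] [NormedSpace ℝ E]
    [FiniteDimensional ℝ E] [NormedAddCommGroup F] [NormedSpace ℝ F] {G : E → F}
    {G' : E →L[ℝ] F} {c : E} (hG : HasStrictFDerivAt G G' c) (hinj : Function.Injective G') :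
    ∃ N ∈ 𝓝 c, InjOn G N := by
  obtain ⟨K, hK, hanti⟩ := G'.toLinearMap.exists_antilipschitzWith (LinearMap.ker_eq_bot.2 hinj)
  have hK' : (0 : ℝ) < K := by exact_mod_cast hK
  have hb := hG.isLittleO.def (c := 1 / (2 * (K : ℝ))) (by positivity)
  obtain ⟨N, M, hN1, hM1, hM2, hM3, hNM⟩ := mem_nhds_prod_iff'.1 hb
  refine ⟨N ∩ M, inter_mem (hN1.mem_nhds hM1) (hM2.mem_nhds hM3), ?_⟩
  intro x hx y hy hxy
  have h1 : ‖G x - G y - G' (x - y)‖ ≤ 1 / (2 * (K : ℝ)) * ‖x - y‖ :=
    hNM (Set.mk_mem_prod hx.1 hy.2)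
  have h2 : dist x y ≤ K * dist (G' x) (G' y) := hanti.le_mul_dist x y
  rw [dist_eq_norm, dist_eq_norm, ← map_sub] at h2
  rw [hxy, sub_self, zero_sub, norm_neg] at h1
  have h3 : ‖x - y‖ ≤ K * (1 / (2 * (K : ℝ)) * ‖x - y‖) := h2.trans (by gcongr)
  have h4 : K * (1 / (2 * (K : ℝ)) * ‖x - y‖) = ‖x - y‖ / 2 := by field_simp
  rw [h4] at h3
  have h5 : ‖x - y‖ = 0 := by
    have := norm_nonneg (x - y)
    linarith
  exact sub_eq_zero.1 (norm_eq_zero.1 h5)

/-- The projections near `a = 0` are uniformly injective near a point. -/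
private theorem exists_injNear {F : Plane → EuclideanSpace ℝ (Fin 4)} (hF : ContDiff ℝ ∞ F)
    {x : Plane} (him : Function.Injective (fderiv ℝ (shadow F) x)) :
    ∃ N ∈ 𝓝 ((x, 0) : Plane × Space), ∀ y z : Plane, ∀ a : Space, (y, a) ∈ N → (z, a) ∈ N →
      proj F a y = proj F a z → y = z := by
  set G : Plane × Space → Space × Space := fun p => (shadow F p.1 + F p.1 3 • p.2, p.2) with hG
  have hGs : ContDiff ℝ ∞ G :=
    (((contDiff_shadow_of hF).comp contDiff_fst).add
      (((contDiff_height_ts hF).comp contDiff_fst).smul contDiff_snd)).prodMk contDiff_snd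
  have hd : HasFDerivAt G
      (((fderiv ℝ (shadow F) x).comp (ContinuousLinearMap.fst ℝ Plane Space) +
        ((F x 3) • ContinuousLinearMap.snd ℝ Plane Space +
          ((fderiv ℝ (fun y => F y 3) x).comp
            (ContinuousLinearMap.fst ℝ Plane Space)).smulRight (0 : Space))).prod
        (ContinuousLinearMap.snd ℝ Plane Space)) (x, 0) := by
    have h1 : HasFDerivAt (fun p : Plane × Space => shadow F p.1)
        ((fderiv ℝ (shadow F) x).comp (ContinuousLinearMap.fst ℝ Plane Space)) (x, 0) :=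
      HasFDerivAt.comp (g := shadow F) (f := Prod.fst) (x, (0 : Space))
        (((contDiff_shadow_of hF).differentiable (by simp)) x).hasFDerivAt hasFDerivAt_fst
    have h2 : HasFDerivAt (fun p : Plane × Space => F p.1 3)
        ((fderiv ℝ (fun y => F y 3) x).comp (ContinuousLinearMap.fst ℝ Plane Space)) (x, 0) :=
      HasFDerivAt.comp (g := fun y => F y 3) (f := Prod.fst) (x, (0 : Space))
        (((contDiff_height_ts hF).differentiable (by simp)) x).hasFDerivAt hasFDerivAt_fst
    exact (h1.add (h2.smul hasFDerivAt_snd)).prodMk hasFDerivAt_snd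
  have hs := (hGs.contDiffAt (x := (x, (0 : Space)))).hasStrictFDerivAt' hd (by simp)
  obtain ⟨N, hN, hNi⟩ := injOn_of_strict_ro hs (by
    rw [injective_iff_map_eq_zero]
    rintro ⟨u, b⟩ hub
    simp only [ContinuousLinearMap.prod_apply, Prod.mk_eq_zero] at hub
    obtain ⟨h1, h2⟩ := hub
    simp only [ContinuousLinearMap.coe_snd'] at h2
    subst h2
    have h3 : fderiv ℝ (shadow F) x u = 0 := by simpa using h1
    rw [(injective_iff_map_eq_zero _).1 him u h3]
    rfl)
  refine ⟨N, hN, fun y z a hy hz h => ?_⟩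
  have h1 : G (y, a) = G (z, a) := Prod.ext h rfl
  exact congrArg Prod.fst (hNi hy hz h1)

/-- No triple points of nearby projections, if the projection is an immersion without triple
points. -/
theorem exists_noTriple_near {F : Plane → EuclideanSpace ℝ (Fin 4)} (hF : IsSliceDisc F)
    (him : ∀ x ∈ closedBall (0 : Plane) 1, Function.Injective (fderiv ℝ (shadow F) x))
    (h : ∀ x ∈ closedBall (0 : Plane) 1, ∀ y ∈ closedBall (0 : Plane) 1,
      ∀ z ∈ closedBall (0 : Plane) 1, x ≠ y → x ≠ z → y ≠ z →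
      ¬ (shadow F x = shadow F y ∧ shadow F x = shadow F z)) :
    ∃ ε > 0, ∀ a : Space, ‖a‖ < ε → ∀ x ∈ closedBall (0 : Plane) 1,
      ∀ y ∈ closedBall (0 : Plane) 1, ∀ z ∈ closedBall (0 : Plane) 1, x ≠ y → x ≠ z → y ≠ z →
      ¬ (proj F a x = proj F a y ∧ proj F a x = proj F a z) := by
  by_contra hcon
  push Not at hcon
  have h1 : ∀ n : ℕ, ∃ p : Space × Plane × Plane × Plane, ‖p.1‖ < 1 / ((n : ℝ) + 1) ∧
      p.2 ∈ closedBall (0 : Plane) 1 ×ˢ closedBall (0 : Plane) 1 ×ˢ closedBall (0 : Plane) 1 ∧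
      p.2.1 ≠ p.2.2.1 ∧ p.2.1 ≠ p.2.2.2 ∧ p.2.2.1 ≠ p.2.2.2 ∧
      proj F p.1 p.2.1 = proj F p.1 p.2.2.1 ∧ proj F p.1 p.2.1 = proj F p.1 p.2.2.2 := by
    intro n
    obtain ⟨a, ha, x, hx, y, hy, z, hz, hxy, hxz, hyz, e1, e2⟩ :=
      hcon (1 / ((n : ℝ) + 1)) (by positivity)
    exact ⟨(a, x, y, z), ha, ⟨hx, hy, hz⟩, hxy, hxz, hyz, e1, e2⟩
  choose p hp1 hp2 hp3 hp4 hp5 hp6 hp7 using h1
  have hD : IsCompact (closedBall (0 : Plane) 1) := isCompact_closedBall 0 1
  obtain ⟨⟨x, y, z⟩, hq, φ, hφ, hlim⟩ := (hD.prod (hD.prod hD)).tendsto_subseq hp2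
  have ha : Tendsto (fun n => (p (φ n)).1) atTop (𝓝 0) := by
    have h2 : Tendsto (fun n => (p n).1) atTop (𝓝 0) :=
      squeeze_zero_norm (fun n => (hp1 n).le) tendsto_one_div_add_atTop_nhds_zero_nat
    exact h2.comp hφ.tendsto_atTop
  have hlx : Tendsto (fun n => (p (φ n)).2.1) atTop (𝓝 x) :=
    (continuous_fst.tendsto _).comp hlim
  have hly : Tendsto (fun n => (p (φ n)).2.2.1) atTop (𝓝 y) :=
    ((continuous_fst.comp continuous_snd).tendsto _).comp hlim
  have hlz : Tendsto (fun n => (p (φ n)).2.2.2) atTop (𝓝 z) :=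
    ((continuous_snd.comp continuous_snd).tendsto _).comp hlim
  have hcont : Continuous fun q : Plane × Space => proj F q.2 q.1 :=
    ((contDiff_shadow_of hF.smooth).continuous.comp continuous_fst).add
      (((contDiff_height_ts hF.smooth).continuous.comp continuous_fst).smul continuous_snd)
  have hlim' : ∀ {w : ℕ → Plane} {v : Plane}, Tendsto w atTop (𝓝 v) →
      Tendsto (fun n => proj F (p (φ n)).1 (w n)) atTop (𝓝 (shadow F v)) := by
    intro w v hw
    have h2 := (hcont.tendsto (v, 0)).comp (hw.prodMk_nhds ha)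
    have h3 : proj F 0 v = shadow F v := by simp [proj]
    simp only [h3] at h2
    exact h2
  have e1 : shadow F x = shadow F y :=
    tendsto_nhds_unique (hlim' hlx) ((hlim' hly).congr fun n => (hp6 (φ n)).symm)
  have e2 : shadow F x = shadow F z :=
    tendsto_nhds_unique (hlim' hlx) ((hlim' hlz).congr fun n => (hp7 (φ n)).symm)
  have key : ∀ {w w' : ℕ → Plane} {v v' : Plane}, Tendsto w atTop (𝓝 v) → Tendsto w' atTop (𝓝 v') →
      v ∈ closedBall (0 : Plane) 1 → (∀ n, w n ≠ w' n) →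
      (∀ n, proj F (p (φ n)).1 (w n) = proj F (p (φ n)).1 (w' n)) → v ≠ v' := by
    intro w w' v v' hw hw' hv hne he hvv
    subst hvv
    obtain ⟨N, hN, hNi⟩ := exists_injNear hF.smooth (him v hv)
    have h2 : ∀ᶠ n in atTop, (w n, (p (φ n)).1) ∈ N := (hw.prodMk_nhds ha) hN
    have h3 : ∀ᶠ n in atTop, (w' n, (p (φ n)).1) ∈ N := (hw'.prodMk_nhds ha) hN
    obtain ⟨n, h4, h5⟩ := (h2.and h3).exists
    exact hne n (hNi _ _ _ h4 h5 (he n))
  obtain ⟨hx, hy, hz⟩ := hq
  exact h x hx y hy z hz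
    (key hlx hly hx (fun n => hp3 (φ n)) (fun n => hp6 (φ n)))
    (key hlx hlz hx (fun n => hp4 (φ n)) (fun n => hp7 (φ n)))
    (key hly hlz hy (fun n => hp5 (φ n)) (fun n => (hp6 (φ n)).symm.trans (hp7 (φ n))))
    ⟨e1, e2⟩

theorem exists_noTriple_of_ribbon {K : Set (EuclideanSpace ℝ (Fin 3))} (hK : IsRibbonKnot K) :
    ∃ F, IsSliceDisc F ∧ boundaryKnot F = K ∧
      ∃ ε > 0, ∀ a : Space, ‖a‖ < ε → ∀ x ∈ closedBall (0 : Plane) 1,
      ∀ y ∈ closedBall (0 : Plane) 1, ∀ z ∈ closedBall (0 : Plane) 1, x ≠ y → x ≠ z → y ≠ z →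
      ¬ (proj F a x = proj F a y ∧ proj F a x = proj F a z) := by
  obtain ⟨f, hf, rfl⟩ := hK
  obtain ⟨n, α, B, h⟩ := hf.doubleData
  have hA : IsCompact (⋃ i, α i '' Icc (0 : ℝ) 1) :=
    isCompact_iUnion fun i => isCompact_Icc.image (h.arc i).smooth.continuous
  have hmem : ∀ x, (∃ i, ∃ s ∈ Icc (0 : ℝ) 1, x = α i s) → x ∈ ⋃ i, α i '' Icc (0 : ℝ) 1 := by
    rintro x ⟨i, s, hs, rfl⟩
    exact mem_iUnion.2 ⟨i, s, hs, rfl⟩
  obtain ⟨t, -, ht⟩ := exists_push h.smooth h.immersion hA
    (iUnion_subset fun i => by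
      rintro x ⟨s, hs, rfl⟩
      exact h.inside i s hs) h.closed
    (Set.disjoint_left.2 fun x hx hxB => by
      obtain ⟨i, s, hs, rfl⟩ := mem_iUnion.1 hx
      exact h.disjB i s hs hxB)
    (fun x hx y hy hne he => by
      rcases h.double x hx y hy hne he with ⟨h1, h2⟩ | ⟨h1, h2⟩
      · exact Or.inl ⟨hmem x h1, h2⟩
      · exact Or.inr ⟨h1, hmem y h2⟩)
  have hF := ht 1 one_pos
  have hsh : shadow (lift4 f (fun x => 1 * t x)) = f := shadow_lift4 f _
  refine ⟨lift4 f (fun x => 1 * t x), hF, by rw [boundaryKnot, hsh], exists_noTriple_near hF ?_ ?_⟩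
  · intro x hx
    rw [hsh]
    exact h.immersion x hx
  · intro x hx y hy z hz hxy hxz hyz he
    rw [hsh] at he
    exact hyz (Pool.Agent.Lib_MP_752436_nb.double_of_ribbonImmersion hf hx hy hz hxy hxz he.1 he.2)

end Pool.Agent.Lib_MP_752436_ts
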