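import Pool.Agent.Lib_MP_752436_ts.Assembly
import Pool.Agent.Lib_MP_752436_ts.Collar
import Pool.Agent.Lib_MP_752436_ts.GenAE
import Pool.Agent.Lib_MP_752436_ts.Lines
import Pool.Agent.Lib_MP_752436_ts.RibbonOpen
import Pool.Agent.Lib_MP_752436_mv.Crit
import Pool.Agent.Lib_MP_752436_rc.Main
import Pool.Agent.Lib_MP_752436_gt.Shear

/-!
Trisecants of slice discs against births.
-/

open MeasureTheory Metric Set Filter
open scoped ContDiff Topology

namespace Pool.Agent.Lib_MP_752436_ts

open Pool.Agent.Lib_MP_752436_gt Pool.Agent.Lib_MP_752436_tp Pool.Agent.Lib_MP_752436_rb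
  Pool.Agent.Lib_MP_752436_rc
open Pool.Agent.Lib_MP_752436_mv (crit_cases births_posDef finite_critical
  births_subset_critical)

variable {F : Plane → EuclideanSpace ℝ (Fin 4)}

/-- Morse discs and a level, generic projection. -/
theorem births_of_bottoms (hF : MorseDisc F) (hg : Gen (shadow F)) (s : ℝ) :
    ∃ G, MorseDisc G ∧ boundaryKnot G = boundaryKnot F ∧
      (births G).encard ≤ (births F ∩ {x | F x 3 ≤ s}).encard +
        (bottoms (shadow F) (fun x => F x 3) (region F s)).encard := by
  classical
  rcases (bottoms (shadow F) (fun x => F x 3) (region F s)).finite_or_infinite with hfin | hinf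
  swap
  · refine ⟨F, hF, rfl, ?_⟩
    rw [hinf.encard_eq, add_top]
    exact le_top
  obtain ⟨v, Φ, hΦ⟩ := exists_cutFlow (emb_shadow hF.slice).smm
  set Bad : Set ℝ := (fun x => F x 3) '' ({x | x ∈ closedBall (0 : Plane) 1 ∧
    fderiv ℝ (fun y => F y 3) x = 0} ∪ bottoms (shadow F) (fun x => F x 3) (region F s)) with hBad
  have hBf : Bad.Finite := ((finite_critical hF).union hfin).image _
  set b : ℝ := max s 0 with hb
  have hbs : s ≤ b := le_max_left _ _
  have hb0 : 0 ≤ b := le_max_right _ _
  have hcl : IsClosed (Bad \ {b}) := (hBf.subset sdiff_subset).isClosed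
  obtain ⟨ε, hε, hball⟩ := Metric.isOpen_iff.1 hcl.isOpen_compl b (fun h => h.2 rfl)
  have hno : ∀ u ∈ Bad, u ≤ b + ε / 2 → u ≤ b := by
    intro u hu hle
    by_contra hcon
    push Not at hcon
    have h1 : u ∈ ball b ε := by
      rw [mem_ball, Real.dist_eq, abs_of_pos (by linarith)]
      linarith
    exact hball h1 ⟨hu, fun h => hcon.ne' h⟩
  obtain ⟨s', h1, h2, -, hfree⟩ := exists_goodLevel hF.slice hg hΦ (u0 := b + ε / 3)
    (u1 := b + ε / 2) (by linarith) (by linarith) hBf
  have hss' : s ≤ s' := by linarith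
  have hsub : bottoms (shadow F) (fun x => F x 3) (region F s') ⊆
      bottoms (shadow F) (fun x => F x 3) (region F s) := bottoms_mono (region_anti hss')
  have hlev : GoodLevel F s' := by
    refine ⟨by linarith, ?_, ?_⟩
    · intro x hx hxs h0
      have h3 : F x 3 ∈ Bad := ⟨x, Or.inl ⟨hx, h0⟩, rfl⟩
      have h4 := hno _ h3 (by linarith)
      linarith
    · intro r hr
      have h3 : F r 3 ∈ Bad := ⟨r, Or.inr (hsub hr), rfl⟩
      obtain ⟨p, q, -, hq⟩ := hr
      have h5 : s' ≤ F r 3 := hq.2.1.2
      by_contra hcon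
      push Not at hcon
      have h4 := hno _ h3 (by linarith)
      linarith
  have hbir : births F ∩ {x | F x 3 ≤ s'} ⊆ births F ∩ {x | F x 3 ≤ s} := by
    rintro x ⟨hx, hxs⟩
    refine ⟨hx, ?_⟩
    have h3 : F x 3 ∈ Bad := ⟨x, Or.inl (births_subset_critical hF hx), rfl⟩
    have hxs' : F x 3 ≤ s' := hxs
    have h4 := hno _ h3 (by linarith)
    have h5 : 0 < F x 3 := hF.slice.interior x hx.1
    show F x 3 ≤ s
    rcases le_max_iff.1 h4 with h6 | h6
    · exact h6
    · linarith
  have hbf : (births F ∩ {x | F x 3 ≤ s'}).Finite :=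
    (finite_critical hF).subset fun x hx => births_subset_critical hF hx.1
  obtain ⟨G, hG, hGk, hGn⟩ := births_of_goodLevel hF.slice hg hlev hΦ hfree (hfin.subset hsub)
    hbf.toFinset
    (by
      intro p hp
      obtain ⟨h3, h4⟩ := hbf.mem_toFinset.1 hp
      exact ⟨h3.1, h4, (births_posDef hF h3).2⟩)
    (by
      intro x hx hxs h0
      rcases crit_cases hF hx h0 with h3 | h3
      · exact Or.inl h3
      · exact Or.inr (hbf.mem_toFinset.2 ⟨h3, hxs⟩))
  refine ⟨G, hG, hGk, hGn.trans (add_le_add ?_ (encard_le_encard hsub))⟩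
  rw [← hbf.encard_eq_coe_toFinset_card]
  exact encard_le_encard hbir

/-- Arbitrary slice discs, generic projection without singular points on the circle. -/
theorem births_of_bottoms_slice (hF : IsSliceDisc F) (hg : Gen (shadow F))
    (hcap : ∀ x ∈ sphere (0 : Plane) 1, Function.Injective (fderiv ℝ (shadow F) x)) :
    ∃ G, MorseDisc G ∧ boundaryKnot G = boundaryKnot F ∧
      (births G).encard ≤
        (bottoms (shadow F) (fun x => F x 3) (closedBall (0 : Plane) 1)).encard := by
  classical
  rcases (bottoms (shadow F) (fun x => F x 3) (closedBall (0 : Plane) 1)).finite_or_infinite with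
    hfin | hinf
  swap
  · obtain ⟨a, ha, G, hG, -, -, hGF, -⟩ := willmore_births_shear hF
    refine ⟨G, hG, ?_, ?_⟩
    · unfold boundaryKnot
      refine image_congr fun x hx => ?_
      have h0 := hF.boundary x hx
      ext i
      fin_cases i
      · have := hGF x 0 (by decide)
        rw [h0, zero_smul, add_zero] at this
        exact this
      · have := hGF x 1 (by decide)
        rw [h0, zero_smul, add_zero] at this
        exact this
      · have := hGF x 2 (by decide)
        rw [h0, zero_smul, add_zero] at this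
        exact this
    · rw [hinf.encard_eq]
      exact le_top
  obtain ⟨T, hET, hT0, hT1, hTo, r, hr, hTr⟩ := exists_collar hF hcap
  have hF1 : IsSliceDisc (liftDisc (shadow F) T) := isSliceDisc_liftDisc hET hT0 hT1
  have hsh : shadow (liftDisc (shadow F) T) = shadow F := shadow_liftDisc _ _
  have hg1 : Gen (shadow (liftDisc (shadow F) T)) := by rw [hsh]; exact hg
  have hover : Over (shadow F) T (closedBall (0 : Plane) 1) =
      Over (shadow F) (fun x => F x 3) (closedBall (0 : Plane) 1) := by
    ext p
    constructor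
    · rintro ⟨h1, h2, h3, h4⟩
      exact ⟨h1, h2, h3, (hTo _ h1 _ h2 h3).1 h4⟩
    · rintro ⟨h1, h2, h3, h4⟩
      exact ⟨h1, h2, h3, (hTo _ h1 _ h2 h3).2 h4⟩
  have hbot : bottoms (shadow F) T (closedBall (0 : Plane) 1) =
      bottoms (shadow F) (fun x => F x 3) (closedBall (0 : Plane) 1) := by
    unfold bottoms
    rw [hover]
  have hfin1 : (bottoms (shadow F) T (closedBall (0 : Plane) 1)).Finite := by
    rw [hbot]; exact hfin
  obtain ⟨v, Φ, hΦ⟩ := exists_cutFlow (emb_shadow hF1).smm
  -- a positive lower bound of the height away from the circle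
  obtain ⟨δ, hδ, hδr⟩ : ∃ δ > 0, ∀ x, ‖x‖ ≤ r → δ ≤ T x := by
    rcases (closedBall (0 : Plane) r).eq_empty_or_nonempty with he | hne
    · refine ⟨1, one_pos, fun x hx => ?_⟩
      have h1 : x ∈ closedBall (0 : Plane) r := mem_closedBall_zero_iff.2 hx
      rw [he] at h1
      exact absurd h1 (notMem_empty x)
    · obtain ⟨a, ha, hmin⟩ := (isCompact_closedBall (0 : Plane) r).exists_isMinOn hne
        hET.smz.continuous.continuousOn
      refine ⟨T a, hT1 a (mem_ball_zero_iff.2 ((mem_closedBall_zero_iff.1 ha).trans_lt hr)),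
        fun x hx => hmin (mem_closedBall_zero_iff.2 hx)⟩
  set Bad : Set ℝ := T '' bottoms (shadow F) T (closedBall (0 : Plane) 1) with hBad
  obtain ⟨s, h1, h2, h3, hfree⟩ := exists_goodLevel hF1 hg1 hΦ (u0 := δ / 3)
    (u1 := δ / 2) (by linarith) (by linarith) (hfin1.image T)
  have hs0 : 0 < s := by linarith
  have hlow : ∀ x ∈ closedBall (0 : Plane) 1, T x ≤ s → fderiv ℝ T x ≠ 0 := by
    intro x hx hxs
    refine hTr x hx ?_
    by_contra hcon
    push Not at hcon
    have := hδr x hcon
    linarith
  have hsub : bottoms (shadow (liftDisc (shadow F) T)) (fun x => liftDisc (shadow F) T x 3)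
      (region (liftDisc (shadow F) T) s) ⊆ bottoms (shadow F) T (closedBall (0 : Plane) 1) := by
    rw [hsh]
    exact bottoms_mono (region_sub s)
  have hlev : GoodLevel (liftDisc (shadow F) T) s := by
    refine ⟨hs0, ?_, ?_⟩
    · intro x hx hxs
      exact hlow x hx (le_of_eq hxs)
    · intro q hq
      have h4 : T q ∈ T '' bottoms (shadow F) T (closedBall (0 : Plane) 1) := ⟨q, hsub hq, rfl⟩
      obtain ⟨p, q', -, hq'⟩ := hq
      have h5 : s ≤ T q := hq'.2.1.2
      show s < T q
      by_contra hcon
      push Not at hcon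
      have h6 := h3 _ h4 hcon
      linarith
  obtain ⟨G, hG, hGk, hGn⟩ := births_of_goodLevel hF1 hg1 hlev hΦ hfree (hfin1.subset hsub) ∅
    (fun p hp => absurd hp (Finset.notMem_empty p))
    (fun x hx hxs h0 => absurd h0 (hlow x hx hxs))
  refine ⟨G, hG, ?_, ?_⟩
  · rw [hGk, boundaryKnot_liftDisc]
    rfl
  · refine hGn.trans ?_
    rw [Finset.card_empty, Nat.cast_zero, zero_add, ← hbot]
    exact encard_le_encard hsub

/-- The horizontal vector of `R^4` with given coordinates. -/
def horizVec (a : Space) : EuclideanSpace ℝ (Fin 4) := !₂[a 0, a 1, a 2, 0]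

theorem shadow_shear (F : Plane → EuclideanSpace ℝ (Fin 4)) (a : Space) :
    shadow (fun x => shearMap (horizVec a) (F x)) = proj F a := by
  funext x
  ext i
  fin_cases i
  · show (shearMap (horizVec a) (F x)) 0 = _
    rw [shearMap_apply]
    rfl
  · show (shearMap (horizVec a) (F x)) 1 = _
    rw [shearMap_apply]
    rfl
  · show (shearMap (horizVec a) (F x)) 2 = _
    rw [shearMap_apply]
    rfl

theorem horizVec_three (a : Space) : horizVec a 3 = 0 := rfl

theorem shear_three (a : Space) (w : EuclideanSpace ℝ (Fin 4)) :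
    shearMap (horizVec a) w 3 = w 3 := shearMap_three (horizVec_three a) w

theorem boundaryKnot_shear (hF : IsSliceDisc F) (a : Space) :
    boundaryKnot (fun x => shearMap (horizVec a) (F x)) = boundaryKnot F := by
  unfold boundaryKnot
  rw [shadow_shear]
  refine image_congr fun x hx => ?_
  unfold proj
  rw [hF.boundary x hx, zero_smul, add_zero]

theorem morseDisc_shear (hF : MorseDisc F) (a : Space) :
    MorseDisc (fun x => shearMap (horizVec a) (F x)) := by
  have h : height (fun x => shearMap (horizVec a) (F x)) = height F :=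
    funext fun x => shear_three a (F x)
  refine ⟨isSliceDisc_shear hF.slice (horizVec_three a), ?_, ?_⟩
  · rw [h]; exact hF.neat
  · rw [h]; exact hF.morse

theorem births_shear (a : Space) :
    births (fun x => shearMap (horizVec a) (F x)) = births F := by
  have h : height (fun x => shearMap (horizVec a) (F x)) = height F :=
    funext fun x => shear_three a (F x)
  unfold births
  rw [h]

/-- Births are bounded by trisecants above the level. -/
theorem ae_births_le_trisecants_level (hF : MorseDisc F) (s : ℝ) :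
    ∀ᵐ v : EuclideanSpace ℝ (Fin 4), ∃ G, MorseDisc G ∧ boundaryKnot G = boundaryKnot F ∧
      (births G).encard ≤ (births F ∩ {x | F x 3 ≤ s}).encard + (trisecants F s v).encard := by
  filter_upwards [ae_direction (ae_gen hF.slice)] with v hv
  obtain ⟨hv3, hgen, -⟩ := hv
  set a := dirVec v with ha
  set F' : Plane → EuclideanSpace ℝ (Fin 4) := fun x => shearMap (horizVec a) (F x) with hF'
  have hsh : shadow F' = proj F a := shadow_shear F a
  have h3 : ∀ x, F' x 3 = F x 3 := fun x => shear_three a (F x)
  have h3' : (fun x => F' x 3) = fun x => F x 3 := funext h3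
  obtain ⟨G, hG, hGk, hGn⟩ := births_of_bottoms (morseDisc_shear hF a)
    (by rw [shadow_shear]; exact hgen) s
  refine ⟨G, hG, hGk.trans (boundaryKnot_shear hF.slice a), hGn.trans (add_le_add ?_ ?_)⟩
  · rw [births_shear]
    simp only [shear_three]
    exact le_rfl
  · refine le_trans (encard_le_encard ?_) (bottoms_le_trisecants hF.slice hv3 hgen s)
    rw [shadow_shear, ← hF', h3']
    refine bottoms_mono fun x hx => ?_
    exact ⟨hx.1, by rw [← h3 x]; exact hx.2⟩

/-- Births are bounded by trisecants in almost every direction. -/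
theorem ae_births_le_trisecants (hF : IsSliceDisc F) :
    ∀ᵐ v : EuclideanSpace ℝ (Fin 4), ∃ G, MorseDisc G ∧ boundaryKnot G = boundaryKnot F ∧
      (births G).encard ≤ (trisecants F 0 v).encard := by
  filter_upwards [ae_direction (ae_gen hF)] with v hv
  obtain ⟨hv3, hgen, hcap⟩ := hv
  set a := dirVec v with ha
  set F' : Plane → EuclideanSpace ℝ (Fin 4) := fun x => shearMap (horizVec a) (F x) with hF'
  have hsl : IsSliceDisc F' := isSliceDisc_shear hF (horizVec_three a)
  have hsh : shadow F' = proj F a := shadow_shear F a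
  have h3 : ∀ x, F' x 3 = F x 3 := fun x => shear_three a (F x)
  have h3' : (fun x => F' x 3) = fun x => F x 3 := funext h3
  obtain ⟨G, hG, hGk, hGn⟩ := births_of_bottoms_slice hsl
    (by rw [hsh]; exact hgen) (by rw [hsh]; exact hcap)
  refine ⟨G, hG, hGk.trans (boundaryKnot_shear hF a), hGn.trans ?_⟩
  refine le_trans (encard_le_encard ?_) (bottoms_le_trisecants hF hv3 hgen 0)
  rw [hsh, h3']
  refine bottoms_mono fun x hx => ⟨hx, ?_⟩
  rcases (mem_closedBall_zero_iff.1 hx).lt_or_eq with h4 | h4
  · exact (hF.interior x (mem_ball_zero_iff.2 h4)).le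
  · exact (hF.boundary x (mem_sphere_zero_iff_norm.2 h4)).ge

/-- Ribbon knots are the knots which bound slice discs without trisecants in a set of directions of
positive measure. -/
theorem ribbon_iff_trisecants (K : Set (EuclideanSpace ℝ (Fin 3))) :
    IsRibbonKnot K ↔ ∃ F, IsSliceDisc F ∧ boundaryKnot F = K ∧
      ¬ ∀ᵐ v : EuclideanSpace ℝ (Fin 4), (trisecants F 0 v).Nonempty := by
  constructor
  · intro hK
    obtain ⟨F, hF, hFK, ε, hε, hno⟩ := exists_noTriple_of_ribbon hK
    refine ⟨F, hF, hFK, not_ae_of_ball hε fun v hv hvε => ?_⟩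
    rw [not_nonempty_iff_eq_empty]
    exact trisecants_eq_empty hv 0 (hno (dirVec v) hvε)
  · rintro ⟨F, hF, rfl, hno⟩
    by_contra hK
    apply hno
    filter_upwards [ae_births_le_trisecants hF] with v hv
    obtain ⟨G, hG, hGk, hGn⟩ := hv
    rw [nonempty_iff_ne_empty]
    intro he
    rw [he, encard_empty] at hGn
    have hb : births G = ∅ := by
      rw [← encard_eq_zero]
      exact nonpos_iff_eq_zero.1 hGn
    exact hK (hGk ▸ isRibbonKnot_of_noBirths hG hb)

end Pool.Agent.Lib_MP_752436_ts
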