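import Mathlib

/-!
Piece G1: null images. `null_of_locally`: Lindelöf (second countable E: finitely or countably many
`N` cover `s`, TopologicalSpace.countable_cover_nhdsWithin or similar). `null_of_holder`:
HolderOnWith.dimH_image_le and `dimH s ≤ finrank E`, then measure zero since `dimH < finrank F` (the
Haar measure is a multiple of the Hausdorff measure of dimension finrank F; measure_zero_of_dimH_lt,
`MeasureTheory.Measure.isAddHaarMeasure_hausdorffMeasure` or transfer to `Fin n → ℝ`, where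
`hausdorffMeasure_pi_real`). `sard_equal`: compose with a linear equivalence F ≃ E and use
`MeasureTheory.addHaar_image_eq_zero_of_det_fderiv_eq_zero`. `null_of_finrank_lt`: C^1 maps are
locally Lipschitz, `null_of_locally`, dimH as before (or `ContDiffOn.dimH_image_le`).
-/

open MeasureTheory Metric Set Filter Module
open scoped ContDiff Topology NNReal ENNReal

namespace Pool.Agent.Lib_MP_752436_ts

variable {E F : Type} [NormedAddCommGroup E] [NormedSpace ℝ E] [FiniteDimensional ℝ E]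
  [NormedAddCommGroup F] [NormedSpace ℝ F] [FiniteDimensional ℝ F] [MeasurableSpace F]
  [BorelSpace F]

theorem null_of_locally (μ : Measure F) {f : E → F} {s : Set E}
    (h : ∀ x ∈ s, ∃ N ∈ 𝓝 x, μ (f '' (s ∩ N)) = 0) : μ (f '' s) = 0 := by
  classical
  haveI : ProperSpace E := FiniteDimensional.proper_real E
  have h' : ∀ x : E, ∃ N : Set E, x ∈ s → N ∈ 𝓝 x ∧ μ (f '' (s ∩ N)) = 0 := by
    intro x
    by_cases hx : x ∈ s
    · obtain ⟨N, hN, hz⟩ := h x hx
      exact ⟨N, fun _ => ⟨hN, hz⟩⟩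
    · exact ⟨univ, fun hx' => absurd hx' hx⟩
  choose N hN using h'
  obtain ⟨t, hts, htc, hcov⟩ := TopologicalSpace.countable_cover_nhdsWithin
    (f := N) (s := s) (fun x hx => mem_nhdsWithin_of_mem_nhds (hN x hx).1)
  have hsub : f '' s ⊆ ⋃ x ∈ t, f '' (s ∩ N x) := by
    rintro _ ⟨y, hy, rfl⟩
    obtain ⟨x, hxt, hyx⟩ := mem_iUnion₂.1 (hcov hy)
    exact mem_iUnion₂.2 ⟨x, hxt, y, ⟨hy, hyx⟩, rfl⟩
  refine measure_mono_null hsub ?_
  exact (measure_biUnion_null_iff htc).2 fun x hx => (hN x (hts hx)).2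

/-- A set of Hausdorff dimension less than the dimension of the space is a null set. -/
private theorem null_of_dimH_lt (μ : Measure F) [μ.IsAddHaarMeasure] {s : Set F}
    (h : dimH s < (finrank ℝ F : ℝ≥0∞)) : μ s = 0 := by
  haveI : ProperSpace F := FiniteDimensional.proper_real F
  have hac : μ ≪ Measure.hausdorffMeasure (finrank ℝ F : ℝ) :=
    Measure.absolutelyContinuous_isAddHaarMeasure _ _
  have hac' : μ ≪ Measure.hausdorffMeasure (((finrank ℝ F : ℝ≥0) : ℝ)) := by
    simpa using hac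
  exact measure_zero_of_dimH_lt hac' (by simpa using h)

theorem null_of_holder (μ : Measure F) [μ.IsAddHaarMeasure] {f : E → F} {s : Set E} {C r : ℝ≥0}
    (hr : 0 < r) (hf : HolderOnWith C r f s) (hd : (finrank ℝ E : ℝ≥0) < r * finrank ℝ F) :
    μ (f '' s) = 0 := by
  apply null_of_dimH_lt
  have h1 : dimH (f '' s) ≤ dimH s / r := hf.dimH_image_le hr
  have h2 : dimH s ≤ (finrank ℝ E : ℝ≥0∞) := by
    rw [← Real.dimH_univ_eq_finrank E]
    exact dimH_mono (subset_univ s)
  refine h1.trans_lt ?_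
  have hr0 : (r : ℝ≥0∞) ≠ 0 := by
    simpa using hr.ne'
  have h3 : dimH s / r ≤ (finrank ℝ E : ℝ≥0∞) / r := ENNReal.div_le_div_right h2 _
  refine h3.trans_lt ?_
  rw [ENNReal.div_lt_iff (Or.inl hr0) (Or.inl ENNReal.coe_ne_top)]
  have h4 : ((finrank ℝ E : ℝ≥0) : ℝ≥0∞) < ((r * finrank ℝ F : ℝ≥0) : ℝ≥0∞) :=
    ENNReal.coe_lt_coe.2 hd
  rw [ENNReal.coe_mul, mul_comm] at h4
  simpa using h4

theorem sard_equal (μ : Measure F) [μ.IsAddHaarMeasure] (hd : finrank ℝ E = finrank ℝ F)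
    {f : E → F} {s : Set E} (hf : ∀ x ∈ s, DifferentiableAt ℝ f x)
    (hc : ∀ x ∈ s, ¬ Function.Surjective (fderiv ℝ f x)) : μ (f '' s) = 0 := by
  borelize E
  let e : F ≃L[ℝ] E := ContinuousLinearEquiv.ofFinrankEq hd.symm
  let ν : Measure E := μ.map e
  haveI : ν.IsAddHaarMeasure := ContinuousLinearEquiv.isAddHaarMeasure_map e μ
  have hmap : μ (f '' s) = ν ((e ∘ f) '' s) := by
    have h1 : ν ((e ∘ f) '' s) = μ (e ⁻¹' ((e ∘ f) '' s)) :=
      e.toHomeomorph.toMeasurableEquiv.map_apply _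
    rw [h1, image_comp, preimage_image_eq _ e.injective]
  rw [hmap]
  refine addHaar_image_eq_zero_of_det_fderivWithin_eq_zero ν
    (f' := fun x => (e : F →L[ℝ] E).comp (fderiv ℝ f x)) ?_ ?_
  · intro x hx
    exact ((e : F →L[ℝ] E).hasFDerivAt.comp x (hf x hx).hasFDerivAt).hasFDerivWithinAt
  · intro x hx
    by_contra hdet
    have hdet' : LinearMap.det (((e : F →L[ℝ] E).comp (fderiv ℝ f x) : E →L[ℝ] E) : E →ₗ[ℝ] E)
        ≠ 0 := hdet
    have hsurj : Function.Surjective ((e : F →L[ℝ] E).comp (fderiv ℝ f x)) := by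
      intro y
      obtain ⟨z, hz⟩ := (LinearMap.equivOfDetNeZero _ hdet').surjective y
      exact ⟨z, hz⟩
    apply hc x hx
    intro y
    obtain ⟨z, hz⟩ := hsurj (e y)
    exact ⟨z, e.injective hz⟩

theorem null_of_finrank_lt (μ : Measure F) [μ.IsAddHaarMeasure] (hd : finrank ℝ E < finrank ℝ F)
    {f : E → F} {U : Set E} (hU : IsOpen U) (hf : ContDiffOn ℝ 1 f U) : μ (f '' U) = 0 := by
  apply null_of_dimH_lt
  have h1 : dimH (f '' U) ≤ dimH U := by
    refine dimH_image_le_of_locally_lipschitzOn fun x hx => ?_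
    obtain ⟨K, t, ht, hlip⟩ := (hf.contDiffAt (hU.mem_nhds hx)).exists_lipschitzOnWith
    exact ⟨K, t, mem_nhdsWithin_of_mem_nhds ht, hlip⟩
  have h2 : dimH U ≤ (finrank ℝ E : ℝ≥0∞) := by
    rw [← Real.dimH_univ_eq_finrank E]
    exact dimH_mono (subset_univ U)
  exact (h1.trans h2).trans_lt (by exact_mod_cast hd)

end Pool.Agent.Lib_MP_752436_ts
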