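import Pool.Agent.Lib_MP_752436_ts.Defs
import Pool.Agent.Lib_MP_752436_gt.SuperOff

/-!
Piece V8 (port of mv/DualMovie.lean): without traps in `K` there are superharmonic functions which do
not decrease from the lower to the upper points. Here `z` is any function which lifts `m` to an
embedding (Emb m z); `dsq x0 x = |m x - m x0|^2`.
-/

open Metric Set Filter
open scoped ContDiff Topology

namespace Pool.Agent.Lib_MP_752436_ts

open Pool.Agent.Lib_MP_752436_gt Pool.Agent.Lib_MP_752436_tp Pool.Agent.Lib_MP_752436_rb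
open Pool.Agent.Lib_MP_752436_mv (flipSet)

/-- The coordinates of `m` are smooth. -/
private theorem smooth_coord {m : Plane → Space} (hm : ContDiff ℝ ∞ m) (i : Fin 3) :
    ContDiff ℝ ∞ (fun x => m x i) := contDiff_euclidean.mp hm i

private theorem fderiv_coord_m {m : Plane → Space} (hm : ContDiff ℝ ∞ m) (i : Fin 3)
    (x u : Plane) : fderiv ℝ (fun y => m y i) x u = fderiv ℝ m x u i := by
  have hf : HasFDerivAt m (fderiv ℝ m x) x := ((hm.differentiable (by simp)) x).hasFDerivAt
  have h2 : HasFDerivAt (fun y => m y i)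
      ((EuclideanSpace.proj i : Space →L[ℝ] ℝ).comp (fderiv ℝ m x)) x :=
    (EuclideanSpace.proj i : Space →L[ℝ] ℝ).hasFDerivAt.comp x hf
  rw [h2.fderiv]
  rfl

/-- The squared distance of the images. -/
private def dsq (m : Plane → Space) (x₀ x : Plane) : ℝ :=
  (m x 0 - m x₀ 0) ^ 2 + (m x 1 - m x₀ 1) ^ 2 + (m x 2 - m x₀ 2) ^ 2

private theorem dsq_contDiff {m : Plane → Space} (hm : ContDiff ℝ ∞ m)
    (x₀ : Plane) : ContDiff ℝ ∞ (dsq m x₀) :=
  ((((smooth_coord hm 0).sub contDiff_const).pow 2).add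
    (((smooth_coord hm 1).sub contDiff_const).pow 2)).add
      (((smooth_coord hm 2).sub contDiff_const).pow 2)

private theorem dsq_nonneg (m : Plane → Space) (x₀ x : Plane) :
    0 ≤ dsq m x₀ x := by
  unfold dsq
  positivity

private theorem dsq_self (m : Plane → Space) (x₀ : Plane) :
    dsq m x₀ x₀ = 0 := by
  simp [dsq]

private theorem dsq_congr {m : Plane → Space} {x₀ x y : Plane}
    (h : m x = m y) : dsq m x₀ x = dsq m x₀ y := by
  simp only [dsq, h]

private theorem dsq_eq_zero {m : Plane → Space} {x₀ x : Plane}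
    (h : dsq m x₀ x = 0) : m x₀ = m x := by
  obtain ⟨a0, a1, a2⟩ := shadow_sq h
  ext i
  fin_cases i
  · exact (sub_eq_zero.mp a0).symm
  · exact (sub_eq_zero.mp a1).symm
  · exact (sub_eq_zero.mp a2).symm

private theorem hasFDerivAt_coord {m : Plane → Space} (hm : ContDiff ℝ ∞ m)
    (i : Fin 3) (x : Plane) : HasFDerivAt (fun y => m y i) (fderiv ℝ (fun y => m y i) x) x :=
  (((smooth_coord hm i).differentiable (by simp)) x).hasFDerivAt

private theorem dsq_kernel {m : Plane → Space} (hm : ContDiff ℝ ∞ m)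
    (x₀ : Plane) {x u : Plane} (h : fderiv ℝ m x u = 0) :
    fderiv ℝ (dsq m x₀) x u = 0 := by
  have hz : ∀ i, fderiv ℝ (fun y => m y i) x u = 0 := fun i => by
    rw [fderiv_coord_m hm, h]
    rfl
  have e0 := (((hasFDerivAt_coord hm 0 x).sub_const (m x₀ 0)).pow 2)
  have e1 := (((hasFDerivAt_coord hm 1 x).sub_const (m x₀ 1)).pow 2)
  have e3 := (((hasFDerivAt_coord hm 2 x).sub_const (m x₀ 2)).pow 2)
  have e := (e0.add e1).add e3
  have e' : HasFDerivAt (dsq m x₀) _ x := e
  rw [e'.fderiv]
  simp [hz 0, hz 1, hz 2]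

/-- A real function of the squared distance has zero derivative in the kernel. -/
private theorem comp_kernel {g : ℝ → ℝ} (hg : Differentiable ℝ g) {φ : Plane → ℝ}
    (hφ : Differentiable ℝ φ) {x u : Plane} (h : fderiv ℝ φ x u = 0) :
    fderiv ℝ (fun y => g (φ y)) x u = 0 := by
  have e := (hg (φ x)).hasDerivAt.comp_hasFDerivAt x (hφ x).hasFDerivAt
  have e' : HasFDerivAt (fun y => g (φ y)) _ x := e
  rw [e'.fderiv]
  simp [h]

private theorem smooth_mono_deriv (t : ℝ) : 0 ≤ deriv Real.smoothTransition t :=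
  Real.smoothTransition.monotone.deriv_nonneg

/-- Two different sheets over the same point have distance bounded below. -/
private theorem exists_gap {m : Plane → Space} {z : Plane → ℝ} (hE : Emb m z) {d : ℝ}
    (hd : 0 < d) : ∃ e : ℝ, 0 < e ∧ ∀ x ∈ closedBall (0 : Plane) 1,
      ∀ y ∈ closedBall (0 : Plane) 1, m x = m y → z y < z x → d ≤ ‖x - y‖ →
      4 * e ≤ z x - z y := by
  have hmc : Continuous m := hE.smm.continuous
  have hzc : Continuous z := hE.smz.continuous
  have hK : IsCompact (((closedBall (0 : Plane) 1) ×ˢ (closedBall (0 : Plane) 1)) ∩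
      {p | d ≤ ‖p.1 - p.2‖ ∧ m p.1 = m p.2 ∧ z p.2 ≤ z p.1}) := by
    refine ((isCompact_closedBall _ _).prod (isCompact_closedBall _ _)).inter_right ?_
    refine (isClosed_le continuous_const (continuous_fst.sub continuous_snd).norm).inter ?_
    exact (isClosed_eq (hmc.comp continuous_fst) (hmc.comp continuous_snd)).inter
      (isClosed_le (hzc.comp continuous_snd) (hzc.comp continuous_fst))
  have hc : Continuous fun p : Plane × Plane => z p.1 - z p.2 :=
    (hzc.comp continuous_fst).sub (hzc.comp continuous_snd)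
  rcases (((closedBall (0 : Plane) 1) ×ˢ (closedBall (0 : Plane) 1)) ∩
      {p : Plane × Plane | d ≤ ‖p.1 - p.2‖ ∧ m p.1 = m p.2 ∧
        z p.2 ≤ z p.1}).eq_empty_or_nonempty with he | hne
  · refine ⟨1, one_pos, fun x hx y hy h1 h2 h3 => ?_⟩
    exfalso
    have : (x, y) ∈ (((closedBall (0 : Plane) 1) ×ˢ (closedBall (0 : Plane) 1)) ∩
      {p : Plane × Plane | d ≤ ‖p.1 - p.2‖ ∧ m p.1 = m p.2 ∧ z p.2 ≤ z p.1}) :=
      ⟨⟨hx, hy⟩, h3, h1, h2.le⟩
    rw [he] at this
    exact this
  · obtain ⟨p, hp, hmin⟩ := hK.exists_isMinOn hne hc.continuousOn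
    have hpos : 0 < z p.1 - z p.2 := by
      rcases hp.2.2.2.lt_or_eq with h | h
      · linarith
      · exfalso
        have h1 := hE.inj p.1 hp.1.1 p.2 hp.1.2 hp.2.2.1 h.symm
        have h2 : d ≤ ‖p.1 - p.2‖ := hp.2.1
        rw [h1, sub_self, norm_zero] at h2
        linarith
    refine ⟨(z p.1 - z p.2) / 4, by linarith, fun x hx y hy h1 h2 h3 => ?_⟩
    have h4 := isMinOn_iff.mp hmin (x, y) ⟨⟨hx, hy⟩, h3, h1, h2.le⟩
    simp only at h4
    linarith

private theorem exists_lift_shadow {m : Plane → Space} {z : Plane → ℝ}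
    (hE : Emb m z) {Z : Set Plane}
    (hZ : IsCompact Z) {x₀ : Plane}
    (hinj0 : Function.Injective (fderiv ℝ m x₀))
    (hno : ∀ y ∈ Z, m x₀ = m y → ¬ z y < z x₀) :
    ∃ r : ℝ, 0 < r ∧ (∀ x ∈ ball x₀ r, Function.Injective (fderiv ℝ m x)) ∧
      ∃ η : Plane → ℝ, ContDiff ℝ ∞ η ∧ (∀ x, 0 ≤ η x) ∧
      (∀ x y, m x = m y → z y < z x → η x ≤ η y) ∧
      (∀ x u, fderiv ℝ m x u = 0 → 0 ≤ fderiv ℝ z x u →
        fderiv ℝ η x u ≤ 0) ∧
      (∀ x ∈ closedBall (0 : Plane) 1, x ∈ ball x₀ r →
        ∀ y ∈ closedBall (0 : Plane) 1, m x = m y → z y < z x →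
          η x = 0 ∧ η y = 1) ∧
      ∀ w ∈ Z, ∀ᶠ x in 𝓝 w, η x = 0 := by
  have hzc : Continuous z := hE.smz.continuous
  -- (i) the map is injective near `x₀`
  obtain ⟨r0, hr0, hinj⟩ : ∃ r : ℝ, 0 < r ∧ InjOn m (ball x₀ r) := by
    have hst := ((hE.smm).contDiffAt (x := x₀)).hasStrictFDerivAt (by simp)
    refine shadow_locInj hst ?_
    intro u hu h0
    exact hu (hinj0 (by rw [h0, map_zero]))
  obtain ⟨r2, hr2, hinj2⟩ : ∃ r : ℝ, 0 < r ∧
      ∀ x ∈ ball x₀ r, Function.Injective (fderiv ℝ m x) := by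
    have hop : IsOpen {x : Plane | Function.Injective (fderiv ℝ m x)} :=
      ContinuousLinearMap.isOpen_injective.preimage
        ((hE.smm).continuous_fderiv (by simp))
    obtain ⟨r, hr, hb⟩ := Metric.isOpen_iff.mp hop x₀ hinj0
    exact ⟨r, hr, fun x hx => hb hx⟩
  set S : Plane → ℝ := dsq m x₀ with hS
  have hSsm : ContDiff ℝ ∞ S := dsq_contDiff hE.smm x₀
  have hSc : Continuous S := hSsm.continuous
  have hS0 : ∀ x, 0 ≤ S x := dsq_nonneg m x₀
  have hSab : ∀ x y, m x = m y → S x = S y := fun x y h => dsq_congr h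
  obtain ⟨e, hepos, hgap⟩ := exists_gap hE (d := r0 / 2) (by positivity)
  set t0 : ℝ := z x₀ with ht0
  -- (iv) compactness
  obtain ⟨μ, hm, hmZ⟩ : ∃ μ : ℝ, 0 < μ ∧ ∀ w ∈ Z, S w ≤ μ → t0 - e < z w := by
    have hC : IsCompact (Z ∩ {w | z w ≤ t0 - e}) :=
      hZ.inter_right (isClosed_le hzc continuous_const)
    by_cases hne : (Z ∩ {w | z w ≤ t0 - e}).Nonempty
    · obtain ⟨z1, hz1, hmin⟩ := hC.exists_isMinOn hne hSc.continuousOn
      have hpos : 0 < S z1 := by
        rcases (hS0 z1).lt_or_eq with h | h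
        · exact h
        · exfalso
          apply hno z1 hz1.1 (dsq_eq_zero h.symm)
          have : z z1 ≤ t0 - e := hz1.2
          have : z z1 < t0 := by linarith
          exact this
      refine ⟨S z1 / 2, by positivity, ?_⟩
      intro w hz hSz
      by_contra hlt
      push Not at hlt
      have := isMinOn_iff.mp hmin w ⟨hz, hlt⟩
      linarith
    · refine ⟨1, one_pos, ?_⟩
      intro w hz _
      by_contra hlt
      push Not at hlt
      exact hne ⟨w, hz, hlt⟩
  -- (iii) choice of the radius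
  have hopen : IsOpen {x | t0 - e < z x ∧ z x < t0 + e ∧ S x < μ / 2} :=
    (isOpen_lt continuous_const hzc).inter
      ((isOpen_lt hzc continuous_const).inter (isOpen_lt hSc continuous_const))
  have hmem : x₀ ∈ {x | t0 - e < z x ∧ z x < t0 + e ∧ S x < μ / 2} := by
    refine ⟨?_, ?_, ?_⟩
    · change t0 - e < t0
      linarith
    · change t0 < t0 + e
      linarith
    · have : S x₀ = 0 := dsq_self m x₀
      rw [this]; positivity
  obtain ⟨r1, hr1, hball⟩ := Metric.isOpen_iff.mp hopen x₀ hmem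
  refine ⟨min (min r1 (r0 / 2)) r2, lt_min (lt_min hr1 (by positivity)) hr2,
    fun x hx => hinj2 x (ball_subset_ball (min_le_right _ _) hx), fun x =>
    Real.smoothTransition (2 - 2 * S x / μ) * Real.smoothTransition ((t0 - e - z x) / e),
    ?_, ?_, ?_, ?_, ?_, ?_⟩
  · exact (Real.smoothTransition.contDiff.comp
      (contDiff_const.sub ((contDiff_const.mul hSsm).div_const μ))).mul
      (Real.smoothTransition.contDiff.comp ((contDiff_const.sub hE.smz).div_const e))
  · intro x
    exact mul_nonneg (Real.smoothTransition.nonneg _) (Real.smoothTransition.nonneg _)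
  · intro x y h h2
    change Real.smoothTransition (2 - 2 * S x / μ) * Real.smoothTransition ((t0 - e - z x) / e) ≤
      Real.smoothTransition (2 - 2 * S y / μ) * Real.smoothTransition ((t0 - e - z y) / e)
    rw [hSab x y h]
    apply mul_le_mul_of_nonneg_left _ (Real.smoothTransition.nonneg _)
    apply Real.smoothTransition.monotone
    apply div_le_div_of_nonneg_right _ hepos.le
    linarith
  · intro x u hk hz
    have hST : Differentiable ℝ Real.smoothTransition :=
      (Real.smoothTransition.contDiff (n := 1)).differentiable (by simp)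
    have d1 : HasFDerivAt (fun x => 2 - 2 * S x / μ)
        (-((2 / μ) • fderiv ℝ S x)) x := by
      have := (((hSsm.differentiable (by simp)) x).hasFDerivAt.const_mul (2 / μ)).const_sub 2
      refine this.congr_of_eventuallyEq (Eventually.of_forall fun y => ?_)
      ring
    have d2 : HasFDerivAt (fun x => (t0 - e - z x) / e)
        (-((1 / e) • fderiv ℝ z x)) x := by
      have := ((hasFDerivAt_self hE.smz x).const_mul (1 / e)).const_sub ((t0 - e) / e)
      refine this.congr_of_eventuallyEq (Eventually.of_forall fun y => ?_)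
      ring
    have c1 := (hST (2 - 2 * S x / μ)).hasDerivAt.comp_hasFDerivAt x d1
    have c2 := (hST ((t0 - e - z x) / e)).hasDerivAt.comp_hasFDerivAt x d2
    have c3 : HasFDerivAt (fun x => Real.smoothTransition (2 - 2 * S x / μ) *
        Real.smoothTransition ((t0 - e - z x) / e)) _ x := c1.mul c2
    rw [c3.fderiv]
    have hSk : fderiv ℝ S x u = 0 := dsq_kernel hE.smm x₀ hk
    simp only [add_apply, smul_apply,
      neg_apply, smul_eq_mul, Function.comp_apply, hSk, mul_zero, neg_zero,
      add_zero]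
    have q1 := Real.smoothTransition.nonneg (2 - 2 * S x / μ)
    have q2 := smooth_mono_deriv ((t0 - e - z x) / e)
    have q3 : 0 ≤ 1 / e * fderiv ℝ z x u := by positivity
    have q4 := mul_nonneg q1 (mul_nonneg q2 q3)
    linarith
  · intro x hx hxb y hy hab hab2
    have hxr1 : x ∈ ball x₀ r1 :=
      ball_subset_ball ((min_le_left _ _).trans (min_le_left _ _)) hxb
    have hxr0 : x ∈ ball x₀ (r0 / 2) :=
      ball_subset_ball ((min_le_left _ _).trans (min_le_right _ _)) hxb
    obtain ⟨h1, h2, h3⟩ := hball hxr1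
    have hne : x ≠ y := by
      rintro rfl
      exact lt_irrefl _ hab2
    have hyb : y ∉ ball x₀ r0 := by
      intro hyb
      exact hne (hinj (ball_subset_ball (by linarith) hxr0) hyb hab)
    have hdist : r0 / 2 ≤ ‖x - y‖ := by
      rw [mem_ball, not_lt] at hyb
      rw [mem_ball] at hxr0
      have := dist_triangle y x x₀
      rw [dist_comm y x, dist_eq_norm x y] at this
      linarith
    have h4 : 4 * e ≤ z x - z y := hgap x hx y hy hab hab2 hdist
    have h6 : z y ≤ t0 - 3 * e := by linarith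
    constructor
    · change Real.smoothTransition (2 - 2 * S x / μ) *
        Real.smoothTransition ((t0 - e - z x) / e) = 0
      rw [Real.smoothTransition.zero_of_nonpos (x := (t0 - e - z x) / e), mul_zero]
      apply div_nonpos_of_nonpos_of_nonneg _ hepos.le
      linarith
    · change Real.smoothTransition (2 - 2 * S y / μ) *
        Real.smoothTransition ((t0 - e - z y) / e) = 1
      rw [Real.smoothTransition.one_of_one_le (x := (t0 - e - z y) / e),
        Real.smoothTransition.one_of_one_le, mul_one]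
      · rw [← hSab x y hab]
        have : 2 * S x / μ ≤ 1 := by
          rw [div_le_one hm]; linarith
        linarith
      · rw [le_div_iff₀ hepos]
        linarith
  · intro w hz
    have hop : IsOpen {x | μ < S x ∨ t0 - e < z x} :=
      (isOpen_lt continuous_const hSc).union (isOpen_lt continuous_const hzc)
    have hzm : w ∈ {x | μ < S x ∨ t0 - e < z x} := by
      by_cases h : S w ≤ μ
      · exact Or.inr (hmZ w hz h)
      · exact Or.inl (not_le.mp h)
    filter_upwards [hop.mem_nhds hzm] with x hx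
    rcases hx with hx | hx
    · rw [Real.smoothTransition.zero_of_nonpos (x := 2 - 2 * S x / μ), zero_mul]
      have : 2 ≤ 2 * S x / μ := by
        rw [le_div_iff₀ hm]; linarith
      linarith
    · rw [Real.smoothTransition.zero_of_nonpos (x := (t0 - e - z x) / e), mul_zero]
      apply div_nonpos_of_nonpos_of_nonneg _ hepos.le
      linarith

/-- The Laplacian of a square at a zero. -/
private theorem lap_sq {f : Plane → ℝ} (hf : ContDiff ℝ ∞ f) {x₀ : Plane} (h : f x₀ = 0) :
    lap (fun x => f x ^ 2) x₀ = 2 * (fderiv ℝ f x₀ (EuclideanSpace.single 0 1)) ^ 2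
      + 2 * (fderiv ℝ f x₀ (EuclideanSpace.single 1 1)) ^ 2 := by
  have h0 : fderiv ℝ (fun x => f x ^ 2) = fun x => (2 * f x) • fderiv ℝ f x := by
    funext w
    have := (hasFDerivAt_self hf w).pow 2
    have e : HasFDerivAt (fun x => f x ^ 2) _ w := this
    rw [e.fderiv]
    simp
  have h1 : HasFDerivAt (fun x => (2 * f x) • fderiv ℝ f x)
      ((2 * f x₀) • fderiv ℝ (fderiv ℝ f) x₀ +
        ((2 : ℝ) • fderiv ℝ f x₀).smulRight (fderiv ℝ f x₀)) x₀ :=
    ((hasFDerivAt_self hf x₀).const_mul 2).smul (hasFDerivAt_fderiv hf x₀)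
  unfold lap
  rw [h0, h1.fderiv, h]
  simp only [mul_zero, zero_smul, zero_add, ContinuousLinearMap.smulRight_apply,
    smul_apply, smul_eq_mul]
  ring

private theorem lap_congr {φ ψ : Plane → ℝ} {x : Plane} (h : φ =ᶠ[𝓝 x] ψ) :
    lap φ x = lap ψ x := by
  unfold lap
  rw [(h.fderiv (𝕜 := ℝ)).fderiv_eq]

/-- The derivative of `m` does not vanish at a singular point. -/
private theorem cap_deriv_ne {m : Plane → Space} (hg : Gen m) {x : Plane}
    (hx : x ∈ closedBall (0 : Plane) 1) : fderiv ℝ m x ≠ 0 := by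
  intro h0
  have hu : (EuclideanSpace.single 0 1 : Plane) ≠ 0 := by
    intro h
    have := congrArg (fun v : Plane => v 0) h
    simp at this
  have hb := hg.branch x hx _ hu (by simp [h0])
  set L : Plane →L[ℝ] Space :=
    fderiv ℝ (fun y => fderiv ℝ m y (EuclideanSpace.single 0 1)) x with hL
  have hsurj : Function.Surjective (L : Plane →ₗ[ℝ] Space) := by
    intro v
    obtain ⟨a, b, hab⟩ := hb v
    refine ⟨a, ?_⟩
    have : fderiv ℝ m x b = 0 := by simp [h0]
    rw [this, add_zero] at hab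
    exact hab
  have h1 := LinearMap.finrank_le_finrank_of_surjective hsurj
  simp at h1

private theorem cap_sum_pos {m : Plane → Space} (hm : ContDiff ℝ ∞ m)
    {x : Plane} (h : fderiv ℝ m x ≠ 0) :
    0 < lap (dsq m x) x := by
  have c : ∀ i, ContDiff ℝ ∞ (fun y => m y i - m x i) :=
    fun i => (smooth_coord hm i).sub contDiff_const
  have c2 : ∀ i, ContDiff ℝ ∞ (fun y => (m y i - m x i) ^ 2) := fun i => (c i).pow 2
  have e : dsq m x = ((fun y => (m y 0 - m x 0) ^ 2) + (fun y => (m y 1 - m x 1) ^ 2)) +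
      (fun y => (m y 2 - m x 2) ^ 2) := rfl
  have hfd : ∀ i u, fderiv ℝ (fun y => m y i - m x i) x u = fderiv ℝ m x u i := by
    intro i u
    rw [fderiv_sub_const]
    exact fderiv_coord_m hm i x u
  have e01 : lap ((fun y => (m y 0 - m x 0) ^ 2) + (fun y => (m y 1 - m x 1) ^ 2)) =
      lap (fun y => (m y 0 - m x 0) ^ 2) + lap (fun y => (m y 1 - m x 1) ^ 2) :=
    lap_add (c2 0) (c2 1)
  have e2 : lap (dsq m x) = lap ((fun y => (m y 0 - m x 0) ^ 2) +
      (fun y => (m y 1 - m x 1) ^ 2)) + lap (fun y => (m y 2 - m x 2) ^ 2) := by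
    rw [e]
    exact lap_add (φ := (fun y => (m y 0 - m x 0) ^ 2) + (fun y => (m y 1 - m x 1) ^ 2))
      (ContDiff.add (c2 0) (c2 1)) (c2 2)
  rw [e2, e01]
  simp only [Pi.add_apply]
  rw [lap_sq (c 0) (sub_self _), lap_sq (c 1) (sub_self _), lap_sq (c 2) (sub_self _)]
  simp only [hfd]
  by_contra hcon
  apply h
  have hz : ∀ j : Fin 2, fderiv ℝ m x (EuclideanSpace.single j 1) = 0 := by
    intro j
    have key : fderiv ℝ m x (EuclideanSpace.single j 1) 0 = 0 ∧
        fderiv ℝ m x (EuclideanSpace.single j 1) 1 = 0 ∧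
        fderiv ℝ m x (EuclideanSpace.single j 1) 2 = 0 := by
      have p0 := sq_nonneg (fderiv ℝ m x (EuclideanSpace.single 0 1) 0)
      have p1 := sq_nonneg (fderiv ℝ m x (EuclideanSpace.single 0 1) 1)
      have p2 := sq_nonneg (fderiv ℝ m x (EuclideanSpace.single 0 1) 2)
      have p3 := sq_nonneg (fderiv ℝ m x (EuclideanSpace.single 1 1) 0)
      have p4 := sq_nonneg (fderiv ℝ m x (EuclideanSpace.single 1 1) 1)
      have p5 := sq_nonneg (fderiv ℝ m x (EuclideanSpace.single 1 1) 2)
      fin_cases j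
      · exact shadow_sq (by
          simp only [Fin.zero_eta]
          linarith)
      · exact shadow_sq (by
          simp only [Fin.mk_one]
          linarith)
    ext i
    fin_cases i
    · exact key.1
    · exact key.2.1
    · exact key.2.2
  ext u : 1
  have hu : u = (u 0) • EuclideanSpace.single 0 (1 : ℝ) + (u 1) • EuclideanSpace.single 1 (1 : ℝ) := by
    ext i
    fin_cases i <;> simp
  rw [hu, map_add, map_smul, map_smul, hz 0, hz 1]
  simp

theorem exists_superharmonic_lift {m : Plane → Space} {z : Plane → ℝ} (hE : Emb m z) (hg : Gen m)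
    {K : Set Plane} (hK : IsCompact K) (hKb : K ⊆ ball (0 : Plane) 1)
    (hno : ¬ ∃ Z, IsLTrap m z K Z) :
    ∃ φ : Plane → ℝ, ContDiff ℝ ∞ φ ∧ Rising m z φ ∧ ∀ x ∈ K, lap φ x < 0 := by
  by_contra hcon0
  set A : Set (Plane → ℝ) := {g | ∃ φ : Plane → ℝ,
    ContDiff ℝ ∞ φ ∧ Rising m z φ ∧ g = lap φ}
    with hA
  have hAc : ∀ g ∈ A, Continuous g := by
    rintro g ⟨φ, hφ, _, rfl⟩
    exact continuous_lap hφ
  have hAne : A.Nonempty := by
    refine ⟨lap (fun _ => 0), fun _ => 0, contDiff_const, ⟨fun _ _ _ _ _ _ => le_refl _, ?_⟩, rfl⟩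
    intro x _ u _ _
    simp
  have hAadd : ∀ g ∈ A, ∀ h ∈ A, g + h ∈ A := by
    rintro g ⟨φ, hφ, hφm, rfl⟩ h ⟨ψ, hψ, hψm, rfl⟩
    refine ⟨φ + ψ, hφ.add hψ, ⟨?_, ?_⟩, (lap_add hφ hψ).symm⟩
    · intro x hx y hy h1 h2
      exact add_le_add (hφm.cross x hx y hy h1 h2) (hψm.cross x hx y hy h1 h2)
    · intro x hx u h1 h2
      have e : HasFDerivAt (φ + ψ) _ x := (hasFDerivAt_self hφ x).add (hasFDerivAt_self hψ x)
      rw [e.fderiv]
      exact add_nonneg (hφm.cap x hx u h1 h2) (hψm.cap x hx u h1 h2)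
  have hAsmul : ∀ c : ℝ, 0 ≤ c → ∀ g ∈ A, c • g ∈ A := by
    rintro c hc g ⟨φ, hφ, hφm, rfl⟩
    refine ⟨c • φ, contDiff_const.smul hφ, ⟨?_, ?_⟩, (lap_smul c hφ).symm⟩
    · intro x hx y hy h1 h2
      exact mul_le_mul_of_nonneg_left (hφm.cross x hx y hy h1 h2) hc
    · intro x hx u h1 h2
      have e : HasFDerivAt (c • φ) _ x := (hasFDerivAt_self hφ x).const_smul c
      rw [e.fderiv]
      exact mul_nonneg hc (hφm.cap x hx u h1 h2)
  have hAno : ∀ g ∈ A, ∃ x ∈ K, 0 ≤ g x := by
    rintro g ⟨φ, hφ, hφm, rfl⟩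
    by_contra hcon
    push Not at hcon
    exact hcon0 ⟨φ, hφ, hφm, hcon⟩
  obtain ⟨ν, hνf, hν0, hνK, hνA⟩ := exists_dual_measure hK A hAc hAne hAadd hAsmul hAno
  obtain ⟨Z, hZc, hZne, hZK', _, hZpos⟩ := exists_support hK ν hν0 hνK
  have hKc : K ⊆ closedBall (0 : Plane) 1 := hKb.trans ball_subset_closedBall
  have hZK : ∀ x ∈ Z, x ∈ closedBall (0 : Plane) 1 := fun x hx => hKc (hZK' hx)
  have key : ∀ x₀ ∈ frontier Z, Function.Injective (fderiv ℝ m x₀) →
      ∃ y ∈ Z, (x₀, y) ∈ Over m z K := by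
    intro x₀ hx₀ hinj0
    by_contra hcon
    push Not at hcon
    have hx₀Z : x₀ ∈ Z := by
      have := frontier_subset_closure hx₀
      rwa [hZc.isClosed.closure_eq] at this
    have hno' : ∀ y ∈ Z, m x₀ = m y → ¬ z y < z x₀ := by
      intro y hy h1 h2
      exact hcon y hy ⟨hZK' hx₀Z, hZK' hy, h1, h2⟩
    obtain ⟨r, hr, hinjr, η, hη, hη0, hηm, hηc, hηr, hηZ⟩ :=
      exists_lift_shadow hE hZc hinj0 hno'
    have hx₀c : x₀ ∈ closure Zᶜ := by
      have := hx₀
      rw [frontier_eq_closure_inter_closure] at this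
      exact this.2
    obtain ⟨a, haZ, hax⟩ := Metric.mem_closure_iff.1 hx₀c (r / 4) (by positivity)
    obtain ⟨s₀, hs₀, hball⟩ := Metric.isOpen_iff.1 hZc.isClosed.isOpen_compl a haZ
    have hsR : min s₀ (r / 4) < r / 2 := lt_of_le_of_lt (min_le_right _ _) (by linarith)
    have hs : 0 < min s₀ (r / 4) := by positivity
    obtain ⟨φ₀, hφ₀, hφ₀0, hφ₀R, ⟨M, hM⟩, hlap0, hlap1⟩ := exists_test a hs hsR
    have hM0 : 0 ≤ M := le_trans (hφ₀0 0) (hM 0)
    have hZs : ∀ w ∈ Z, min s₀ (r / 4) ≤ ‖w - a‖ := by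
      intro w hz
      by_contra hlt
      push Not at hlt
      have : w ∈ ball a s₀ := by
        rw [mem_ball, dist_eq_norm]
        exact lt_of_lt_of_le hlt (min_le_left _ _)
      exact hball this hz
    have hx₀a : ‖x₀ - a‖ < r / 2 := by
      rw [dist_eq_norm] at hax
      linarith
    have hfar : ∀ x, x ∉ ball x₀ r → r / 2 ≤ ‖x - a‖ := by
      intro x hxr
      rw [mem_ball, dist_eq_norm, not_lt] at hxr
      have h5 : ‖x - x₀‖ ≤ ‖x - a‖ + ‖x₀ - a‖ := by
        have h6 : x - x₀ = (x - a) - (x₀ - a) := by abel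
        rw [h6]
        exact norm_sub_le _ _
      linarith
    set φ : Plane → ℝ := (-1 : ℝ) • φ₀ + (-M) • η with hφdef
    have hφ : ContDiff ℝ ∞ φ := (contDiff_const.smul hφ₀).add (contDiff_const.smul hη)
    have hφval : ∀ x, φ x = - φ₀ x - M * η x := by
      intro x
      simp only [hφdef, Pi.add_apply, Pi.smul_apply, smul_eq_mul]
      ring
    have hlapφ : lap φ = (-1 : ℝ) • lap φ₀ + (-M) • lap η := by
      have e1 : ContDiff ℝ ∞ ((-1 : ℝ) • φ₀) := contDiff_const.smul hφ₀
      have e2 : ContDiff ℝ ∞ ((-M) • η) := contDiff_const.smul hη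
      rw [hφdef, lap_add e1 e2, lap_smul _ hφ₀, lap_smul _ hη]
    have hlapZ : ∀ w ∈ Z, lap φ w = - lap φ₀ w := by
      intro w hz
      rw [hlapφ]
      simp only [Pi.add_apply, Pi.smul_apply, smul_eq_mul, lap_eq_zero (hηZ w hz)]
      ring
    have hmem : lap φ ∈ A := by
      refine ⟨φ, hφ, ⟨?_, ?_⟩, rfl⟩
      · intro x hx y hy hxy hxy2
        rw [hφval, hφval]
        by_cases hxr : x ∈ ball x₀ r
        · obtain ⟨h1, h2⟩ := hηr x hx hxr y hy hxy hxy2
          rw [h1, h2]
          have := hM x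
          have := hφ₀0 y
          linarith
        · rw [hφ₀R x (hfar x hxr)]
          have h1 := hηm x y hxy hxy2
          have h2 := hφ₀0 y
          have h3 : M * η x ≤ M * η y := mul_le_mul_of_nonneg_left h1 hM0
          linarith
      · intro x hx u h1 h2
        by_cases hu : u = 0
        · rw [hu, map_zero]
        have hxr : x ∉ ball x₀ r := by
          intro hxr
          exact hu (hinjr x hxr (by rw [h1, map_zero]))
        have hmin : IsLocalMin φ₀ x :=
          Eventually.of_forall fun y => by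
            rw [hφ₀R x (hfar x hxr)]
            exact hφ₀0 y
        have hd0 : fderiv ℝ φ₀ x = 0 := hmin.fderiv_eq_zero
        have e : HasFDerivAt φ ((-1 : ℝ) • fderiv ℝ φ₀ x + (-M) • fderiv ℝ η x) x :=
          ((hasFDerivAt_self hφ₀ x).const_smul (-1 : ℝ)).add
            ((hasFDerivAt_self hη x).const_smul (-M))
        rw [e.fderiv, hd0]
        simp only [smul_zero, zero_add, smul_apply, smul_eq_mul]
        have := mul_nonneg hM0 (neg_nonneg.mpr (hηc x u h1 h2))
        linarith
    have h1 := hνA _ hmem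
    have h2 := hZpos (fun x => - lap φ x) (continuous_lap hφ).neg
      (fun w hz => by
        rw [hlapZ w hz, neg_neg]
        exact hlap0 w (hZs w hz))
      ⟨x₀, hx₀Z, by
        rw [hlapZ x₀ hx₀Z, neg_neg]
        exact hlap1 x₀ (hZs x₀ hx₀Z) hx₀a⟩
    rw [MeasureTheory.integral_neg] at h2
    linarith
  have key2 : ∀ x₀ ∈ Z, ¬ Function.Injective (fderiv ℝ m x₀) →
      x₀ ∈ closure (Z \ {x₀}) := by
    intro x₀ hx₀ hninj
    by_contra hcl
    -- the fibre of `x₀`
    have hfib : ∀ y ∈ closedBall (0 : Plane) 1, y ≠ x₀ → m x₀ ≠ m y := by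
      intro y hy hne h
      rcases over_total hE (Subset.refl (closedBall (0 : Plane) 1)) (hZK x₀ hx₀) hy hne.symm h
        with h1 | h1
      · exact hninj (hg.inj_fst (Subset.refl _) h1)
      · exact hninj (hg.inj_snd (Subset.refl _) h1)
    have hZ1 : IsCompact (Z \ {x₀}) := by
      have hcl2 : closure (Z \ {x₀}) = Z \ {x₀} := by
        apply Subset.antisymm _ subset_closure
        intro y hy
        refine ⟨?_, ?_⟩
        · have := closure_mono (sdiff_subset : Z \ {x₀} ⊆ Z) hy
          rwa [hZc.isClosed.closure_eq] at this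
        · rintro rfl
          exact hcl hy
      exact hZc.of_isClosed_subset (hcl2 ▸ isClosed_closure) sdiff_subset
    set S : Plane → ℝ := dsq m x₀ with hS
    have hSsm : ContDiff ℝ ∞ S := dsq_contDiff hE.smm x₀
    have hSc : Continuous S := hSsm.continuous
    obtain ⟨μ, hm, hmZ⟩ : ∃ μ : ℝ, 0 < μ ∧ ∀ w ∈ Z \ {x₀}, μ < S w := by
      by_cases hne : (Z \ {x₀}).Nonempty
      · obtain ⟨z1, hz1, hmin⟩ := hZ1.exists_isMinOn hne hSc.continuousOn
        have hpos : 0 < S z1 := by
          rcases (dsq_nonneg m x₀ z1).lt_or_eq with h | h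
          · exact h
          · exact absurd (dsq_eq_zero h.symm) (hfib z1 (hZK z1 hz1.1) hz1.2)
        refine ⟨S z1 / 2, by positivity, ?_⟩
        intro w hz
        have := isMinOn_iff.mp hmin w hz
        linarith
      · refine ⟨1, one_pos, ?_⟩
        intro w hz
        exact absurd ⟨w, hz⟩ hne
    set g : ℝ → ℝ := fun t => - (Real.smoothTransition (2 - 2 * t / μ) * t) with hgdef
    have hgsm : ContDiff ℝ ∞ g :=
      ((Real.smoothTransition.contDiff.comp
        (contDiff_const.sub ((contDiff_const.mul contDiff_id).div_const μ))).mul contDiff_id).neg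
    set φ : Plane → ℝ := fun x => g (S x) with hφdef
    have hφ : ContDiff ℝ ∞ φ := hgsm.comp hSsm
    have hmem : lap φ ∈ A := by
      refine ⟨φ, hφ, ⟨?_, ?_⟩, rfl⟩
      · intro x hx y hy hxy hxy2
        have : S x = S y := dsq_congr hxy
        simp only [hφdef, this]
        exact le_refl _
      · intro x hx u h1 h2
        have : fderiv ℝ φ x u = 0 := comp_kernel (g := g) (hgsm.differentiable (by simp))
          (hSsm.differentiable (by simp)) (dsq_kernel hE.smm x₀ h1)
        rw [this]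
    have hl0 : lap φ x₀ < 0 := by
      have hev : φ =ᶠ[𝓝 x₀] ((-1 : ℝ) • S) := by
        have hop : IsOpen {x | S x < μ / 2} := isOpen_lt hSc continuous_const
        have hx : x₀ ∈ {x | S x < μ / 2} := by
          change S x₀ < μ / 2
          rw [hS, dsq_self]
          positivity
        filter_upwards [hop.mem_nhds hx] with x hx
        simp only [hφdef, hgdef, Pi.smul_apply, smul_eq_mul]
        rw [Real.smoothTransition.one_of_one_le]
        · ring
        · have : 2 * S x / μ ≤ 1 := by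
            rw [div_le_one hm]
            have : S x < μ / 2 := hx
            linarith
          linarith
      rw [lap_congr hev, lap_smul _ hSsm]
      simp only [Pi.smul_apply, smul_eq_mul]
      have := cap_sum_pos hE.smm (cap_deriv_ne hg (hZK x₀ hx₀))
      rw [hS]
      linarith
    have hl1 : ∀ w ∈ Z, w ≠ x₀ → lap φ w = 0 := by
      intro w hz hne
      apply lap_eq_zero
      have hop : IsOpen {x | μ < S x} := isOpen_lt continuous_const hSc
      filter_upwards [hop.mem_nhds (hmZ w ⟨hz, hne⟩)] with x hx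
      simp only [hφdef, hgdef]
      rw [Real.smoothTransition.zero_of_nonpos (x := 2 - 2 * S x / μ)]
      · ring
      · have : 2 ≤ 2 * S x / μ := by
          rw [le_div_iff₀ hm]
          have : μ < S x := hx
          linarith
        linarith
    have h1 := hνA _ hmem
    have h2 := hZpos (fun x => - lap φ x) (continuous_lap hφ).neg
      (fun w hz => by
        by_cases hzx : w = x₀
        · rw [hzx]
          linarith
        · rw [hl1 w hz hzx]
          simp)
      ⟨x₀, hx₀, by linarith⟩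
    rw [MeasureTheory.integral_neg] at h2
    linarith
  exact hno ⟨Z, hZc, hZne, hZK', key, key2⟩

end Pool.Agent.Lib_MP_752436_ts
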