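import Pool.Agent.Lib_MP_752436_ts.Defs
import Pool.Agent.Lib_MP_752436_mv.Balls

/-!
Piece V9 (port of exists_ballRadius in mv/Balls.lean): small balls around the bottom points contain
no upper point and no singular point.
-/

open Metric Set Filter
open scoped ContDiff Topology

namespace Pool.Agent.Lib_MP_752436_ts

open Pool.Agent.Lib_MP_752436_gt Pool.Agent.Lib_MP_752436_tp Pool.Agent.Lib_MP_752436_rb
open Pool.Agent.Lib_MP_752436_mv (flipSet)

theorem exists_ballRadius {m : Plane → Space} {z : Plane → ℝ} (hE : Emb m z) (hg : Gen m)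
    (P : Finset Plane) (hP : ∀ p ∈ P, p ∈ bottoms m z (closedBall (0 : Plane) 1)) {U : Set Plane}
    (hU : IsOpen U) (hPU : ∀ p ∈ P, p ∈ U) :
    ∃ r > 0, (∀ p ∈ P, ∀ x ∈ closedBall p r, x ∈ U ∧ Function.Injective (fderiv ℝ m x) ∧
      ∀ y, (x, y) ∉ Over m z (closedBall (0 : Plane) 1)) ∧
      ∀ p ∈ P, ∀ q ∈ P, p ≠ q → 2 * r < dist p q := by
  have hmc : Continuous m := hE.smm.continuous
  have hzc : Continuous z := hE.smz.continuous
  set C : Set (Plane × Plane) := closure (Over m z (closedBall (0 : Plane) 1)) with hC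
  have hcl : C ⊆ {c : Plane × Plane | (c.1 ∈ closedBall (0 : Plane) 1 ∧
      c.2 ∈ closedBall (0 : Plane) 1) ∧ (m c.1 = m c.2 ∧ z c.2 ≤ z c.1)} := by
    refine closure_minimal (fun c hc => ⟨⟨hc.1, hc.2.1⟩, hc.2.2.1, hc.2.2.2.le⟩) ?_
    exact ((isClosed_closedBall.preimage continuous_fst).inter
      (isClosed_closedBall.preimage continuous_snd)).inter
      ((isClosed_eq (hmc.comp continuous_fst) (hmc.comp continuous_snd)).inter
      (isClosed_le (hzc.comp continuous_snd) (hzc.comp continuous_fst)))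
  have hCc : IsCompact C :=
    ((isCompact_closedBall (0 : Plane) 1).prod (isCompact_closedBall (0 : Plane) 1)).of_isClosed_subset
      isClosed_closure (fun c hc => ⟨(hcl hc).1.1, (hcl hc).1.2⟩)
  set W : Set Plane := U ∩ ({x | Function.Injective (fderiv ℝ m x)} ∩ (Prod.fst '' C)ᶜ) with hW
  have hinj : IsOpen {x | Function.Injective (fderiv ℝ m x)} :=
    (ContinuousLinearMap.isOpen_injective (𝕜 := ℝ) (E := Plane) (F := Space)).preimage
      (hE.smm.continuous_fderiv (by simp))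
  have hWo : IsOpen W :=
    hU.inter (hinj.inter (hCc.image continuous_fst).isClosed.isOpen_compl)
  have hPW : ∀ p ∈ P, p ∈ W := by
    intro p hp
    obtain ⟨a, b, hab, hbp⟩ := hP p hp
    have hip : Function.Injective (fderiv ℝ m p) := Gen.inj_snd hg subset_rfl hbp
    refine ⟨hPU p hp, hip, ?_⟩
    rintro ⟨c, hc, hcp⟩
    obtain ⟨⟨c1, c2⟩, c4, c5⟩ := hcl hc
    by_cases hcc : c.1 = c.2
    · obtain ⟨N, hN, hNinj⟩ := eventually_injOn_of_strict
        ((hE.smm.contDiffAt (x := p)).hasStrictFDerivAt (by simp)) hip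
      have hO : N ×ˢ N ∈ 𝓝 c := by
        rw [show c = (c.1, c.2) from rfl, ← hcc, hcp]
        exact prod_mem_nhds hN hN
      obtain ⟨e, heO, heD⟩ := mem_closure_iff_nhds.mp hc _ hO
      exact Over.ne heD (hNinj heO.1 heO.2 heD.2.2.1)
    · have hlt : z c.2 < z c.1 := lt_of_le_of_ne c5 fun h5 =>
        hcc (hE.inj c.1 c1 c.2 c2 c4 h5.symm)
      have hcr : (c.1, c.2) ∈ Over m z (closedBall (0 : Plane) 1) := ⟨c1, c2, c4, hlt⟩
      rw [hcp] at hcr
      exact Gen.noFour hg subset_rfl hab hbp hcr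
  obtain ⟨R, hR, hRW⟩ := exists_radius_of_finset P hWo hPW
  obtain ⟨δ, hδ, hsep⟩ := Pool.Agent.Lib_MP_752436_mv.exists_separation P
  refine ⟨min R (δ / 3), lt_min hR (by linarith), ?_, ?_⟩
  · intro p hp x hx
    have hxW := hRW p hp (closedBall_subset_closedBall (min_le_left _ _) hx)
    exact ⟨hxW.1, hxW.2.1, fun y hy => hxW.2.2 ⟨(x, y), subset_closure hy, rfl⟩⟩
  · intro p hp q hq hpq
    have h2 := hsep p hp q hq hpq
    have h3 := min_le_right R (δ / 3)
    linarith

end Pool.Agent.Lib_MP_752436_ts
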