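import Pool.Agent.Lib_MP_752436_ts.FlipComb
import Pool.Agent.Lib_MP_752436_tp.FlowBox

/-!
Piece V5 (port of mv/FlipDisc.lean): over and under can be interchanged on any set of closed curves
of free pairs, by adding a bump function near the lower points of these curves. The open set `O`
is now contained in `interior R` (the lower points are in `interior R` by `hint`), so a point `y` of
`O` and a point `x` of the closed disc above it are both in `R` (`hR.up`); `eq` holds with the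
topological support of the bump function (a compact subset of `O`; take the bump equal to `0`
outside a compact neighbourhood of the lower points inside `O`).
-/

open Metric Set Filter
open scoped ContDiff Topology Manifold

namespace Pool.Agent.Lib_MP_752436_ts

open Pool.Agent.Lib_MP_752436_gt Pool.Agent.Lib_MP_752436_tp Pool.Agent.Lib_MP_752436_rb
open Pool.Agent.Lib_MP_752436_mv (flipSet)

section Aux

variable {m : Plane → Space} {z : Plane → ℝ} {R : Set Plane}
  {v : Plane × Plane → Plane × Plane} {Φ : ℝ → Plane × Plane → Plane × Plane} {ι : Type}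
  {G : Curves ι} {φ : ι → Prop}

theorem flipLift_isCompact [Finite ι] (hG : IsCurves G (FreeSet m z R Φ)) :
    IsCompact (flipSet G φ) := by
  have he : flipSet G φ = ⋃ i : {i // φ i}, G.c i '' Icc 0 (G.len i) := by
    ext c
    constructor
    · rintro ⟨i, hi, t, ht, he⟩
      exact mem_iUnion.2 ⟨⟨i, hi⟩, t, ht, he⟩
    · intro hc
      obtain ⟨⟨i, hi⟩, t, ht, he⟩ := mem_iUnion.1 hc
      exact ⟨i, hi, t, ht, he⟩
  rw [he]
  exact isCompact_iUnion fun i => hG.isCompact_image i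

theorem flipLift_flow (hG : IsCurves G (FreeSet m z R Φ)) (hcl : ∀ i, G.closed i)
    (hΦ : ∀ i r t, Φ r (G.c i t) = G.c i (t + r)) {c : Plane × Plane}
    (hc : c ∈ flipSet G φ) (r : ℝ) : Φ r c ∈ flipSet G φ := by
  obtain ⟨i, hi, t, ht, rfl⟩ := hc
  obtain ⟨t', ht', he⟩ := hG.exists_Icc (t := t + r) (Or.inl (hcl i))
  exact ⟨i, hi, t', ht', by rw [he, hΦ]⟩

/-- The pairs of `flipSet` are free pairs. -/
theorem flipLift_free (hG : IsCurves G (FreeSet m z R Φ)) {c : Plane × Plane}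
    (hc : c ∈ flipSet G φ) : c ∈ FreeSet m z R Φ := by
  obtain ⟨i, _, t, ht, rfl⟩ := hc
  rw [hG.cover]
  exact mem_iUnion.2 ⟨i, t, ht, rfl⟩

/-- The pairs of points with the same image which are not to be flipped. -/
def flipLiftBad (m : Plane → Space) (z : Plane → ℝ) (Fl : Set (Plane × Plane)) :
    Set (Plane × Plane) :=
  {c | (c.1 ∈ closedBall (0 : Plane) 1 ∧ c.2 ∈ closedBall (0 : Plane) 1) ∧
    m c.1 = m c.2 ∧ z c.2 < z c.1 ∧ c ∉ Fl}

theorem flipLift_closure (hE : Emb m z) {Fl : Set (Plane × Plane)} {c : Plane × Plane}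
    (hc : c ∈ closure (flipLiftBad m z Fl)) :
    (c.1 ∈ closedBall (0 : Plane) 1 ∧ c.2 ∈ closedBall (0 : Plane) 1) ∧
      m c.1 = m c.2 ∧ z c.2 ≤ z c.1 := by
  have hm : Continuous m := hE.smm.continuous
  have hz : Continuous z := hE.smz.continuous
  have hcl : IsClosed {c : Plane × Plane | (c.1 ∈ closedBall (0 : Plane) 1 ∧
      c.2 ∈ closedBall (0 : Plane) 1) ∧ m c.1 = m c.2 ∧ z c.2 ≤ z c.1} :=
    ((isClosed_closedBall.preimage continuous_fst).inter
      (isClosed_closedBall.preimage continuous_snd)).inter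
      ((isClosed_eq (hm.comp continuous_fst) (hm.comp continuous_snd)).inter
        (isClosed_le (hz.comp continuous_snd) (hz.comp continuous_fst)))
  have hsub : flipLiftBad m z Fl ⊆ {c : Plane × Plane | (c.1 ∈ closedBall (0 : Plane) 1 ∧
      c.2 ∈ closedBall (0 : Plane) 1) ∧ m c.1 = m c.2 ∧ z c.2 ≤ z c.1} :=
    fun d hd => ⟨hd.1, hd.2.1, hd.2.2.1.le⟩
  exact closure_minimal hsub hcl hc

theorem flipLift_notMem (hE : Emb m z) (hg : Gen m) (hR : Region m z R) (h : CutFlow m v Φ)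
    (hG : IsCurves G (FreeSet m z R Φ)) (hcl : ∀ i, G.closed i)
    (hΦ : ∀ i r t, Φ r (G.c i t) = G.c i (t + r)) {c : Plane × Plane}
    (hc : c ∈ flipSet G φ) {x : Plane} :
    (x, c.2) ∉ closure (flipLiftBad m z (flipSet G φ)) := by
  intro hx
  obtain ⟨⟨hxD, -⟩, hm, hz⟩ := flipLift_closure hE hx
  simp only at hxD hm hz
  obtain ⟨hcr, hmv⟩ := mem_over_of_flipSet hG hc
  by_cases hxy : x = c.2
  · rw [hxy] at hx
    obtain ⟨N, hN, hNinj⟩ := Lib_MP_752436_tp.eventually_injOn_of_strict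
      ((hE.smm.contDiffAt (x := c.2)).hasStrictFDerivAt (by simp)) (hg.inj_snd hR.sub' hcr)
    obtain ⟨d, hd, hbad⟩ := mem_closure_iff_nhds.1 hx (N ×ˢ N) (prod_mem_nhds hN hN)
    have h1 := hNinj hd.1 hd.2 hbad.2.1
    have h2 := hbad.2.2.1
    rw [h1] at h2
    exact lt_irrefl _ h2
  · have hzl : z c.2 < z x := by
      rcases lt_or_eq_of_le hz with h1 | h1
      · exact h1
      · exact absurd (hE.inj x hxD c.2 (hR.sub' hcr.2.1) hm h1.symm) hxy
    have hxR : x ∈ R := hR.up c.2 hcr.2.1 x hxD hm hzl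
    have hxc : (x, c.2) ∈ Over m z R := ⟨hxR, hcr.2.1, hm, hzl⟩
    by_cases hxp : x = c.1
    · have hxc' : (x, c.2) = c := by rw [hxp]
      rw [hxc'] at hx
      obtain ⟨O, hO, hbox⟩ := flowBox hE.smm h (hR.sub' hcr.1) (hR.sub' hcr.2.1) hcr.2.2.1
        (hg.inj_fst hR.sub' hcr) (hg.inj_snd hR.sub' hcr) (hg.double' hR.sub' hcr) one_pos
      obtain ⟨d, hd, hbad⟩ := mem_closure_iff_nhds.1 hx O hO
      obtain ⟨t, -, ht⟩ := hbox d hd hbad.2.1
      exact hbad.2.2.2 (ht ▸ flipLift_flow hG hcl hΦ hc t)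
    · rcases over_total hE hR.sub' hxR hcr.1 hxp (hm.trans hcr.2.2.1.symm) with h1 | h1
      · exact hmv ⟨x, c.1, h1, hcr⟩
      · exact hmv ⟨c.1, x, h1, hxc⟩

theorem flipLift_exists_open (hE : Emb m z) (hg : Gen m) (hR : Region m z R)
    (h : CutFlow m v Φ) [Finite ι]
    (hG : IsCurves G (FreeSet m z R Φ)) (hcl : ∀ i, G.closed i)
    (hΦ : ∀ i r t, Φ r (G.c i t) = G.c i (t + r))
    (hint : ∀ c ∈ FreeSet m z R Φ, c.2 ∈ interior R) (φ : ι → Prop) :
    ∃ O : Set Plane, IsOpen O ∧ (∀ c ∈ flipSet G φ, c.2 ∈ O ∧ c.1 ∉ O) ∧ O ⊆ interior R ∧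
      (∀ x ∈ O, Function.Injective (fderiv ℝ m x)) ∧
      ∀ x ∈ closedBall (0 : Plane) 1, ∀ y ∈ closedBall (0 : Plane) 1, m x = m y →
        z y < z x → y ∈ O → (x, y) ∈ flipSet G φ := by
  set Fl := flipSet G φ with hFl
  have hFlc : IsCompact Fl := flipLift_isCompact hG
  have hB : IsCompact (closure (flipLiftBad m z Fl)) :=
    ((isCompact_closedBall (0 : Plane) 1).prod (isCompact_closedBall (0 : Plane) 1)).of_isClosed_subset
      isClosed_closure (fun c hc => ⟨(flipLift_closure hE hc).1.1, (flipLift_closure hE hc).1.2⟩)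
  have hinj : IsOpen {x | Function.Injective (fderiv ℝ m x)} :=
    (ContinuousLinearMap.isOpen_injective (𝕜 := ℝ) (E := Plane) (F := Space)).preimage
      (hE.smm.continuous_fderiv (by simp))
  refine ⟨(interior R ∩ {x | Function.Injective (fderiv ℝ m x)}) ∩
    ((Prod.fst '' Fl)ᶜ ∩ (Prod.snd '' closure (flipLiftBad m z Fl))ᶜ),
    (isOpen_interior.inter hinj).inter ((hFlc.image continuous_fst).isClosed.isOpen_compl.inter
      (hB.image continuous_snd).isClosed.isOpen_compl), ?_, fun x hx => hx.1.1,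
    fun x hx => hx.1.2, ?_⟩
  · intro c hc
    obtain ⟨hcr, hmv⟩ := mem_over_of_flipSet hG hc
    refine ⟨⟨⟨hint c (flipLift_free hG hc), hg.inj_snd hR.sub' hcr⟩, ?_, ?_⟩,
      fun hO => hO.2.1 ⟨c, hc, rfl⟩⟩
    · rintro ⟨d, hd, hdc⟩
      obtain ⟨hdr, hdm⟩ := mem_over_of_flipSet hG hd
      have h1 : (c.2, d.2) ∈ Over m z R := by rw [← hdc]; exact hdr
      exact hdm ⟨c.1, c.2, hcr, h1⟩
    · rintro ⟨d, hd, hdc⟩
      have h1 : (d.1, c.2) ∈ closure (flipLiftBad m z Fl) := by rw [← hdc]; exact hd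
      exact flipLift_notMem hE hg hR h hG hcl hΦ hc h1
  · intro x hx y hy hm hz hO
    by_contra hn
    exact hO.2.2 ⟨(x, y), subset_closure ⟨⟨hx, hy⟩, hm, hz, hn⟩, rfl⟩

end Aux

theorem exists_flip_lift {m : Plane → Space} {z : Plane → ℝ} (hE : Emb m z) (hg : Gen m)
    {R : Set Plane} (hR : Region m z R) {v : Plane × Plane → Plane × Plane}
    {Φ : ℝ → Plane × Plane → Plane × Plane} (h : CutFlow m v Φ) {ι : Type} [Finite ι]
    {G : Curves ι} (hG : IsCurves G (FreeSet m z R Φ)) (hcl : ∀ i, G.closed i)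
    (hΦ : ∀ i r t, Φ r (G.c i t) = G.c i (t + r))
    (hint : ∀ c ∈ FreeSet m z R Φ, c.2 ∈ interior R) (φ : ι → Prop) :
    ∃ z', IsFlip m z z' R G φ := by
  obtain ⟨O, hO, hFlO, hOb, hOi, hOp⟩ := flipLift_exists_open hE hg hR h hG hcl hΦ hint φ
  have hFlc : IsCompact (flipSet G φ) := flipLift_isCompact hG
  have hcr : ∀ {c}, c ∈ flipSet G φ → c ∈ Over m z R := fun hc => (mem_over_of_flipSet hG hc).1
  -- a compact neighbourhood of the lower points
  obtain ⟨K, hK, hK1, hK2⟩ : ∃ K : Set Plane, IsCompact K ∧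
      (Prod.snd '' flipSet G φ) ⊆ interior K ∧ K ⊆ O := by
    refine exists_compact_between (hFlc.image continuous_snd) hO ?_
    rintro _ ⟨c, hc, rfl⟩
    exact (hFlO c hc).1
  -- the bump function
  obtain ⟨b, hbs, hb0, hb1, hb01⟩ : ∃ b : Plane → ℝ, ContDiff ℝ ∞ b ∧ (∀ x, x ∉ K → b x = 0) ∧
      (∀ c ∈ flipSet G φ, b c.2 = 1) ∧ ∀ x, 0 ≤ b x := by
    have hd : Disjoint (interior K)ᶜ (Prod.snd '' flipSet G φ) := by
      rw [disjoint_compl_left_iff_subset]
      exact hK1
    obtain ⟨f, h0, h1, h01⟩ := exists_contMDiffMap_zero_one_of_isClosed 𝓘(ℝ, Plane) (n := ⊤)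
      isOpen_interior.isClosed_compl (hFlc.image continuous_snd).isClosed hd
    exact ⟨f, f.contMDiff.contDiff, fun x hx => h0 (fun hi => hx (interior_subset hi)),
      fun c hc => h1 ⟨c, hc, rfl⟩, fun x => (h01 x).1⟩
  have hbO : ∀ x, x ∉ O → b x = 0 := fun x hx => hb0 x fun hxK => hx (hK2 hxK)
  have hzs : ContDiff ℝ ∞ z := hE.smz
  -- the constant
  obtain ⟨A, hA, hA0⟩ : ∃ A : ℝ, (∀ x ∈ closedBall (0 : Plane) 1, ∀ y ∈ closedBall (0 : Plane) 1,
      z x - z y < A) ∧ 0 ≤ A := by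
    obtain ⟨C, hC⟩ := (isCompact_closedBall (0 : Plane) 1).exists_bound_of_continuousOn
      hzs.continuous.continuousOn
    have hC0 : 0 ≤ C := (norm_nonneg _).trans (hC 0 (mem_closedBall_self zero_le_one))
    refine ⟨2 * C + 1, fun x hx y hy => ?_, by linarith⟩
    have h1 := (abs_le.1 (hC x hx)).2
    have h2 := (abs_le.1 (hC y hy)).1
    linarith
  set z' : Plane → ℝ := fun x => z x + A * b x with hz'
  have hzd : ContDiff ℝ ∞ z' := hzs.add (contDiff_const.mul hbs)
  have hR' : R ⊆ closedBall (0 : Plane) 1 := hR.sub'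
  have keyFl : ∀ x y, (x, y) ∈ flipSet G φ → z' x < z' y := by
    intro x y hxy
    have h1 := hcr hxy
    have h2 := hbO x (hFlO _ hxy).2
    have h3 := hb1 _ hxy
    simp only at h3
    have h4 := hA x (hR' h1.1) y (hR' h1.2.1)
    simp only [hz', h2, h3]
    linarith
  have keyN : ∀ x ∈ closedBall (0 : Plane) 1, ∀ y ∈ closedBall (0 : Plane) 1,
      m x = m y → z y < z x → (x, y) ∉ flipSet G φ → z' y < z' x := by
    intro x hx y hy hm hlt hn
    have h1 := hbO y fun hyO => hn (hOp x hx y hy hm hlt hyO)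
    have h2 := mul_nonneg hA0 (hb01 x)
    simp only [hz', h1]
    linarith
  have hne : ∀ x ∈ closedBall (0 : Plane) 1, ∀ y ∈ closedBall (0 : Plane) 1,
      m x = m y → z' x = z' y → x = y := by
    intro x hx y hy hm hzz
    rcases lt_trichotomy (z x) (z y) with h4 | h4 | h4
    · by_cases hfl : (y, x) ∈ flipSet G φ
      · exact absurd hzz (keyFl _ _ hfl).ne'
      · exact absurd hzz (keyN y hy x hx hm.symm h4 hfl).ne
    · exact hE.inj x hx y hy hm h4
    · by_cases hfl : (x, y) ∈ flipSet G φ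
      · exact absurd hzz (keyFl _ _ hfl).ne
      · exact absurd hzz (keyN x hx y hy hm h4 hfl).ne'
  refine ⟨z', ⟨hE.smm, hzd, hne, ?_⟩, ?_, ?_, ⟨K, hK2.trans hOb, hK, ?_⟩⟩
  · intro x hx u h1 h2
    by_cases hxO : x ∈ O
    · exact hOi x hxO (h1.trans (map_zero _).symm)
    · have h3 : fderiv ℝ b x = 0 := by
        apply IsLocalMin.fderiv_eq_zero
        refine Filter.Eventually.of_forall fun y => ?_
        rw [hbO x hxO]
        exact hb01 y
      have h4 : fderiv ℝ z' x = fderiv ℝ z x := by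
        rw [hz', fderiv_fun_add ((hzs.differentiable (by simp)) x)
          (((hbs.differentiable (by simp)) x).const_mul A),
          fderiv_const_mul ((hbs.differentiable (by simp)) x), h3, smul_zero, add_zero]
      rw [h4] at h2
      exact hE.imm x hx u h1 h2
  · rintro ⟨x, y⟩
    constructor
    · rintro ⟨hx, hy, hm, hzz⟩
      simp only at hx hy hm hzz
      rcases lt_trichotomy (z x) (z y) with h4 | h4 | h4
      · refine Or.inr ?_
        by_contra hfl
        exact lt_asymm hzz (keyN y hy x hx hm.symm h4 hfl)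
      · have h5 := hE.inj x hx y hy hm h4
        rw [h5] at hzz
        exact absurd hzz (lt_irrefl _)
      · exact Or.inl ⟨⟨hx, hy, hm, h4⟩, fun hfl => lt_asymm hzz (keyFl _ _ hfl)⟩
    · rintro (⟨h1, hfl⟩ | hfl)
      · exact ⟨h1.1, h1.2.1, h1.2.2.1, keyN x h1.1 y h1.2.1 h1.2.2.1 h1.2.2.2 hfl⟩
      · have h1 := hcr hfl
        exact ⟨hR' h1.2.1, hR' h1.1, h1.2.2.1.symm, keyFl _ _ hfl⟩
  · intro x
    have h1 := mul_nonneg hA0 (hb01 x)
    simp only [hz']
    linarith
  · intro x hx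
    simp only [hz', hb0 x hx, mul_zero, add_zero]

end Pool.Agent.Lib_MP_752436_ts
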