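import Pool.Agent.Lib_MP_752436_ts.Defs
import Pool.Agent.Lib_MP_752436_tp.Flip

/-!
Piece V4 (port of mv/FlipComb.lean and of moves_subset_flip in mv/Assembly.lean): combinatorics of
the chains of points after the interchange of over and under on closed curves of free pairs. Note
that `IsFlip` describes the pairs of the closed disc; a pair of `Over m z' R` is a pair of
`Over m z' (closedBall 0 1)` with both points in `R`, and the pairs of `flipSet G φ` are in
`Over m z R`.
-/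

open Metric Set Filter
open scoped ContDiff Topology

namespace Pool.Agent.Lib_MP_752436_ts

open Pool.Agent.Lib_MP_752436_gt Pool.Agent.Lib_MP_752436_tp Pool.Agent.Lib_MP_752436_rb
open Pool.Agent.Lib_MP_752436_mv (flipSet)

variable {m : Plane → Space} {z z' : Plane → ℝ} {R : Set Plane}
  {Φ : ℝ → Plane × Plane → Plane × Plane} {ι : Type} {G : Curves ι} {φ : ι → Prop}

theorem mem_over_of_free {c : Plane × Plane} (hc : c ∈ FreeSet m z R Φ) :
    c ∈ Over m z R ∧ c.2 ∉ bottoms m z R := by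
  obtain ⟨⟨T, _, hT⟩, h⟩ := hc
  have := h T
  rwa [hT] at this

theorem flipComb_curve_ts (hG : IsCurves G (FreeSet m z R Φ)) {i : ι} {t : ℝ}
    (ht : t ∈ Icc 0 (G.len i)) : G.c i t ∈ FreeSet m z R Φ := by
  rw [hG.cover]
  exact mem_iUnion.2 ⟨i, t, ht, rfl⟩

theorem mem_over_of_flipSet (hG : IsCurves G (FreeSet m z R Φ)) {c : Plane × Plane}
    (hc : c ∈ flipSet G φ) : c ∈ Over m z R ∧ c.2 ∉ bottoms m z R := by
  obtain ⟨i, _, t, ht, rfl⟩ := hc
  exact mem_over_of_free (flipComb_curve_ts hG ht)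

/-- The pairs in `R` after the flip. -/
theorem flip_cross_region (hR : Region m z R) (hG : IsCurves G (FreeSet m z R Φ))
    (h : IsFlip m z z' R G φ) (p : Plane × Plane) :
    p ∈ Over m z' R ↔ (p ∈ Over m z R ∧ p ∉ flipSet G φ) ∨ p.swap ∈ flipSet G φ := by
  constructor
  · intro hp
    rcases (h.cross p).1 (Over.mono hR.sub' hp) with ⟨h1, h2⟩ | h1
    · exact Or.inl ⟨⟨hp.1, hp.2.1, h1.2.2⟩, h2⟩
    · exact Or.inr h1
  · rintro (⟨h1, h2⟩ | h1)
    · have h3 := (h.cross p).2 (Or.inl ⟨Over.mono hR.sub' h1, h2⟩)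
      exact ⟨h1.1, h1.2.1, h3.2.2⟩
    · have h3 := (h.cross p).2 (Or.inr h1)
      have h4 := (mem_over_of_flipSet hG h1).1
      exact ⟨h4.2.1, h4.1, h3.2.2⟩

/-- The two points of a pair of the flipped disc are a pair of the disc in one of the two
orders. -/
theorem flipComb_cases_ts (hR : Region m z R) (hG : IsCurves G (FreeSet m z R Φ))
    (h : IsFlip m z z' R G φ) {p q : Plane} (hpq : (p, q) ∈ Over m z' R) :
    ((p, q) ∈ Over m z R ∧ (p, q) ∉ flipSet G φ) ∨
      ((q, p) ∈ flipSet G φ ∧ (q, p) ∈ Over m z R ∧ p ∉ bottoms m z R) := by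
  rcases (flip_cross_region hR hG h (p, q)).1 hpq with h1 | h1
  · exact Or.inl h1
  · exact Or.inr ⟨h1, mem_over_of_flipSet hG h1⟩

theorem bottoms_flip_subset (hE : Emb m z) (hR : Region m z R)
    (hG : IsCurves G (FreeSet m z R Φ)) (h : IsFlip m z z' R G φ) :
    bottoms m z' R ⊆ bottoms m z R := by
  rintro r ⟨p, q, hpq, hqr⟩
  rcases flipComb_cases_ts hR hG h hpq with ⟨h1, h1'⟩ | ⟨h1, h1', h1''⟩
  · rcases flipComb_cases_ts hR hG h hqr with ⟨h2, h2'⟩ | ⟨h2, h2', h2''⟩
    · exact ⟨p, q, h1, h2⟩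
    · exfalso
      have hne : p ≠ r := by
        rintro rfl
        exact h1' h2
      have hm : m p = m r := h1.2.2.1.trans h2'.2.2.1.symm
      rcases over_total hE hR.sub' h1.1 h2'.1 hne hm with h3 | h3
      · exact h2'' ⟨p, r, h3, h2'⟩
      · exact h2'' ⟨r, p, h3, h1⟩
  · rcases flipComb_cases_ts hR hG h hqr with ⟨h2, h2'⟩ | ⟨h2, h2', h2''⟩
    · have hne : p ≠ r := by
        rintro rfl
        exact h2' h1
      have hm : m p = m r := h1'.2.2.1.symm.trans h2.2.2.1
      rcases over_total hE hR.sub' h1'.2.1 h2.2.1 hne hm with h3 | h3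
      · exact ⟨q, p, h1', h3⟩
      · exact absurd ⟨q, r, h2, h3⟩ h1''
    · exact absurd ⟨r, q, h2', h1'⟩ h1''

theorem bottoms_subset_flip (hR : Region m z R)
    (hG : IsCurves G (FreeSet m z R Φ)) (h : IsFlip m z z' R G φ) :
    bottoms m z R ⊆ bottoms m z' R := by
  rintro r ⟨a, b, hab, hbr⟩
  have har := Over.trans hab hbr
  have hr : r ∈ bottoms m z R := ⟨a, b, hab, hbr⟩
  have h1 : (a, r) ∈ Over m z' R := (flip_cross_region hR hG h _).2 (Or.inl ⟨har, fun hf =>
    (mem_over_of_flipSet hG hf).2 hr⟩)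
  have h2 : (b, r) ∈ Over m z' R := (flip_cross_region hR hG h _).2 (Or.inl ⟨hbr, fun hf =>
    (mem_over_of_flipSet hG hf).2 hr⟩)
  rcases over_total h.emb hR.sub' h1.1 h2.1 (Over.ne hab)
    (h1.2.2.1.trans h2.2.2.1.symm) with h3 | h3
  · exact ⟨a, b, h3, h2⟩
  · exact ⟨b, a, h3, h1⟩

theorem bottoms_flip (hE : Emb m z) (_hg : Gen m) (hR : Region m z R)
    (hG : IsCurves G (FreeSet m z R Φ)) (h : IsFlip m z z' R G φ) :
    bottoms m z' R = bottoms m z R :=
  Subset.antisymm (bottoms_flip_subset hE hR hG h) (bottoms_subset_flip hR hG h)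

/-- The lower points of the flipped curves are not bottom points of triple points. -/
theorem flip_notMem_bottoms (_hE : Emb m z) (hg : Gen m) (hR : Region m z R)
    (hG : IsCurves G (FreeSet m z R Φ)) (h : IsFlip m z z' R G φ) {p q : Plane}
    (hpq : (p, q) ∈ (G.flip φ).support) : (p, q) ∈ Over m z' R ∧ q ∉ bottoms m z R := by
  rcases mem_support_flip.1 hpq with ⟨i, hi, t, ht, he⟩ | ⟨i, hi, t, ht, he⟩
  · have hfree : (p, q) ∈ FreeSet m z R Φ := he ▸ flipComb_curve_ts hG ht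
    obtain ⟨h1, h2⟩ := mem_over_of_free hfree
    refine ⟨(flip_cross_region hR hG h _).2 (Or.inl ⟨h1, ?_⟩), h2⟩
    rintro ⟨j, hj, t', ht', he'⟩
    have hij : i ≠ j := by
      rintro rfl
      exact hi hj
    exact Set.disjoint_left.1 (hG.disj i j hij) ⟨t, ht, he⟩ ⟨t', ht', he'⟩
  · have hfl : (q, p) ∈ flipSet G φ := ⟨i, hi, t, ht, he⟩
    obtain ⟨h1, h2⟩ := mem_over_of_flipSet hG hfl
    refine ⟨(flip_cross_region hR hG h _).2 (Or.inr hfl), ?_⟩
    rintro ⟨a, b, hab, hbq⟩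
    exact hg.noFour hR.sub' hab hbq h1

theorem good_flip_ts (hE : Emb m z) (hg : Gen m) (hR : Region m z R)
    (hG : IsCurves G (FreeSet m z R Φ)) (hcl : ∀ i, G.closed i)
    (h : IsFlip m z z' R G φ) : Good (G.flip φ) (G.flip φ).support := by
  have key := fun {p q : Plane} (hpq : (p, q) ∈ (G.flip φ).support) =>
    flip_notMem_bottoms hE hg hR hG h hpq
  have hmv := bottoms_flip_subset hE hR hG h
  constructor
  · refine isCurves_flip hG (fun x y hxy hyx => ?_) (fun i _ => hcl i)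
    exact Over.asymm (mem_over_of_free hxy).1 (mem_over_of_free hyx).1
  · intro x hx
    exact Over.ne (key hx).1 rfl
  · intro x y w hxy hyw
    exact absurd (hmv ⟨x, y, (key hxy).1, (key hyw).1⟩) (key hyw).2
  · intro x y w v hxy hyw _
    exact (key hyw).2 (hmv ⟨x, y, (key hxy).1, (key hyw).1⟩)
  · intro x y w hxy hxw hne
    exfalso
    obtain ⟨h1, h1'⟩ := key hxy
    obtain ⟨h2, h2'⟩ := key hxw
    have hm : m y = m w := h1.2.2.1.symm.trans h2.2.2.1
    rcases over_total h.emb hR.sub' h1.2.1 h2.2.1 hne hm with h3 | h3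
    · exact h2' (hmv ⟨x, y, h1, h3⟩)
    · exact h1' (hmv ⟨x, w, h2, h3⟩)

end Pool.Agent.Lib_MP_752436_ts
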