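import Pool.Agent.Lib_MP_752436_ts.Reg
import Pool.Agent.Lib_MP_752436_ts.FlipComb
import Pool.Agent.Lib_MP_752436_tp.NoTrap
import Pool.Agent.Lib_MP_752436_tp.Flip

/-!
Piece V7 (port of mv/NoTrap.lean): after the flip there is no trap in `R` without bottom points of
triple points. A trap for `z'` in `R`; `Over m z' R` is `Over m z' (closedBall 0 1)` restricted
to `R`, so `IsFlip.cross` applies.
-/

open Metric Set Filter
open scoped ContDiff Topology

namespace Pool.Agent.Lib_MP_752436_ts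

open Pool.Agent.Lib_MP_752436_gt Pool.Agent.Lib_MP_752436_tp Pool.Agent.Lib_MP_752436_rb
open Pool.Agent.Lib_MP_752436_mv (flipSet)

/-- A closed orbit of pairs for `z'` in `R` without bottom points lies on the flipped curves. -/
theorem mem_support_of_periodic_ts {m : Plane → Space} {z z' : Plane → ℝ} (hE : Emb m z)
    {R : Set Plane} (hR : R ⊆ closedBall (0 : Plane) 1)
    {Φ : ℝ → Plane × Plane → Plane × Plane} (hΦ0 : ∀ x, Φ 0 x = x)
    (hcont : ∀ c, Continuous fun t => Φ t c) {ι : Type}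
    {G : Curves ι} (hG : IsCurves G (FreeSet m z R Φ)) {φ : ι → Prop}
    (hflip : IsFlip m z z' R G φ)
    {c : Plane × Plane} (hper : ∃ T > 0, Φ T c = c)
    (hc : ∀ t, Φ t c ∈ Over m z' R ∧ (Φ t c).2 ∉ bottoms m z R) : c ∈ (G.flip φ).support := by
  rw [mem_support_flip]
  have hc0 := (hflip.cross c).1 (Over.mono hR (hΦ0 c ▸ (hc 0).1))
  rcases hc0 with ⟨hcF, hnf⟩ | hsw
  · left
    have hzc : Continuous z := hE.smz.continuous
    have hsame : ∀ t, m (Φ t c).1 = m (Φ t c).2 := fun t => (hc t).1.2.2.1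
    have hne : ∀ t, z (Φ t c).1 - z (Φ t c).2 ≠ 0 := by
      intro t h0
      exact Over.ne (hc t).1 (hE.inj _ (hR (hc t).1.1) _ (hR (hc t).1.2.1) (hsame t)
        (sub_eq_zero.1 h0))
    have hpos : ∀ t, 0 < z (Φ t c).1 - z (Φ t c).2 := by
      intro t
      have hd : Continuous fun t => z (Φ t c).1 - z (Φ t c).2 :=
        (hzc.comp (continuous_fst.comp (hcont c))).sub
          (hzc.comp (continuous_snd.comp (hcont c)))
      have h0 : (0 : ℝ) < z (Φ 0 c).1 - z (Φ 0 c).2 := by
        rw [hΦ0]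
        linarith [hcF.2.2.2]
      by_contra hcon
      push Not at hcon
      have hpre : IsPreconnected (univ : Set ℝ) := isPreconnected_univ
      obtain ⟨r, -, hr⟩ := hpre.intermediate_value (mem_univ t) (mem_univ 0) hd.continuousOn
        ⟨hcon, h0.le⟩
      exact hne r hr
    have hfree : c ∈ FreeSet m z R Φ := by
      refine ⟨hper, fun r => ⟨⟨(hc r).1.1, (hc r).1.2.1, hsame r, ?_⟩, (hc r).2⟩⟩
      have := hpos r
      linarith
    obtain ⟨i, t, ht, hit⟩ := hG.exists_param hfree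
    exact ⟨i, fun hi => hnf ⟨i, hi, t, ht, hit⟩, t, ht, hit⟩
  · right
    obtain ⟨i, hi, t, ht, hit⟩ := hsw
    exact ⟨i, hi, t, ht, hit⟩

theorem no_ltrap {m : Plane → Space} {z z' : Plane → ℝ} (hE : Emb m z) (hg : Gen m)
    {R : Set Plane} (hR : Region m z R) {v : Plane × Plane → Plane × Plane}
    {Φ : ℝ → Plane × Plane → Plane × Plane} (h : CutFlow m v Φ) {ι : Type} [Finite ι]
    {G : Curves ι} (hG : IsCurves G (FreeSet m z R Φ)) (hcl : ∀ i, G.closed i)
    {φ : ι → Prop} (hflip : IsFlip m z z' R G φ) (ρu ρl : ι → ℕ) (h1 : ∀ i, ρu i ≤ ρl i)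
    (h2 : ∀ i j, (G.flip φ).low i ⊆ hull ((G.flip φ).up j) →
      Disjoint ((G.flip φ).low i) ((G.flip φ).up j) → ρl i < ρu j)
    {Z : Set Plane} (hZ : IsLTrap m z' R Z) (hZm : Disjoint Z (bottoms m z R)) : False := by
  have hRs : R ⊆ closedBall (0 : Plane) 1 := hR.sub'
  have hE' : Emb m z' := hflip.emb
  have hbot : bottoms m z' R = bottoms m z R := bottoms_flip hE hg hR hG hflip
  have hgood : Good (G.flip φ) (G.flip φ).support := good_flip_ts hE hg hR hG hcl hflip
  have hm' : Disjoint Z (bottoms m z' R) := by rw [hbot]; exact hZm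
  have hT : RegTrap m z' R (closure (interior Z)) := hZ.regTrap hE' hg hRs hm'
  have hsub : closure (interior Z) ⊆ Z :=
    closure_minimal interior_subset hZ.compact.isClosed
  have hcont : ∀ c, Continuous fun t => Φ t c := fun c =>
    continuous_iff_continuousAt.mpr fun t => (h.flow.deriv c t).continuousAt
  have htrap : IsTrapOf (fun x y => (x, y) ∈ (G.flip φ).support) (closure (interior Z)) := by
    refine ⟨hT.compact, hT.nonempty, fun x hx => hR.sub (hT.sub hx), ?_⟩
    intro x hx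
    obtain ⟨y, hy, hxy⟩ := hT.above x hx
    refine ⟨y, interior_subset hy, ?_⟩
    obtain ⟨hper, hst⟩ := hT.periodic hE' hg hR.sub hR.compact h (c := (x, y))
      ⟨hxy, hx, interior_subset hy⟩
    refine mem_support_of_periodic_ts hE hRs h.flow.zero hcont hG hflip hper
      fun t => ⟨(hst t).1, ?_⟩
    intro hmem
    exact Set.disjoint_left.1 hZm (hsub (hst t).2.2) hmem
  obtain ⟨x, y, w, hxy, hyw, -⟩ := exists_bottom_mem hgood ρu ρl (fun i _ => h1 i)
    (fun i j _ _ => h2 i j) htrap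
  obtain ⟨c1, -⟩ := flip_notMem_bottoms hE hg hR hG hflip hxy
  obtain ⟨c2, c3⟩ := flip_notMem_bottoms hE hg hR hG hflip hyw
  exact c3 (hbot ▸ ⟨x, y, c1, c2⟩)

end Pool.Agent.Lib_MP_752436_ts
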