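import Pool.Agent.Lib_MP_752436_ts.Level
import Pool.Agent.Lib_MP_752436_ts.NoTrap
import Pool.Agent.Lib_MP_752436_ts.FlipDisc
import Pool.Agent.Lib_MP_752436_ts.Dual
import Pool.Agent.Lib_MP_752436_ts.Balls
import Pool.Agent.Lib_MP_752436_mv.Balls
import Pool.Agent.Lib_MP_752436_mv.Chi
import Pool.Agent.Lib_MP_752436_mv.Hybrid
import Pool.Agent.Lib_MP_752436_mv.Lower
import Pool.Agent.Lib_MP_752436_nb.Direction
import Pool.Agent.Lib_MP_752436_tp.Rank

/-!
Triple points of the vertical projection against births: the assembly.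
-/

open Metric Set Filter
open scoped ContDiff Topology

namespace Pool.Agent.Lib_MP_752436_ts

open Pool.Agent.Lib_MP_752436_gt Pool.Agent.Lib_MP_752436_tp Pool.Agent.Lib_MP_752436_rb
  Pool.Agent.Lib_MP_752436_nb
open Pool.Agent.Lib_MP_752436_mv (flipSet exists_strip exists_chi hybrid_lap_neg hybrid_below
  exists_lowering_local)

/-- A level which is regular and contains no lower points of free pairs. -/
structure GoodLevel (F : Plane → EuclideanSpace ℝ (Fin 4)) (s : ℝ) : Prop where
  pos : 0 < s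
  reg : ∀ x ∈ closedBall (0 : Plane) 1, F x 3 = s → fderiv ℝ (fun y => F y 3) x ≠ 0
  bot : ∀ r ∈ bottoms (shadow F) (fun x => F x 3) (region F s), s < F r 3

/-- The flipped height has no traps outside the bottom points. -/
theorem exists_flip_noTrap {F : Plane → EuclideanSpace ℝ (Fin 4)} (hF : IsSliceDisc F)
    (hg : Gen (shadow F)) {s : ℝ} (hs : 0 < s) {v : Plane × Plane → Plane × Plane}
    {Φ : ℝ → Plane × Plane → Plane × Plane} (hΦ : CutFlow (shadow F) v Φ)
    (hfree : ∀ c ∈ FreeSet (shadow F) (fun x => F x 3) (region F s) Φ, s < F c.2 3) :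
    ∃ z', Emb (shadow F) z' ∧ (∀ x, F x 3 ≤ z' x) ∧
      (∃ C ⊆ interior (region F s), IsCompact C ∧ ∀ x ∉ C, z' x = F x 3) ∧
      bottoms (shadow F) z' (region F s) = bottoms (shadow F) (fun x => F x 3) (region F s) ∧
      ∀ Z, IsLTrap (shadow F) z' (region F s) Z →
        ¬ Disjoint Z (bottoms (shadow F) (fun x => F x 3) (region F s)) := by
  have hE := emb_shadow hF
  have hR := region_height hF hs
  obtain ⟨ι, hι, G, hG, hcl, hΦG⟩ := exists_freeCurves hE hg hR hΦ
  obtain ⟨φ, -, ρu, ρl, h1, h2⟩ := exists_flip hG (fun _ => True)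
  have hint : ∀ c ∈ FreeSet (shadow F) (fun x => F x 3)
      {x | x ∈ closedBall (0 : Plane) 1 ∧ s ≤ F x 3} Φ,
      c.2 ∈ interior {x | x ∈ closedBall (0 : Plane) 1 ∧ s ≤ F x 3} := by
    intro c hc
    have h3 := hfree c hc
    have h4 : c.2 ∈ ball (0 : Plane) 1 := hR.sub (mem_over_of_free hc).1.2.1
    have h5 : IsOpen (ball (0 : Plane) 1 ∩ {x | s < F x 3}) :=
      isOpen_ball.inter (isOpen_lt continuous_const hE.smz.continuous)
    exact mem_interior.2 ⟨ball (0 : Plane) 1 ∩ {x | s < F x 3},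
      fun x hx => ⟨ball_subset_closedBall hx.1, le_of_lt hx.2⟩, h5, h4, h3⟩
  obtain ⟨z', hz'⟩ := exists_flip_lift hE hg hR hΦ hG hcl hΦG hint φ
  refine ⟨z', hz'.emb, hz'.le, hz'.eq, bottoms_flip hE hg hR hG hz', ?_⟩
  intro Z hZ hZm
  exact no_ltrap hE hg hR hΦ hG hcl hz' ρu ρl (fun i => h1 i trivial)
    (fun i j => h2 i j trivial trivial) hZ hZm

theorem neg_direction_of_lap_ts {h : Plane → ℝ} {x : Plane} (hl : lap h x < 0) :
    ∃ u, fderiv ℝ (fderiv ℝ h) x u u < 0 := by
  unfold lap at hl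
  by_contra hcon
  push Not at hcon
  have e0 := hcon (EuclideanSpace.single 0 1)
  have e1 := hcon (EuclideanSpace.single 1 1)
  linarith

theorem fderiv_three_nonneg (p : EuclideanSpace ℝ (Fin 4)) :
    0 ≤ fderiv ℝ (fun q : EuclideanSpace ℝ (Fin 4) => q 3) p (EuclideanSpace.single 3 1) := by
  have h : HasFDerivAt (fun q : EuclideanSpace ℝ (Fin 4) => q 3)
      (EuclideanSpace.proj (3 : Fin 4) : EuclideanSpace ℝ (Fin 4) →L[ℝ] ℝ) p :=
    (EuclideanSpace.proj (3 : Fin 4) : EuclideanSpace ℝ (Fin 4) →L[ℝ] ℝ).hasFDerivAt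
  rw [h.fderiv]
  simp

/-- The core: a good level, the critical points below the level are given. -/
theorem births_of_goodLevel {F : Plane → EuclideanSpace ℝ (Fin 4)} (hF : IsSliceDisc F)
    (hg : Gen (shadow F)) {s : ℝ} (hs : GoodLevel F s) {v : Plane × Plane → Plane × Plane}
    {Φ : ℝ → Plane × Plane → Plane × Plane} (hΦ : CutFlow (shadow F) v Φ)
    (hfree : ∀ c ∈ FreeSet (shadow F) (fun x => F x 3) (region F s) Φ, s < F c.2 3)
    (hfin : (bottoms (shadow F) (fun x => F x 3) (region F s)).Finite) (Q : Finset Plane)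
    (hQ : ∀ p ∈ Q, p ∈ ball (0 : Plane) 1 ∧ F p 3 ≤ s ∧
      ∀ u, u ≠ 0 → 0 < fderiv ℝ (fderiv ℝ (fun y => F y 3)) p u u)
    (hcrit : ∀ x ∈ closedBall (0 : Plane) 1, F x 3 ≤ s → fderiv ℝ (fun y => F y 3) x = 0 →
      (∃ u, fderiv ℝ (fderiv ℝ (fun y => F y 3)) x u u < 0) ∨ x ∈ Q) :
    ∃ G, MorseDisc G ∧ boundaryKnot G = boundaryKnot F ∧
      (births G).encard ≤ (Q.card : ℕ∞) +
        (bottoms (shadow F) (fun x => F x 3) (region F s)).encard := by
  classical
  have hs0 := hs.pos
  have hE := emb_shadow hF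
  obtain ⟨z, hEz, hle, ⟨C, hCi, hCc, hCeq⟩, hbot, hno⟩ := exists_flip_noTrap hF hg hs0 hΦ hfree
  set m : Plane → Space := shadow F with hm
  set t : Plane → ℝ := fun y => F y 3 with ht
  have hts : ContDiff ℝ ∞ t := hE.smz
  have hzs : ContDiff ℝ ∞ z := hEz.smz
  set R : Set Plane := region F s with hRdef
  have hR : Region m t R := region_height hF hs0
  -- on the compact set `C` the height is larger than `s`
  have hCs : ∀ x ∈ C, s < t x := by
    intro x hx
    have h1 := hCi hx
    have h2 : x ∈ R := interior_subset h1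
    rcases (show s ≤ t x from h2.2).lt_or_eq with h3 | h3
    · exact h3
    · exfalso
      have h4 : IsLocalMin t x := by
        filter_upwards [isOpen_interior.mem_nhds h1] with y hy
        have h5 : y ∈ R := interior_subset hy
        rw [← h3]
        exact h5.2
      exact hs.reg x h2.1 h3.symm h4.fderiv_eq_zero
  have hnearC : ∀ x ∉ C, z =ᶠ[𝓝 x] t := by
    intro x hx
    filter_upwards [hCc.isClosed.isOpen_compl.mem_nhds hx] with y hy
    exact hCeq y hy
  have hlow : ∀ x, t x ≤ s → x ∉ C := fun x hx hC => (hCs x hC).not_ge hx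
  have hzC : ∀ x, z x ≤ s → x ∉ C := fun x hx hC => by
    have := hCs x hC
    have := hle x
    have h3 : t x ≤ z x := hle x
    linarith
  have hzt : ∀ x, z x ≤ s ↔ t x ≤ s := by
    intro x
    constructor
    · intro h
      have h3 : t x ≤ z x := hle x
      linarith
    · intro h
      rw [hCeq x (hlow x h)]
      exact h
  have hzR : ∀ x ∈ closedBall (0 : Plane) 1, s ≤ z x → x ∈ R := by
    intro x hx h
    by_cases hC : x ∈ C
    · exact interior_subset (hCi hC)
    · rw [hCeq x hC] at h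
      exact ⟨hx, h⟩
  have hregz : ∀ x ∈ closedBall (0 : Plane) 1, z x = s → fderiv ℝ z x ≠ 0 := by
    intro x hx h
    have h1 := hzC x h.le
    rw [(hnearC x h1).fderiv_eq]
    refine hs.reg x hx ?_
    rw [← hCeq x h1]
    exact h
  set P : Finset Plane := hfin.toFinset with hP
  have hPm : ∀ p ∈ P, p ∈ bottoms m t R := fun p hp => hfin.mem_toFinset.1 hp
  have hPz : ∀ p ∈ P, s < z p := fun p hp => (hs.bot p (hPm p hp)).trans_le (hle p)
  have hPb : ∀ p ∈ P, p ∈ ball (0 : Plane) 1 := fun p hp => by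
    obtain ⟨a, b, -, hb⟩ := hPm p hp
    exact hR.sub hb.2.1
  -- the strip
  obtain ⟨d1, hd1, c₁, hc₁, hstrip⟩ := exists_strip hzs hregz
  obtain ⟨d₀, hd₀, hd₀1, hd₀P⟩ : ∃ d₀ > 0, d₀ ≤ d1 ∧ ∀ p ∈ P, s + d₀ < z p := by
    rcases P.eq_empty_or_nonempty with he | hne
    · exact ⟨d1, hd1, le_rfl, fun p hp => by rw [he] at hp; exact absurd hp (Finset.notMem_empty _)⟩
    · obtain ⟨e, he, hmin⟩ := P.exists_min_image (fun p => z p) hne
      have h1 := hPz e he
      refine ⟨min d1 ((z e - s) / 2), lt_min hd1 (by linarith), min_le_left _ _, ?_⟩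
      intro p hp
      have h2 := hmin p hp
      have h4 := min_le_right d1 ((z e - s) / 2)
      linarith
  -- the balls
  have hUo : IsOpen (ball (0 : Plane) 1 ∩ {x | s + d₀ < z x}) :=
    isOpen_ball.inter (isOpen_lt continuous_const hzs.continuous)
  obtain ⟨r, hr, hball, hsep⟩ := exists_ballRadius hEz hg P
    (fun p hp => bottoms_mono (region_sub s) (by rw [hbot]; exact hPm p hp)) hUo
    (fun p hp => ⟨hPb p hp, hd₀P p hp⟩)
  set ε : ℝ := r / 2 with hε
  have hε0 : 0 < ε := by positivity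
  have hεR : ε < r := by rw [hε]; linarith
  -- the compact set
  set K : Set Plane := {x | x ∈ R ∧ ∀ p ∈ P, ε ≤ dist x p} with hK
  have hKc : IsCompact K := by
    have h5 : K = R ∩ ⋂ p ∈ P, {x | ε ≤ dist x p} := by
      ext x
      simp only [hK, mem_inter_iff, Set.mem_ofPred_eq, mem_iInter]
    rw [h5]
    exact hR.compact.inter_right (isClosed_biInter fun p _ => isClosed_le continuous_const
      (continuous_id.dist continuous_const))
  obtain ⟨φ, hφ, hφr, hφl⟩ := exists_superharmonic_lift hEz hg hKc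
    (fun x hx => hR.sub hx.1) (by
      rintro ⟨Z, hZ⟩
      refine hno Z (hZ.mono fun x hx => hx.1) (Set.disjoint_left.2 fun x hx hxm => ?_)
      have h5 := (hZ.sub hx).2 x (hfin.mem_toFinset.2 hxm)
      rw [dist_self] at h5
      linarith)
  -- the constants
  obtain ⟨μ, hμ, hμK⟩ : ∃ μ > 0, ∀ x ∈ K, lap φ x ≤ -μ := by
    rcases K.eq_empty_or_nonempty with he | hne
    · exact ⟨1, one_pos, fun x hx => by rw [he] at hx; exact absurd hx (notMem_empty x)⟩
    · obtain ⟨a, ha, hmax⟩ := hKc.exists_isMaxOn hne (continuous_lap hφ).continuousOn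
      exact ⟨-lap φ a, by linarith [hφl a ha], fun x hx => by
        have h5 : lap φ x ≤ lap φ a := hmax hx
        linarith⟩
  obtain ⟨C0, hC0⟩ := (isCompact_closedBall (0 : Plane) 1).exists_bound_of_continuousOn
    (continuous_lap hzs).continuousOn
  set A : ℝ := max C0 1 with hA
  have hApos : 0 < A := lt_of_lt_of_le one_pos (le_max_right _ _)
  have hAt : ∀ x ∈ closedBall (0 : Plane) 1, |lap z x| ≤ A := fun x hx =>
    (hC0 x hx).trans (le_max_left _ _)
  set M : ℝ := (A + 1) / μ with hM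
  have hM0 : 0 ≤ M := by positivity
  have hMμ : M * μ = A + 1 := by
    rw [hM]; field_simp
  -- lowering
  set ψ : Plane → ℝ := fun x => z x + M * φ x with hψ
  have hψs : ContDiff ℝ ∞ ψ := hzs.add (contDiff_const.mul hφ)
  obtain ⟨B, P', hBs, hB0, hBR, hBl, hP'c, hP'1, hP'2⟩ :=
    exists_lowering_local hε0 hεR hsep hψs
  set w0 : Plane → ℝ := fun x => M * φ x - B x with hw0
  have hw0s : ContDiff ℝ ∞ w0 := (contDiff_const.mul hφ).sub hBs
  obtain ⟨c0, hc0⟩ := (isCompact_closedBall (0 : Plane) 1).exists_bound_of_continuousOn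
    (f := fun x => w0 x) hw0s.continuous.continuousOn
  set g : Plane → ℝ := fun x => w0 x + (c0 + 1) with hgd
  have hgs : ContDiff ℝ ∞ g := hw0s.add contDiff_const
  have hg1 : ∀ x ∈ closedBall (0 : Plane) 1, 0 ≤ g x := by
    intro x hx
    have h5 := hc0 x hx
    rw [Real.norm_eq_abs, abs_le] at h5
    simp only [hgd]
    linarith [h5.1]
  -- `g` is rising
  have hBup : ∀ x ∈ closedBall (0 : Plane) 1, ∀ y ∈ closedBall (0 : Plane) 1,
      m x = m y → z y < z x → B x = 0 := by
    intro x hx y hy hm hlt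
    apply hBR
    intro p hp
    by_contra hcon
    push Not at hcon
    obtain ⟨-, -, h6⟩ := hball p hp x (mem_closedBall.2 hcon.le)
    exact h6 y ⟨hx, hy, hm, hlt⟩
  have hBd : ∀ x, ∀ u, fderiv ℝ m x u = 0 → fderiv ℝ B x u = 0 := by
    intro x u hu
    by_cases hx : ∃ p ∈ P, dist x p ≤ r
    · obtain ⟨p, hp, hxp⟩ := hx
      obtain ⟨-, hinj, -⟩ := hball p hp x (mem_closedBall.2 hxp)
      have h5 : u = 0 := hinj (hu.trans (map_zero _).symm)
      rw [h5, map_zero]
    · push Not at hx
      have h5 : ∀ᶠ y in 𝓝 x, B y = 0 := by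
        have h6 : ∀ᶠ y in 𝓝 x, ∀ p ∈ P, r < dist y p := by
          rw [Filter.eventually_all_finset]
          intro p hp
          exact (continuous_id.dist continuous_const).continuousAt.eventually
            (lt_mem_nhds (hx p hp))
        filter_upwards [h6] with y hy
        exact hBR y fun p hp => (hy p hp).le
      have h7 : B =ᶠ[𝓝 x] fun _ => 0 := h5
      rw [h7.fderiv_eq]
      simp
  have hgr : Rising m z g := by
    refine ⟨?_, ?_⟩
    · intro x hx y hy hm hlt
      have h5 := hφr.cross x hx y hy hm hlt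
      have h6 := hBup x hx y hy hm hlt
      have h7 := hB0 y
      have h8 := mul_le_mul_of_nonneg_left h5 hM0
      simp only [hgd, hw0]
      linarith
    · intro x hx u hu hzu
      have h5 := hφr.cap x hx u hu hzu
      have h6 := hBd x u hu
      have e1 : HasFDerivAt φ (fderiv ℝ φ x) x := ((hφ.differentiable (by simp)) x).hasFDerivAt
      have e2 : HasFDerivAt B (fderiv ℝ B x) x := ((hBs.differentiable (by simp)) x).hasFDerivAt
      have e3 : HasFDerivAt g (M • fderiv ℝ φ x - fderiv ℝ B x) x :=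
        ((e1.const_mul M).sub e2).add_const _
      rw [e3.fderiv]
      simp only [sub_apply, smul_apply, smul_eq_mul, h6, sub_zero]
      exact mul_nonneg hM0 h5
  -- the cut off function
  obtain ⟨d, hd, hdd₀, χ, hχs, hχ0, hχ1, hχn, hχle, hχpos, hχm, hχi⟩ := exists_chi hApos hc₁ hd₀
  have hχmono : Monotone χ := by
    refine monotone_of_deriv_nonneg (hχs.differentiable (by simp)) hχm
  set T : Plane → ℝ := fun y => z y + χ (z y - s) * g y with hT
  have hTs : ContDiff ℝ ∞ T := hzs.add ((hχs.comp (hzs.sub contDiff_const)).mul hgs)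
  have hET : Emb m T := by
    refine hEz.of_rising hTs ?_ ?_
    · intro x hx y hy hm hlt
      have h5 := hgr.cross x hx y hy hm hlt
      have h6 : χ (z y - s) ≤ χ (z x - s) := hχmono (by linarith)
      have h7 := hg1 x hx
      have h8 : χ (z y - s) * g y ≤ χ (z y - s) * g x :=
        mul_le_mul_of_nonneg_left h5 (hχn _)
      have h9 : χ (z y - s) * g x ≤ χ (z x - s) * g x :=
        mul_le_mul_of_nonneg_right h6 h7
      simp only [hT]
      linarith
    · intro x hx u hu hzu
      have h5 := hgr.cap x hx u hu hzu.le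
      have e1 : HasFDerivAt z (fderiv ℝ z x) x := ((hzs.differentiable (by simp)) x).hasFDerivAt
      have e2 : HasFDerivAt g (fderiv ℝ g x) x := ((hgs.differentiable (by simp)) x).hasFDerivAt
      have e3 : HasDerivAt χ (deriv χ (z x - s)) (z x - s) :=
        ((hχs.differentiable (by simp)) _).hasDerivAt
      have e4 : HasFDerivAt (fun y => χ (z y - s)) (deriv χ (z x - s) • fderiv ℝ z x) x :=
        e3.comp_hasFDerivAt x (e1.sub_const s)
      have e5 : HasFDerivAt T (fderiv ℝ z x + (χ (z x - s) • fderiv ℝ g x +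
          g x • (deriv χ (z x - s) • fderiv ℝ z x))) x := e1.add (e4.mul e2)
      rw [e5.fderiv]
      simp only [add_apply, smul_apply, smul_eq_mul]
      have h6 := mul_nonneg (hχn (z x - s)) h5
      have h7 := mul_nonneg (hg1 x hx) (mul_nonneg (hχm (z x - s)) hzu.le)
      linarith
  -- near low points
  have hTlow : ∀ x, z x ≤ s → T x = z x := by
    intro x hx
    simp only [hT]
    rw [hχ0 _ (by linarith)]
    ring
  have hsph : ∀ x ∈ sphere (0 : Plane) 1, z x = 0 := by
    intro x hx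
    have h1 : t x = 0 := hF.boundary x hx
    rw [hCeq x (hlow x (by rw [h1]; exact hs0.le))]
    exact h1
  have hF1 : IsSliceDisc (liftDisc m T) := by
    refine isSliceDisc_liftDisc hET ?_ ?_
    · intro x hx
      rw [hTlow x (by rw [hsph x hx]; exact hs0.le), hsph x hx]
    · intro x hx
      have h1 : 0 < t x := hF.interior x hx
      have h2 : t x ≤ z x := hle x
      have h3 := mul_nonneg (hχn (z x - s)) (hg1 x (ball_subset_closedBall hx))
      simp only [hT]
      linarith
  -- the form near the small balls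
  have hnear : ∀ x, s + d < z x → T =ᶠ[𝓝 x] fun y => (ψ y - B y) + (c0 + 1) := by
    intro x hx
    filter_upwards [hzs.continuous.continuousAt.eventually (lt_mem_nhds hx)] with y hy
    simp only [hT, hgd, hψ, hw0]
    rw [hχ1 _ (by linarith)]
    ring
  have hψB : ContDiff ℝ ∞ fun y => ψ y - B y := hψs.sub hBs
  have hfd : ∀ x, s + d < z x → fderiv ℝ T x = fderiv ℝ (fun y => ψ y - B y) x := by
    intro x hx
    rw [(hnear x hx).fderiv_eq, fderiv_add_const]
  have hfdd : ∀ x, s + d < z x →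
      fderiv ℝ (fderiv ℝ T) x = fderiv ℝ (fderiv ℝ (fun y => ψ y - B y)) x := by
    intro x hx
    rw [((hnear x hx).fderiv).fderiv_eq]
    congr 1
    funext y
    rw [fderiv_add_const]
  have hballt : ∀ x, (∃ p ∈ P, dist x p ≤ ε) → x ∈ ball (0 : Plane) 1 ∧ s + d < z x := by
    rintro x ⟨p, hp, hxp⟩
    obtain ⟨h5, -, -⟩ := hball p hp x (mem_closedBall.2 (hxp.trans hεR.le))
    have h6 : s + d₀ < z x := h5.2
    exact ⟨h5.1, by linarith⟩
  -- the Laplacian of `g`
  have hlapg : ∀ x ∈ closedBall (0 : Plane) 1, s ≤ z x → (∀ p ∈ P, ε ≤ dist x p) →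
      lap g x ≤ -(A + 1) := by
    intro x hx hsx hxp
    have hxK : x ∈ K := ⟨hzR x hx hsx, hxp⟩
    have hgeq : g = (M • φ + (-1 : ℝ) • B) + fun _ => c0 + 1 := by
      funext y
      simp only [hgd, hw0, Pi.add_apply, Pi.smul_apply, smul_eq_mul]
      ring
    have e1 : ContDiff ℝ ∞ (M • φ) := contDiff_const.smul hφ
    have e2 : ContDiff ℝ ∞ ((-1 : ℝ) • B) := contDiff_const.smul hBs
    have e5 : lap g x = M * lap φ x + -1 * lap B x := by
      have e6 : lap g x = lap (M • φ + (-1 : ℝ) • B) x := by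
        rw [hgeq]
        unfold lap
        have e7 : fderiv ℝ ((M • φ + (-1 : ℝ) • B) + fun _ => c0 + 1) =
            fderiv ℝ (M • φ + (-1 : ℝ) • B) := by
          funext y
          exact fderiv_add_const (c0 + 1)
        rw [e7]
      rw [e6, lap_add e1 e2, lap_smul _ hφ, lap_smul _ hBs]
      rfl
    rw [e5]
    have h5 := hμK x hxK
    have h7 := hBl x hxp
    have h8 := mul_le_mul_of_nonneg_left h5 hM0
    have h10 : M * -μ = -(A + 1) := by rw [mul_neg, hMμ]
    linarith
  -- second derivatives below the level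
  have hbelow : ∀ x, t x ≤ s → fderiv ℝ T x = fderiv ℝ t x ∧
      fderiv ℝ (fderiv ℝ T) x = fderiv ℝ (fderiv ℝ t) x := by
    intro x hx
    obtain ⟨h6, h7⟩ := hybrid_below hzs hgs hχs hχ0 (s := s) (x := x) ((hzt x).2 hx)
    have h8 := hnearC x (hlow x hx)
    refine ⟨h6.trans h8.fderiv_eq, h7.trans ?_⟩
    exact (h8.fderiv).fderiv_eq
  obtain ⟨G, hG, hGn, hGF, -⟩ := births_of_height hF1
    (ψ := fun q : EuclideanSpace ℝ (Fin 4) => q 3)
    (EuclideanSpace.proj (3 : Fin 4) : EuclideanSpace ℝ (Fin 4) →L[ℝ] ℝ).contDiff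
    fderiv_three_nonneg (Q ∪ P')
    (by
      intro p hp
      have hTT : (fun y => liftDisc m T y 3) = T := rfl
      rw [hTT]
      rcases Finset.mem_union.1 hp with h5 | h5
      · obtain ⟨h6, h7, h8⟩ := hQ p h5
        refine ⟨h6, ?_⟩
        rw [(hbelow p h7).2]
        exact h8
      · obtain ⟨h6, h7⟩ := hP'1 p h5
        obtain ⟨h8, h9⟩ := hballt p h6
        refine ⟨h8, ?_⟩
        rw [hfdd p h9]
        exact h7)
    (by
      intro x hx h0
      have hTT : (fun y => liftDisc m T y 3) = T := rfl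
      rw [hTT] at h0 ⊢
      rcases le_or_gt (t x) s with h5 | h5
      · obtain ⟨h6, h7⟩ := hbelow x h5
        rw [h7]
        rw [h6] at h0
        rcases hcrit x hx h5 h0 with h8 | h8
        · exact Or.inl h8
        · exact Or.inr (Finset.mem_union_left _ h8)
      · have h5' : s < z x := h5.trans_le (hle x)
        by_cases hxp : ∃ p ∈ P, dist x p ≤ ε
        · right
          obtain ⟨h6, h7⟩ := hballt x hxp
          rw [hfd x h7] at h0
          exact Finset.mem_union_right _ (hP'2 x hxp h0)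
        · left
          push Not at hxp
          apply neg_direction_of_lap_ts
          exact hybrid_lap_neg hzs hgs hχs hc₁ hχn hχ1 hχle hχpos hχm hχi h5' (hAt x hx)
            (fun h6 => hstrip x hx h5'.le (by linarith))
            (hg1 x hx)
            (hlapg x hx h5'.le fun p hp => (hxp p hp).le) h0)
  refine ⟨G, hG, ?_, hGn.trans ?_⟩
  · unfold boundaryKnot
    refine image_congr fun x _ => ?_
    ext i
    fin_cases i
    · exact hGF x 0 (by decide)
    · exact hGF x 1 (by decide)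
    · exact hGF x 2 (by decide)
  · have h5 : ((Q ∪ P').card : ℕ∞) ≤ ((Q.card + P'.card : ℕ) : ℕ∞) := by
      exact_mod_cast Finset.card_union_le _ _
    refine h5.trans ?_
    rw [Nat.cast_add]
    refine add_le_add le_rfl ?_
    rw [hfin.encard_eq_coe_toFinset_card]
    exact_mod_cast hP'c

end Pool.Agent.Lib_MP_752436_ts
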