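import Pool.Agent.Lib_MP_752436_ts.Defs
import Pool.Agent.Lib_MP_752436_mv.CapEst
import Pool.Agent.Lib_MP_752436_tp.CutFlow

/-!
Piece V2 (port of mv/CapOrbit.lean): no periodic orbit of pairs comes near a singular point.
-/

open Metric Set Filter
open scoped ContDiff Topology

namespace Pool.Agent.Lib_MP_752436_ts

open Pool.Agent.Lib_MP_752436_gt Pool.Agent.Lib_MP_752436_tp Pool.Agent.Lib_MP_752436_rb
open Pool.Agent.Lib_MP_752436_mv (flipSet)

/-- comparison of derivatives from comparison of increments -/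
private theorem CapOrbit_deriv {A : ℝ → Plane} {B : ℝ → ℝ} {A' : Plane} {B' : ℝ} {r0 ε : ℝ}
    (hA : HasDerivAt A A' r0) (hB : HasDerivAt B B' r0)
    (h : ∀ᶠ r in 𝓝 r0, ‖A r - A r0‖ ≤ ε * |B r - B r0|) : ‖A'‖ ≤ ε * |B'| := by
  have h1 := (hasDerivAt_iff_tendsto_slope.1 hA).norm
  have h2 := ((hasDerivAt_iff_tendsto_slope.1 hB).norm).const_mul ε
  refine le_of_tendsto_of_tendsto h1 h2 ?_
  filter_upwards [h.filter_mono nhdsWithin_le_nhds, self_mem_nhdsWithin] with r hr hne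
  have h3 : 0 < |r - r0| := abs_pos.2 (sub_ne_zero.2 hne)
  rw [slope_def_module, slope_def_field, norm_smul, norm_inv, Real.norm_eq_abs, norm_div,
    Real.norm_eq_abs, Real.norm_eq_abs, ← div_eq_inv_mul, ← mul_div_assoc]
  exact div_le_div_of_nonneg_right hr h3.le

/-- the scalar product of two vectors close to multiples of a unit vector -/
private theorem CapOrbit_inner {k a b : Plane} (hk : ‖k‖ = 1) {ρ τ : ℝ}
    (ha : ‖a - ρ • k‖ ≤ 1 / 4 * |ρ|) (hb : ‖b - τ • k‖ ≤ 1 / 4 * |τ|) :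
    |inner ℝ a b - ρ * τ| ≤ 9 / 16 * (|ρ| * |τ|) := by
  have e : inner ℝ a b - ρ * τ = inner ℝ (a - ρ • k) (b - τ • k) +
      τ * inner ℝ (a - ρ • k) k + ρ * inner ℝ k (b - τ • k) := by
    have hkk : inner ℝ k k = (1 : ℝ) := by
      rw [real_inner_self_eq_norm_sq, hk, one_pow]
    simp only [inner_sub_left, inner_sub_right, real_inner_smul_left, real_inner_smul_right, hkk]
    ring
  have h1 : |inner ℝ (a - ρ • k) (b - τ • k)| ≤ (1 / 4 * |ρ|) * (1 / 4 * |τ|) :=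
    (abs_real_inner_le_norm _ _).trans (mul_le_mul ha hb (norm_nonneg _) (by positivity))
  have h2 : |inner ℝ (a - ρ • k) k| ≤ 1 / 4 * |ρ| :=
    (abs_real_inner_le_norm _ _).trans (by rw [hk, mul_one]; exact ha)
  have h3 : |inner ℝ k (b - τ • k)| ≤ 1 / 4 * |τ| :=
    (abs_real_inner_le_norm _ _).trans (by rw [hk, one_mul]; exact hb)
  rw [e]
  calc |inner ℝ (a - ρ • k) (b - τ • k) + τ * inner ℝ (a - ρ • k) k +
        ρ * inner ℝ k (b - τ • k)|
      ≤ |inner ℝ (a - ρ • k) (b - τ • k)| + |τ * inner ℝ (a - ρ • k) k| +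
        |ρ * inner ℝ k (b - τ • k)| := abs_add_three _ _ _
    _ ≤ (1 / 4 * |ρ|) * (1 / 4 * |τ|) + |τ| * (1 / 4 * |ρ|) + |ρ| * (1 / 4 * |τ|) := by
        rw [abs_mul, abs_mul]
        have h4 := mul_le_mul_of_nonneg_left h2 (abs_nonneg τ)
        have h5 := mul_le_mul_of_nonneg_left h3 (abs_nonneg ρ)
        linarith
    _ = 9 / 16 * (|ρ| * |τ|) := by ring

/-- No periodic orbit of pairs comes near a singular point. -/
theorem no_periodic_near_cap {m : Plane → Space} {z : Plane → ℝ} (hE : Emb m z) (hg : Gen m)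
    {R : Set Plane} (hR : R ⊆ closedBall (0 : Plane) 1) {v : Plane × Plane → Plane × Plane}
    {Φ : ℝ → Plane × Plane → Plane × Plane} (h : CutFlow m v Φ)
    {x0 : Plane} (hx0 : x0 ∈ closedBall (0 : Plane) 1)
    (hcap : ¬ Function.Injective (fderiv ℝ m x0)) :
    ∃ δ > 0, ∀ c ∈ ball (x0, x0) δ, ∀ T > 0, Φ T c = c → ¬ ∀ r, Φ r c ∈ Over m z R := by
  have hm := hE.smm
  -- the unit kernel vector
  obtain ⟨u, hu0, hu⟩ : ∃ u, u ≠ 0 ∧ fderiv ℝ (m) x0 u = 0 := by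
    rw [injective_iff_map_eq_zero] at hcap
    push Not at hcap
    obtain ⟨u, h1, h2⟩ := hcap
    exact ⟨u, h2, h1⟩
  set k : Plane := ‖u‖⁻¹ • u with hkdef
  have hun : ‖u‖ ≠ 0 := norm_ne_zero_iff.2 hu0
  have hk : ‖k‖ = 1 := by
    rw [hkdef, norm_smul, norm_inv, norm_norm, inv_mul_cancel₀ hun]
  have hk0 : k ≠ 0 := by
    intro h0
    rw [h0, norm_zero] at hk
    exact zero_ne_one hk
  have h0 : fderiv ℝ (m) x0 k = 0 := by rw [hkdef, map_smul, hu, smul_zero]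
  have hW : ∀ w, ∃ a b, fderiv ℝ (fun y => fderiv ℝ (m) y k) x0 a +
      fderiv ℝ (m) x0 b = w := hg.branch x0 hx0 k hk0 h0
  obtain ⟨δ1, hδ1, he1⟩ := Lib_MP_752436_mv.capEst_ne hm hk h0 hW
  obtain ⟨δ2, hδ2, he2⟩ := Lib_MP_752436_mv.capEst_one hm hk h0 hW (ε := 1 / 4) (by norm_num)
  obtain ⟨δ3, hδ3, he3⟩ := Lib_MP_752436_mv.capEst_two hm hk h0 hW (ε := 1 / 4) (by norm_num)
  set δ := min δ1 (min δ2 δ3) with hδdef
  have hδ : 0 < δ := lt_min hδ1 (lt_min hδ2 hδ3)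
  have hsub1 : ball x0 δ ⊆ ball x0 δ1 := ball_subset_ball (min_le_left _ _)
  have hsub2 : ball x0 δ ⊆ ball x0 δ2 :=
    ball_subset_ball ((min_le_right _ _).trans (min_le_left _ _))
  have hsub3 : ball x0 δ ⊆ ball x0 δ3 :=
    ball_subset_ball ((min_le_right _ _).trans (min_le_right _ _))
  refine ⟨δ / 2, half_pos hδ, fun c hc T hT hper hall => ?_⟩
  -- the squared distance along the orbit
  have hder1 : ∀ r, HasDerivAt (fun r => (Φ r c).1) (v (Φ r c)).1 r := fun r =>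
    (h.flow.deriv c r).fst
  have hder2 : ∀ r, HasDerivAt (fun r => (Φ r c).2) (v (Φ r c)).2 r := fun r =>
    (h.flow.deriv c r).snd
  have hcont1 : Continuous fun r => (Φ r c).1 :=
    continuous_iff_continuousAt.2 fun r => (hder1 r).continuousAt
  have hcont2 : Continuous fun r => (Φ r c).2 :=
    continuous_iff_continuousAt.2 fun r => (hder2 r).continuousAt
  set q : ℝ → ℝ := fun r => ‖(Φ r c).1 - x0‖ ^ 2 + ‖(Φ r c).2 - x0‖ ^ 2 with hqdef
  have hqc : Continuous q :=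
    ((hcont1.sub continuous_const).norm.pow 2).add ((hcont2.sub continuous_const).norm.pow 2)
  have hqp : Function.Periodic q T := by
    intro r
    simp only [hqdef]
    rw [h.flow.add, hper]
  obtain ⟨r0, -, hr0⟩ := isCompact_Icc.exists_isMinOn (nonempty_Icc.2 hT.le) hqc.continuousOn
  have hmin : ∀ r, q r0 ≤ q r := by
    intro r
    obtain ⟨y, hy, hyq⟩ := hqp.exists_mem_Ico₀ hT r
    rw [hyq]
    exact hr0 ⟨hy.1, hy.2.le⟩
  -- at the minimum the two points are near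
  have hq0 : q 0 < 2 * (δ / 2) ^ 2 := by
    simp only [hqdef]
    rw [h.flow.zero]
    rw [mem_ball, Prod.dist_eq, max_lt_iff, dist_eq_norm, dist_eq_norm] at hc
    have h1 : ‖c.1 - x0‖ ^ 2 < (δ / 2) ^ 2 := pow_lt_pow_left₀ hc.1 (norm_nonneg _) two_ne_zero
    have h2 : ‖c.2 - x0‖ ^ 2 < (δ / 2) ^ 2 := pow_lt_pow_left₀ hc.2 (norm_nonneg _) two_ne_zero
    linarith
  have hqr : q r0 < δ ^ 2 := by
    have h1 := hmin 0
    nlinarith
  have hx : (Φ r0 c).1 ∈ ball x0 δ := by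
    rw [mem_ball, dist_eq_norm]
    have h1 : ‖(Φ r0 c).1 - x0‖ ^ 2 < δ ^ 2 := by
      have h2 : 0 ≤ ‖(Φ r0 c).2 - x0‖ ^ 2 := by positivity
      simp only [hqdef] at hqr
      linarith
    exact lt_of_pow_lt_pow_left₀ 2 hδ.le h1
  have hy : (Φ r0 c).2 ∈ ball x0 δ := by
    rw [mem_ball, dist_eq_norm]
    have h1 : ‖(Φ r0 c).2 - x0‖ ^ 2 < δ ^ 2 := by
      have h2 : 0 ≤ ‖(Φ r0 c).1 - x0‖ ^ 2 := by positivity
      simp only [hqdef] at hqr
      linarith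
    exact lt_of_pow_lt_pow_left₀ 2 hδ.le h1
  -- derivatives at the minimum
  have hcr := hall r0
  have hagree : v (Φ r0 c) = field (m) (Φ r0 c) := by
    refine h.agree _ ?_ ?_
    · exact closedBall_subset_ball (by norm_num) (hR hcr.1)
    · exact closedBall_subset_ball (by norm_num) (hR hcr.2.1)
  have hne : (v (Φ r0 c)).1 ≠ 0 := by
    rw [hagree]
    exact (field_kernel (hg.inj_fst hR hcr) (hg.inj_snd hR hcr) (hg.double' hR hcr)).1
  set ρ : ℝ → ℝ := fun r => inner ℝ k ((Φ r c).1 - (Φ r c).2) / 2 with hρdef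
  have hρd : ∀ r, HasDerivAt ρ (inner ℝ k ((v (Φ r c)).1 - (v (Φ r c)).2) / 2) r := by
    intro r
    have h1 : HasDerivAt (fun r => (Φ r c).1 - (Φ r c).2) ((v (Φ r c)).1 - (v (Φ r c)).2) r :=
      (hder1 r).sub (hder2 r)
    have h2 := ((innerSL ℝ k).hasFDerivAt.comp_hasDerivAt r h1).div_const 2
    exact h2
  have hρc : Continuous ρ := continuous_iff_continuousAt.2 fun r => (hρd r).continuousAt
  have hρ0 : ρ r0 ≠ 0 := by
    have h1 := he1 _ (hsub1 hx) _ (hsub1 hy) hcr.2.2.1 (Over.ne hcr)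
    simp only [hρdef]
    exact div_ne_zero h1 two_ne_zero
  have heq : ∀ r, m (Φ r c).1 = m (Φ r c).2 := fun r => (hall r).2.2.1
  have hin : ∀ r, inner ℝ k ((Φ r c).1 - (Φ r c).2) = 2 * ρ r := by
    intro r
    simp only [hρdef]
    ring
  have hin' : ∀ r, inner ℝ k ((Φ r c).2 - (Φ r c).1) = 2 * (-ρ r) := by
    intro r
    rw [← neg_sub, inner_neg_right, hin]
    ring
  set τ := inner ℝ k ((v (Φ r0 c)).1 - (v (Φ r0 c)).2) / 2 with hτdef
  -- position of the pair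
  have hpos : ‖(Φ r0 c).1 - x0 - ρ r0 • k‖ ≤ 1 / 4 * |ρ r0| ∧
      ‖(Φ r0 c).2 - x0 - (-ρ r0) • k‖ ≤ 1 / 4 * |-ρ r0| := by
    rcases lt_or_gt_of_ne hρ0 with hneg | hp
    · obtain ⟨h1, h2⟩ := he2 _ (hsub2 hy) _ (hsub2 hx) (heq r0).symm (-ρ r0) (by linarith) (hin' r0)
      rw [abs_of_neg hneg, abs_neg, abs_of_neg hneg]
      refine ⟨?_, h1⟩
      rw [neg_smul, ← sub_eq_add_neg] at h2
      exact h2
    · obtain ⟨h1, h2⟩ := he2 _ (hsub2 hx) _ (hsub2 hy) (heq r0) (ρ r0) hp (hin r0)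
      rw [abs_neg, abs_of_pos hp]
      refine ⟨h1, ?_⟩
      rw [neg_smul, sub_neg_eq_add]
      exact h2
  -- increments
  have hev : ∀ᶠ r in 𝓝 r0, ‖((Φ r c).1 - ρ r • k) - ((Φ r0 c).1 - ρ r0 • k)‖ ≤
        1 / 4 * |ρ r - ρ r0| ∧
      ‖((Φ r c).2 - (-ρ r) • k) - ((Φ r0 c).2 - (-ρ r0) • k)‖ ≤ 1 / 4 * |ρ r - ρ r0| := by
    have e1 : ∀ᶠ r in 𝓝 r0, (Φ r c).1 ∈ ball x0 δ :=
      hcont1.continuousAt.eventually (isOpen_ball.mem_nhds hx)
    have e2 : ∀ᶠ r in 𝓝 r0, (Φ r c).2 ∈ ball x0 δ :=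
      hcont2.continuousAt.eventually (isOpen_ball.mem_nhds hy)
    rcases lt_or_gt_of_ne hρ0 with hneg | hp
    · have e3 : ∀ᶠ r in 𝓝 r0, ρ r < 0 :=
        hρc.continuousAt.eventually (isOpen_Iio.mem_nhds hneg)
      filter_upwards [e1, e2, e3] with r h1 h2 h3
      obtain ⟨h4, h5⟩ := he3 _ (hsub3 h2) _ (hsub3 h1) _ (hsub3 hy) _ (hsub3 hx) (heq r).symm
        (heq r0).symm (-ρ r) (-ρ r0) (by linarith) (by linarith) (hin' r) (hin' r0)
      have e4 : |(-ρ r) - (-ρ r0)| = |ρ r - ρ r0| := by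
        rw [← abs_neg]
        congr 1
        ring
      rw [e4] at h4 h5
      constructor
      · convert h5 using 2
        module
      · convert h4 using 2
        module
    · have e3 : ∀ᶠ r in 𝓝 r0, 0 < ρ r :=
        hρc.continuousAt.eventually (isOpen_Ioi.mem_nhds hp)
      filter_upwards [e1, e2, e3] with r h1 h2 h3
      obtain ⟨h4, h5⟩ := he3 _ (hsub3 h1) _ (hsub3 h2) _ (hsub3 hx) _ (hsub3 hy) (heq r)
        (heq r0) (ρ r) (ρ r0) h3 hp (hin r) (hin r0)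
      constructor
      · convert h4 using 2
        module
      · convert h5 using 2
        module
  have hvel : ‖(v (Φ r0 c)).1 - τ • k‖ ≤ 1 / 4 * |τ| := by
    refine CapOrbit_deriv ((hder1 r0).sub ((hρd r0).smul_const k)) (hρd r0) ?_
    filter_upwards [hev] with r hr using hr.1
  have hvel2 : ‖(v (Φ r0 c)).2 - (-τ) • k‖ ≤ 1 / 4 * |-τ| := by
    rw [abs_neg]
    refine CapOrbit_deriv ((hder2 r0).sub ((hρd r0).neg.smul_const k)) (hρd r0) ?_
    filter_upwards [hev] with r hr using hr.2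
  have hτ : τ ≠ 0 := by
    intro h1
    rw [h1, zero_smul, sub_zero, abs_zero, mul_zero] at hvel
    exact hne (norm_le_zero_iff.1 hvel)
  -- the derivative of q
  have hqd : HasDerivAt q (2 * inner ℝ ((Φ r0 c).1 - x0) (v (Φ r0 c)).1 +
      2 * inner ℝ ((Φ r0 c).2 - x0) (v (Φ r0 c)).2) r0 :=
    ((hder1 r0).sub_const x0).norm_sq.add ((hder2 r0).sub_const x0).norm_sq
  have hzero : 2 * inner ℝ ((Φ r0 c).1 - x0) (v (Φ r0 c)).1 +
      2 * inner ℝ ((Φ r0 c).2 - x0) (v (Φ r0 c)).2 = (0 : ℝ) := by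
    have h1 : IsLocalMin q r0 := Filter.Eventually.of_forall hmin
    exact h1.hasDerivAt_eq_zero hqd
  have i1 := CapOrbit_inner hk hpos.1 hvel
  have i2 := CapOrbit_inner hk hpos.2 hvel2
  rw [abs_neg, abs_neg, neg_mul_neg] at i2
  have hprod : 0 < |ρ r0| * |τ| := mul_pos (abs_pos.2 hρ0) (abs_pos.2 hτ)
  have habs : |ρ r0 * τ| = |ρ r0| * |τ| := abs_mul _ _
  rcases abs_cases (ρ r0 * τ) with ⟨h1, h2⟩ | ⟨h1, h2⟩
  · have := abs_le.1 i1
    have := abs_le.1 i2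
    linarith [this.1, this.2, (abs_le.1 i1).1]
  · linarith [(abs_le.1 i1).2, (abs_le.1 i2).2]

end Pool.Agent.Lib_MP_752436_ts
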