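import Pool.Agent.Lib_MP_752436_tp.Defs2
import Pool.Agent.Lib_MP_752436_rb.Defs
import Pool.Agent.Lib_MP_752436_mv.FlipDefs

/-!
Trisecants of slice discs. Working definitions: a map `m` of the disc to `R^3` with Whitney
umbrellas together with a function `z` which lifts it to an embedding, pairs of points one above the
other, bottom points of triple points, generic maps, free curves, flips, traps.
-/

open Metric Set Filter
open scoped ContDiff Topology

namespace Pool.Agent.Lib_MP_752436_ts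

open Pool.Agent.Lib_MP_752436_gt Pool.Agent.Lib_MP_752436_tp Pool.Agent.Lib_MP_752436_rb
open Pool.Agent.Lib_MP_752436_mv (flipSet)

/-- The projection of the disc `F` to `R^3` along the direction `(-a, 1)`. -/
def proj (F : Plane → EuclideanSpace ℝ (Fin 4)) (a : Space) : Plane → Space :=
  fun x => shadow F x + F x 3 • a

/-- The lines parallel to `v` which meet the part of the surface `F` at heights at least `s` in at
least three points. -/
def trisecants (F : Plane → EuclideanSpace ℝ (Fin 4)) (s : ℝ) (v : EuclideanSpace ℝ (Fin 4)) :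
    Set (Set (EuclideanSpace ℝ (Fin 4))) :=
  {L | (∃ p, L = {q | ∃ r : ℝ, q = p + r • v}) ∧
    ∃ x ∈ closedBall (0 : Plane) 1, ∃ y ∈ closedBall (0 : Plane) 1,
      ∃ z ∈ closedBall (0 : Plane) 1, x ≠ y ∧ x ≠ z ∧ y ≠ z ∧
        (s ≤ F x 3 ∧ s ≤ F y 3 ∧ s ≤ F z 3) ∧ F x ∈ L ∧ F y ∈ L ∧ F z ∈ L}

/-- The map `m` to `R^3` together with the function `z` is an embedding of the closed disc. -/
structure Emb (m : Plane → Space) (z : Plane → ℝ) : Prop where
  smm : ContDiff ℝ ∞ m
  smz : ContDiff ℝ ∞ z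
  inj : ∀ x ∈ closedBall (0 : Plane) 1, ∀ y ∈ closedBall (0 : Plane) 1,
    m x = m y → z x = z y → x = y
  imm : ∀ x ∈ closedBall (0 : Plane) 1, ∀ u, fderiv ℝ m x u = 0 → fderiv ℝ z x u = 0 → u = 0

/-- The pairs `(p, q)` of points of `R` with the same image such that `p` lies above `q`. -/
def Over (m : Plane → Space) (z : Plane → ℝ) (R : Set Plane) : Set (Plane × Plane) :=
  {p | p.1 ∈ R ∧ p.2 ∈ R ∧ m p.1 = m p.2 ∧ z p.2 < z p.1}

/-- The bottom points of the triple points in `R`. -/
def bottoms (m : Plane → Space) (z : Plane → ℝ) (R : Set Plane) : Set Plane :=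
  {r | ∃ p q, (p, q) ∈ Over m z R ∧ (q, r) ∈ Over m z R}

/-- The map `m` is generic on the closed disc: its singular points are Whitney umbrellas and are
not double points, two sheets are transverse, and there are no quadruple points. -/
structure Gen (m : Plane → Space) : Prop where
  branch : ∀ x ∈ closedBall (0 : Plane) 1, ∀ u, u ≠ 0 → fderiv ℝ m x u = 0 →
    ∀ v, ∃ a b, fderiv ℝ (fun y => fderiv ℝ m y u) x a + fderiv ℝ m x b = v
  immersion : ∀ x ∈ closedBall (0 : Plane) 1, ∀ y ∈ closedBall (0 : Plane) 1, x ≠ y → m x = m y →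
    ∀ u, u ≠ 0 → fderiv ℝ m x u ≠ 0
  double : ∀ x ∈ closedBall (0 : Plane) 1, ∀ y ∈ closedBall (0 : Plane) 1, x ≠ y → m x = m y →
    ∀ v, ∃ a b, fderiv ℝ m x a + fderiv ℝ m y b = v
  quadruple : ∀ x ∈ closedBall (0 : Plane) 1, ∀ y ∈ closedBall (0 : Plane) 1,
    ∀ z ∈ closedBall (0 : Plane) 1, ∀ w ∈ closedBall (0 : Plane) 1,
    x ≠ y → x ≠ z → x ≠ w → y ≠ z → y ≠ w → z ≠ w → m x = m y → m x = m z → m x ≠ m w

/-- `R` is a compact subset of the open disc, and the points of the disc above points of `R` belong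
to `R`. -/
structure Region (m : Plane → Space) (z : Plane → ℝ) (R : Set Plane) : Prop where
  compact : IsCompact R
  sub : R ⊆ ball (0 : Plane) 1
  up : ∀ y ∈ R, ∀ x ∈ closedBall (0 : Plane) 1, m x = m y → z y < z x → x ∈ R

/-- `w` does not decrease from the lower to the upper point; infinitesimal version at the singular
points of `m`. -/
structure Rising (m : Plane → Space) (z w : Plane → ℝ) : Prop where
  cross : ∀ x ∈ closedBall (0 : Plane) 1, ∀ y ∈ closedBall (0 : Plane) 1,
    m x = m y → z y < z x → w y ≤ w x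
  cap : ∀ x ∈ closedBall (0 : Plane) 1, ∀ u, fderiv ℝ m x u = 0 →
    0 ≤ fderiv ℝ z x u → 0 ≤ fderiv ℝ w x u

/-- A trap in `R`: a nonempty compact subset `Z` of `R` such that every point of the frontier is a
singular point of `m` or lies above a point of `Z`; no singular point is an isolated point. -/
structure IsLTrap (m : Plane → Space) (z : Plane → ℝ) (R Z : Set Plane) : Prop where
  compact : IsCompact Z
  nonempty : Z.Nonempty
  sub : Z ⊆ R
  above : ∀ x ∈ frontier Z, Function.Injective (fderiv ℝ m x) → ∃ y ∈ Z, (x, y) ∈ Over m z R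
  cap : ∀ x ∈ Z, ¬ Function.Injective (fderiv ℝ m x) → x ∈ closure (Z \ {x})

/-- The free pairs: the pairs whose orbit under the flow `Φ` along the double curves is periodic,
stays in `R`, and has no bottom point of a triple point among its lower points. -/
def FreeSet (m : Plane → Space) (z : Plane → ℝ) (R : Set Plane)
    (Φ : ℝ → Plane × Plane → Plane × Plane) : Set (Plane × Plane) :=
  {c | (∃ T > 0, Φ T c = c) ∧ ∀ r, Φ r c ∈ Over m z R ∧ (Φ r c).2 ∉ bottoms m z R}

/-- `z'` is obtained from `z` by interchanging over and under on the curves of `G` with `φ`. -/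
structure IsFlip (m : Plane → Space) (z z' : Plane → ℝ) (R : Set Plane) {ι : Type} (G : Curves ι)
    (φ : ι → Prop) : Prop where
  emb : Emb m z'
  cross : ∀ p, p ∈ Over m z' (closedBall (0 : Plane) 1) ↔
    (p ∈ Over m z (closedBall (0 : Plane) 1) ∧ p ∉ flipSet G φ) ∨ p.swap ∈ flipSet G φ
  le : ∀ x, z x ≤ z' x
  eq : ∃ C ⊆ interior R, IsCompact C ∧ ∀ x ∉ C, z' x = z x

section Basic

variable {m : Plane → Space} {z w : Plane → ℝ} {R R' : Set Plane}

theorem Over.ne {p : Plane × Plane} (hp : p ∈ Over m z R) : p.1 ≠ p.2 := fun h => by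
  have := hp.2.2.2
  rw [h] at this
  exact lt_irrefl _ this

theorem Over.trans {x y w : Plane} (h : (x, y) ∈ Over m z R) (h' : (y, w) ∈ Over m z R) :
    (x, w) ∈ Over m z R :=
  ⟨h.1, h'.2.1, h.2.2.1.trans h'.2.2.1, h'.2.2.2.trans h.2.2.2⟩

theorem Over.asymm {x y : Plane} (h : (x, y) ∈ Over m z R) : (y, x) ∉ Over m z R :=
  fun h' => lt_asymm h.2.2.2 h'.2.2.2

theorem Over.mono (h : R ⊆ R') {p : Plane × Plane} (hp : p ∈ Over m z R) : p ∈ Over m z R' :=
  ⟨h hp.1, h hp.2.1, hp.2.2⟩

theorem bottoms_mono (h : R ⊆ R') : bottoms m z R ⊆ bottoms m z R' :=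
  fun _ ⟨p, q, h1, h2⟩ => ⟨p, q, Over.mono h h1, Over.mono h h2⟩

/-- Two distinct points with the same image are comparable. -/
theorem over_total (hE : Emb m z) (hR : R ⊆ closedBall (0 : Plane) 1) {x y : Plane} (hx : x ∈ R)
    (hy : y ∈ R) (hne : x ≠ y) (h : m x = m y) : (x, y) ∈ Over m z R ∨ (y, x) ∈ Over m z R := by
  rcases lt_trichotomy (z x) (z y) with h1 | h1 | h1
  · exact Or.inr ⟨hy, hx, h.symm, h1⟩
  · exact absurd (hE.inj x (hR hx) y (hR hy) h h1) hne
  · exact Or.inl ⟨hx, hy, h, h1⟩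

theorem Region.sub' (hR : Region m z R) : R ⊆ closedBall (0 : Plane) 1 :=
  hR.sub.trans ball_subset_closedBall

/-- No chain of four points. -/
theorem Gen.noFour (hg : Gen m) (hR : R ⊆ closedBall (0 : Plane) 1) {p q r w : Plane}
    (h1 : (p, q) ∈ Over m z R) (h2 : (q, r) ∈ Over m z R) : (r, w) ∉ Over m z R := by
  intro h3
  have h13 := Over.trans h2 h3
  have h12 := Over.trans h1 h2
  have h14 := Over.trans h1 h13
  exact hg.quadruple p (hR h1.1) q (hR h1.2.1) r (hR h2.2.1) w (hR h3.2.1) (Over.ne h1)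
    (Over.ne h12) (Over.ne h14) (Over.ne h2) (Over.ne h13) (Over.ne h3) h1.2.2.1 h12.2.2.1
    h14.2.2.1

theorem Gen.inj_fst (hg : Gen m) (hR : R ⊆ closedBall (0 : Plane) 1) {p : Plane × Plane}
    (hp : p ∈ Over m z R) : Function.Injective (fderiv ℝ m p.1) := by
  rw [injective_iff_map_eq_zero]
  intro u hu
  by_contra h
  exact hg.immersion p.1 (hR hp.1) p.2 (hR hp.2.1) (Over.ne hp) hp.2.2.1 u h hu

theorem Gen.inj_snd (hg : Gen m) (hR : R ⊆ closedBall (0 : Plane) 1) {p : Plane × Plane}
    (hp : p ∈ Over m z R) : Function.Injective (fderiv ℝ m p.2) := by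
  rw [injective_iff_map_eq_zero]
  intro u hu
  by_contra h
  exact hg.immersion p.2 (hR hp.2.1) p.1 (hR hp.1) (Over.ne hp).symm hp.2.2.1.symm u h hu

theorem Gen.double' (hg : Gen m) (hR : R ⊆ closedBall (0 : Plane) 1) {p : Plane × Plane}
    (hp : p ∈ Over m z R) : ∀ v, ∃ a b, fderiv ℝ m p.1 a + fderiv ℝ m p.2 b = v :=
  hg.double p.1 (hR hp.1) p.2 (hR hp.2.1) (Over.ne hp) hp.2.2.1

/-- The function `z` is regular in the kernel of the derivative of `m`. -/
theorem Emb.dz_ne_zero (hE : Emb m z) {x u : Plane} (hx : x ∈ closedBall (0 : Plane) 1)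
    (hu : u ≠ 0) (h : fderiv ℝ m x u = 0) : fderiv ℝ z x u ≠ 0 :=
  fun hz => hu (hE.imm x hx u h hz)

theorem IsLTrap.mono {Z : Set Plane} (hZ : IsLTrap m z R Z) (h : R ⊆ R') : IsLTrap m z R' Z where
  compact := hZ.compact
  nonempty := hZ.nonempty
  sub := hZ.sub.trans h
  above := fun x hx hi => by
    obtain ⟨y, hy, hxy⟩ := hZ.above x hx hi
    exact ⟨y, hy, Over.mono h hxy⟩
  cap := hZ.cap

/-- A function which increases from the lower to the upper points, also infinitesimally at the
singular points, lifts `m` to an embedding. -/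
theorem Emb.of_rising (hE : Emb m z) (hw : ContDiff ℝ ∞ w)
    (h1 : ∀ x ∈ closedBall (0 : Plane) 1, ∀ y ∈ closedBall (0 : Plane) 1,
      m x = m y → z y < z x → w y < w x)
    (h2 : ∀ x ∈ closedBall (0 : Plane) 1, ∀ u, fderiv ℝ m x u = 0 →
      0 < fderiv ℝ z x u → 0 < fderiv ℝ w x u) : Emb m w where
  smm := hE.smm
  smz := hw
  inj := by
    intro x hx y hy hm hwxy
    rcases lt_trichotomy (z x) (z y) with h | h | h
    · exact absurd hwxy (h1 y hy x hx hm.symm h).ne
    · exact hE.inj x hx y hy hm h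
    · exact absurd hwxy.symm (h1 x hx y hy hm h).ne
  imm := by
    intro x hx u hu hwu
    by_contra hne
    rcases lt_or_gt_of_ne (hE.dz_ne_zero hx hne hu) with h | h
    · have h3 := h2 x hx (-u) (by rw [map_neg, hu, neg_zero]) (by rw [map_neg]; linarith)
      rw [map_neg, hwu, neg_zero] at h3
      exact lt_irrefl _ h3
    · have h3 := h2 x hx u hu h
      rw [hwu] at h3
      exact lt_irrefl _ h3

end Basic

end Pool.Agent.Lib_MP_752436_ts
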