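import Pool.Agent.Lib_MP_752436_ts.Defs

/-!
Piece G12: from parameters of projections to directions of `R^4`. `ae_direction`: v 3 /= 0 almost
everywhere (hyperplane); identify `R^4` with `Space × R` (measure preserving: EuclideanSpace.volume_preserving...,
MeasurableEquiv.piFinSuccAbove), Fubini: for fixed v 3 /= 0 the map (v 0, v 1, v 2) -> dirVec v is a
homothety of `Space`, so preimages of null sets are null. `not_ae_of_ball`: the open ball around
(0, 0, 0, 1) of a suitable radius consists of such v and has positive measure.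
-/

open MeasureTheory Metric Set Filter Module
open scoped ContDiff Topology

namespace Pool.Agent.Lib_MP_752436_ts

open Pool.Agent.Lib_MP_752436_gt Pool.Agent.Lib_MP_752436_tp Pool.Agent.Lib_MP_752436_rb

/-- The parameter of the projection along the direction `v`. -/
noncomputable def dirVec (v : EuclideanSpace ℝ (Fin 4)) : Space :=
  !₂[-(v 0) / v 3, -(v 1) / v 3, -(v 2) / v 3]

/-- the last coordinate -/
private noncomputable def dirLast : EuclideanSpace ℝ (Fin 4) →ₗ[ℝ] ℝ where
  toFun v := v 3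
  map_add' _ _ := rfl
  map_smul' _ _ := rfl

/-- the first three coordinates -/
private noncomputable def dirFirst : EuclideanSpace ℝ (Fin 4) →ₗ[ℝ] Space where
  toFun v := !₂[v 0, v 1, v 2]
  map_add' u v := by
    ext i
    fin_cases i <;> rfl
  map_smul' c v := by
    ext i
    fin_cases i <;> rfl

private theorem dirLast_surj : Function.Surjective dirLast := fun t =>
  ⟨!₂[0, 0, 0, t], rfl⟩

private theorem dirFirst_surj : Function.Surjective dirFirst := fun a =>
  ⟨!₂[a 0, a 1, a 2, 0], by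
    ext i
    fin_cases i <;> rfl⟩

/-- the map which is inverse to `v ↦ (dirVec v, v 3)` -/
private noncomputable def dirInv (u : EuclideanSpace ℝ (Fin 4)) : EuclideanSpace ℝ (Fin 4) :=
  !₂[-(u 3 * u 0), -(u 3 * u 1), -(u 3 * u 2), u 3]

private theorem dirInv_diff : Differentiable ℝ dirInv := by
  rw [differentiable_euclidean]
  intro i
  fin_cases i
  · exact ((by fun_prop : Differentiable ℝ fun u : EuclideanSpace ℝ (Fin 4) => -(u 3 * u 0)))
  · exact ((by fun_prop : Differentiable ℝ fun u : EuclideanSpace ℝ (Fin 4) => -(u 3 * u 1)))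
  · exact ((by fun_prop : Differentiable ℝ fun u : EuclideanSpace ℝ (Fin 4) => -(u 3 * u 2)))
  · exact ((by fun_prop : Differentiable ℝ fun u : EuclideanSpace ℝ (Fin 4) => u 3))

theorem ae_direction {p : Space → Prop} (h : ∀ᵐ a, p a) :
    ∀ᵐ v : EuclideanSpace ℝ (Fin 4), v 3 ≠ 0 ∧ p (dirVec v) := by
  have h1 : ∀ᵐ v : EuclideanSpace ℝ (Fin 4), v 3 ≠ 0 := by
    have h2 : ∀ᵐ t : ℝ, t ∈ ({0}ᶜ : Set ℝ) := by
      rw [ae_iff]
      simp
    have h3 := (ae_comp_linearMap_mem_iff dirLast volume volume dirLast_surj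
      (measurableSet_singleton (0 : ℝ)).compl).2 h2
    exact h3
  -- the null set
  obtain ⟨N, hN, hNm, hN0⟩ := exists_measurable_superset_of_null (ae_iff.1 h)
  have h4 : ∀ᵐ u : EuclideanSpace ℝ (Fin 4), dirFirst u ∈ Nᶜ := by
    refine (ae_comp_linearMap_mem_iff dirFirst volume volume dirFirst_surj hNm.compl).2 ?_
    rw [ae_iff]
    simpa using hN0
  have h5 : volume {u : EuclideanSpace ℝ (Fin 4) | dirFirst u ∈ N} = 0 := by
    rw [ae_iff] at h4
    simpa using h4
  have h6 : volume (dirInv '' {u : EuclideanSpace ℝ (Fin 4) | dirFirst u ∈ N}) = 0 :=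
    addHaar_image_eq_zero_of_differentiableOn_of_addHaar_eq_zero _ dirInv_diff.differentiableOn h5
  have h7 : ∀ᵐ v : EuclideanSpace ℝ (Fin 4),
      v ∉ dirInv '' {u : EuclideanSpace ℝ (Fin 4) | dirFirst u ∈ N} :=
    measure_eq_zero_iff_ae_notMem.1 h6
  filter_upwards [h1, h7] with v hv hv2
  refine ⟨hv, ?_⟩
  by_contra hp
  refine hv2 ⟨!₂[-(v 0) / v 3, -(v 1) / v 3, -(v 2) / v 3, v 3], ?_, ?_⟩
  · exact hN hp
  · ext i
    fin_cases i
    · show -(v 3 * (-(v 0) / v 3)) = v 0
      field_simp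
    · show -(v 3 * (-(v 1) / v 3)) = v 1
      field_simp
    · show -(v 3 * (-(v 2) / v 3)) = v 2
      field_simp
    · rfl

theorem not_ae_of_ball {p : EuclideanSpace ℝ (Fin 4) → Prop} {ε : ℝ} (hε : 0 < ε)
    (h : ∀ v : EuclideanSpace ℝ (Fin 4), v 3 ≠ 0 → ‖dirVec v‖ < ε → ¬ p v) : ¬ ∀ᵐ v, p v := by
  intro hp
  have hopen : IsOpen {v : EuclideanSpace ℝ (Fin 4) | v 3 ≠ 0} :=
    isOpen_ne.preimage (by fun_prop : Continuous fun v : EuclideanSpace ℝ (Fin 4) => v 3)
  have hcont : ContinuousOn dirVec {v : EuclideanSpace ℝ (Fin 4) | v 3 ≠ 0} := by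
    have h1 : ContinuousOn (fun v : EuclideanSpace ℝ (Fin 4) =>
        (![-(v 0) / v 3, -(v 1) / v 3, -(v 2) / v 3] : Fin 3 → ℝ)) {v | v 3 ≠ 0} := by
      rw [continuousOn_pi]
      intro i
      fin_cases i
      · exact ContinuousOn.div (by fun_prop) (by fun_prop) fun v hv => hv
      · exact ContinuousOn.div (by fun_prop) (by fun_prop) fun v hv => hv
      · exact ContinuousOn.div (by fun_prop) (by fun_prop) fun v hv => hv
    exact (PiLp.continuous_toLp 2 _).comp_continuousOn h1
  have hU : IsOpen ({v : EuclideanSpace ℝ (Fin 4) | v 3 ≠ 0} ∩ dirVec ⁻¹' ball 0 ε) :=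
    hcont.isOpen_inter_preimage hopen isOpen_ball
  have hne : ({v : EuclideanSpace ℝ (Fin 4) | v 3 ≠ 0} ∩ dirVec ⁻¹' ball 0 ε).Nonempty := by
    refine ⟨!₂[0, 0, 0, 1], ?_, ?_⟩
    · show (1 : ℝ) ≠ 0
      exact one_ne_zero
    · have h2 : dirVec !₂[0, 0, 0, 1] = 0 := by
        ext i
        fin_cases i
        · show -(0 : ℝ) / 1 = 0
          simp
        · show -(0 : ℝ) / 1 = 0
          simp
        · show -(0 : ℝ) / 1 = 0
          simp
      show dirVec !₂[0, 0, 0, 1] ∈ ball (0 : Space) ε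
      rw [h2]
      exact mem_ball_self hε
  have h0 : volume ({v : EuclideanSpace ℝ (Fin 4) | v 3 ≠ 0} ∩ dirVec ⁻¹' ball 0 ε) = 0 := by
    refine measure_mono_null (fun v hv => ?_) (ae_iff.1 hp)
    exact h v hv.1 (by simpa using hv.2)
  exact (hU.measure_pos volume hne).ne' h0

end Pool.Agent.Lib_MP_752436_ts
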