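import Pool.Agent.Lib_MP_752436_ts.Sard
import Pool.Agent.Lib_MP_752436_ts.PairMap

/-!
Piece G7: double points are transverse in almost every direction (`sardFor_pair` for `pm F` on the
open set of pairs with different heights, with `volume` of `Space`, and `fderiv_pm`).
-/

open MeasureTheory Metric Set Filter Module
open scoped ContDiff Topology

namespace Pool.Agent.Lib_MP_752436_ts

open Pool.Agent.Lib_MP_752436_gt Pool.Agent.Lib_MP_752436_tp Pool.Agent.Lib_MP_752436_rb

/-- Two sheets are transverse at the double points in the closed disc. -/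
def DoubleReg (m : Plane → Space) : Prop :=
  ∀ x ∈ closedBall (0 : Plane) 1, ∀ y ∈ closedBall (0 : Plane) 1, x ≠ y → m x = m y →
    ∀ v, ∃ a b, fderiv ℝ m x a + fderiv ℝ m y b = v

theorem ae_doubleReg {F : Plane → EuclideanSpace ℝ (Fin 4)} (hF : IsSliceDisc F) :
    ∀ᵐ a : Space, DoubleReg (proj F a) := by
  have ht : ContDiff ℝ ∞ (fun x => F x 3) := contDiff_height_ts hF.smooth
  have hU : IsOpen {p : Plane × Plane | F p.1 3 ≠ F p.2 3} :=
    isOpen_ne_fun (ht.continuous.comp continuous_fst) (ht.continuous.comp continuous_snd)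
  have hS : volume (pm F '' {p | p ∈ {p : Plane × Plane | F p.1 3 ≠ F p.2 3} ∧
      ¬ Function.Surjective (fderiv ℝ (pm F) p)}) = 0 :=
    sardFor_pair volume _ (pm F) hU
      fun p hp => (contDiffAt_pm hF.smooth hp).contDiffWithinAt
  have hae : ∀ᵐ a : Space, a ∉ pm F '' {p | p ∈ {p : Plane × Plane | F p.1 3 ≠ F p.2 3} ∧
      ¬ Function.Surjective (fderiv ℝ (pm F) p)} := measure_eq_zero_iff_ae_notMem.1 hS
  filter_upwards [hae] with a ha x hx y hy hne hxy v
  have hh : F x 3 ≠ F y 3 := height_ne_of_proj hF hx hy hne hxy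
  have hpm : pm F (x, y) = a := (proj_eq_iff hh).1 hxy
  have hsurj : Function.Surjective (fderiv ℝ (pm F) (x, y)) := by
    by_contra hn
    exact ha ⟨(x, y), ⟨hh, hn⟩, hpm⟩
  obtain ⟨⟨u, w⟩, huw⟩ := hsurj ((F y 3 - F x 3)⁻¹ • v)
  rw [fderiv_pm hF.smooth hh, hpm] at huw
  have hk : (F y 3 - F x 3)⁻¹ ≠ 0 := inv_ne_zero (sub_ne_zero.2 hh.symm)
  have h1 := smul_right_injective Space hk huw
  refine ⟨u, -w, ?_⟩
  rw [map_neg, ← sub_eq_add_neg]
  exact h1

end Pool.Agent.Lib_MP_752436_ts
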