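import Pool.Agent.Lib_MP_752436_ts.Defs

/-!
Piece V10: the disc with projection `m` and height `T`.
-/

open Metric Set Filter
open scoped ContDiff Topology

namespace Pool.Agent.Lib_MP_752436_ts

open Pool.Agent.Lib_MP_752436_gt Pool.Agent.Lib_MP_752436_tp Pool.Agent.Lib_MP_752436_rb
open Pool.Agent.Lib_MP_752436_mv (flipSet)

/-- The disc with projection `m` and height `T`. -/
def liftDisc (m : Plane → Space) (T : Plane → ℝ) : Plane → EuclideanSpace ℝ (Fin 4) :=
  fun x => !₂[m x 0, m x 1, m x 2, T x]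

@[simp] theorem liftDisc_three (m : Plane → Space) (T : Plane → ℝ) (x : Plane) :
    liftDisc m T x 3 = T x := rfl

theorem shadow_liftDisc (m : Plane → Space) (T : Plane → ℝ) : shadow (liftDisc m T) = m := by
  funext x
  ext i
  fin_cases i <;> rfl

theorem liftDisc_shadow (F : Plane → EuclideanSpace ℝ (Fin 4)) :
    liftDisc (shadow F) (fun x => F x 3) = F := by
  funext x
  ext i
  fin_cases i <;> rfl

theorem contDiff_shadow_ts {F : Plane → EuclideanSpace ℝ (Fin 4)} (hF : IsSliceDisc F) :
    ContDiff ℝ ∞ (shadow F) := by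
  have h := contDiff_euclidean.1 hF.smooth
  rw [contDiff_euclidean]
  intro i
  fin_cases i
  · exact h 0
  · exact h 1
  · exact h 2

theorem contDiff_heightL {F : Plane → EuclideanSpace ℝ (Fin 4)} (hF : IsSliceDisc F) :
    ContDiff ℝ ∞ (fun x => F x 3) :=
  contDiff_euclidean.1 hF.smooth 3

theorem contDiff_liftDiscL {m : Plane → Space} {T : Plane → ℝ} (hm : ContDiff ℝ ∞ m)
    (hT : ContDiff ℝ ∞ T) : ContDiff ℝ ∞ (liftDisc m T) := by
  rw [contDiff_euclidean] at hm ⊢
  intro i
  fin_cases i
  · exact hm 0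
  · exact hm 1
  · exact hm 2
  · exact hT

/-- The derivative of the disc with projection `m` and height `T` vanishes on a vector iff the
derivatives of `m` and `T` do. -/
theorem fderiv_liftDiscL_eq_zero {m : Plane → Space} {T : Plane → ℝ} (hm : ContDiff ℝ ∞ m)
    (hT : ContDiff ℝ ∞ T) (x u : Plane) :
    fderiv ℝ (liftDisc m T) x u = 0 ↔ fderiv ℝ m x u = 0 ∧ fderiv ℝ T x u = 0 := by
  have hmk : HasFDerivAt (liftDisc m T) (fderiv ℝ (liftDisc m T) x) x :=
    (((contDiff_liftDiscL hm hT).differentiable (by simp)) x).hasFDerivAt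
  have hmd : HasFDerivAt m (fderiv ℝ m x) x := ((hm.differentiable (by simp)) x).hasFDerivAt
  have hTd : HasFDerivAt T (fderiv ℝ T x) x := ((hT.differentiable (by simp)) x).hasFDerivAt
  have hcoord : ∀ j : Fin 4, HasFDerivAt (fun y => liftDisc m T y j)
      ((EuclideanSpace.proj j : EuclideanSpace ℝ (Fin 4) →L[ℝ] ℝ).comp
        (fderiv ℝ (liftDisc m T) x)) x := fun j =>
    (EuclideanSpace.proj j : EuclideanSpace ℝ (Fin 4) →L[ℝ] ℝ).hasFDerivAt.comp x hmk
  have hcoordm : ∀ i : Fin 3, HasFDerivAt (fun y => m y i)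
      ((EuclideanSpace.proj i : Space →L[ℝ] ℝ).comp (fderiv ℝ m x)) x := fun i =>
    (EuclideanSpace.proj i : Space →L[ℝ] ℝ).hasFDerivAt.comp x hmd
  have key : ∀ (i : Fin 3) (j : Fin 4), (fun y => liftDisc m T y j) = (fun y => m y i) →
      fderiv ℝ (liftDisc m T) x u j = fderiv ℝ m x u i := by
    intro i j hij
    have h1 := hcoord j
    rw [hij] at h1
    exact congrArg (fun l : Plane →L[ℝ] ℝ => l u) (h1.unique (hcoordm i))
  have k0 := key 0 0 rfl
  have k1 := key 1 1 rfl
  have k2 := key 2 2 rfl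
  have k3 : fderiv ℝ (liftDisc m T) x u 3 = fderiv ℝ T x u := by
    have h1 := hcoord 3
    have h2 : (fun y => liftDisc m T y 3) = T := rfl
    rw [h2] at h1
    exact congrArg (fun l : Plane →L[ℝ] ℝ => l u) (h1.unique hTd)
  constructor
  · intro h
    rw [h] at k0 k1 k2 k3
    refine ⟨?_, k3.symm⟩
    ext i
    fin_cases i
    · exact k0.symm
    · exact k1.symm
    · exact k2.symm
  · rintro ⟨h1, h2⟩
    rw [h1] at k0 k1 k2
    rw [h2] at k3
    ext i
    fin_cases i
    · exact k0
    · exact k1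
    · exact k2
    · exact k3

theorem liftDiscL_injOn {m : Plane → Space} {T : Plane → ℝ} {x y : Plane}
    (h : liftDisc m T x = liftDisc m T y) : m x = m y ∧ T x = T y := by
  refine ⟨?_, congrArg (fun v : EuclideanSpace ℝ (Fin 4) => v 3) h⟩
  ext i
  fin_cases i
  · exact congrArg (fun v : EuclideanSpace ℝ (Fin 4) => v 0) h
  · exact congrArg (fun v : EuclideanSpace ℝ (Fin 4) => v 1) h
  · exact congrArg (fun v : EuclideanSpace ℝ (Fin 4) => v 2) h

/-- A slice disc is a lift of its projection. -/
theorem emb_shadow {F : Plane → EuclideanSpace ℝ (Fin 4)} (hF : IsSliceDisc F) :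
    Emb (shadow F) (fun x => F x 3) where
  smm := contDiff_shadow_ts hF
  smz := contDiff_heightL hF
  inj := by
    intro x hx y hy hm hT
    refine hF.inj hx hy ?_
    rw [← liftDisc_shadow F]
    ext i
    fin_cases i
    · exact congrArg (fun v : Space => v 0) hm
    · exact congrArg (fun v : Space => v 1) hm
    · exact congrArg (fun v : Space => v 2) hm
    · exact hT
  imm := by
    intro x hx u h1 h2
    have h3 := (fderiv_liftDiscL_eq_zero (contDiff_shadow_ts hF) (contDiff_heightL hF) x u).2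
      ⟨h1, h2⟩
    rw [liftDisc_shadow] at h3
    exact (injective_iff_map_eq_zero _).1 (hF.immersion x hx) u h3

theorem isSliceDisc_liftDisc {m : Plane → Space} {T : Plane → ℝ} (hE : Emb m T)
    (h0 : ∀ x ∈ sphere (0 : Plane) 1, T x = 0) (h1 : ∀ x ∈ ball (0 : Plane) 1, 0 < T x) :
    IsSliceDisc (liftDisc m T) where
  smooth := contDiff_liftDiscL hE.smm hE.smz
  inj := by
    intro x hx y hy h
    obtain ⟨h2, h3⟩ := liftDiscL_injOn h
    exact hE.inj x hx y hy h2 h3
  immersion := by
    intro x hx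
    rw [injective_iff_map_eq_zero]
    intro u hu
    obtain ⟨h2, h3⟩ := (fderiv_liftDiscL_eq_zero hE.smm hE.smz x u).1 hu
    exact hE.imm x hx u h2 h3
  boundary := h0
  interior := h1

theorem boundaryKnot_liftDisc (m : Plane → Space) (T : Plane → ℝ) :
    boundaryKnot (liftDisc m T) = m '' sphere 0 1 := by
  unfold boundaryKnot
  rw [shadow_liftDisc]

/-- Every point above a level `s > 0` of a slice disc is in the open disc; the points at heights
at least `s` form a region. -/
theorem region_height {F : Plane → EuclideanSpace ℝ (Fin 4)} (hF : IsSliceDisc F) {s : ℝ}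
    (hs : 0 < s) :
    Region (shadow F) (fun x => F x 3) {x | x ∈ closedBall (0 : Plane) 1 ∧ s ≤ F x 3} where
  compact := (isCompact_closedBall (0 : Plane) 1).inter_right
    (isClosed_le continuous_const (contDiff_heightL hF).continuous)
  sub := by
    intro x hx
    rcases lt_or_eq_of_le (mem_closedBall.1 hx.1) with h | h
    · exact mem_ball.2 h
    · have h1 := hF.boundary x (mem_sphere.2 h)
      have h2 : s ≤ F x 3 := hx.2
      rw [h1] at h2
      exact absurd h2 (not_le.2 hs)
  up := by
    intro y hy x hx _ hz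
    exact ⟨hx, hy.2.trans hz.le⟩

end Pool.Agent.Lib_MP_752436_ts
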