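import Pool.Agent.Lib_MP_752436_ts.Orbits
import Pool.Agent.Lib_MP_752436_ts.Lift
import Pool.Agent.Lib_MP_752436_tp.Flip

/-!
The choice of the level: no lower point of a free pair is on the level.
-/

open Metric Set Filter
open scoped ContDiff Topology

namespace Pool.Agent.Lib_MP_752436_ts

open Pool.Agent.Lib_MP_752436_gt Pool.Agent.Lib_MP_752436_tp Pool.Agent.Lib_MP_752436_rb
open Pool.Agent.Lib_MP_752436_mv (flipSet)

/-- The points of the closed disc at heights at least `s`. -/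
def region (F : Plane → EuclideanSpace ℝ (Fin 4)) (s : ℝ) : Set Plane :=
  {x | x ∈ closedBall (0 : Plane) 1 ∧ s ≤ F x 3}

variable {F : Plane → EuclideanSpace ℝ (Fin 4)}

theorem region_anti {s s' : ℝ} (h : s ≤ s') : region F s' ⊆ region F s :=
  fun _ hx => ⟨hx.1, h.trans hx.2⟩

theorem region_sub (s : ℝ) : region F s ⊆ closedBall (0 : Plane) 1 := fun _ hx => hx.1

theorem freeSet_anti {Φ : ℝ → Plane × Plane → Plane × Plane} {s s' : ℝ} (h : s ≤ s') {c : Plane × Plane}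
    (hc : c ∈ FreeSet (shadow F) (fun x => F x 3) (region F s') Φ) :
    c ∈ FreeSet (shadow F) (fun x => F x 3) (region F s) Φ := by
  refine ⟨hc.1, fun r => ⟨Over.mono (region_anti h) (hc.2 r).1, ?_⟩⟩
  rintro ⟨p, q, hpq, hq⟩
  have h1 : s' ≤ F (Φ r c).2 3 := (hc.2 r).1.2.1.2
  have h2 : F (Φ r c).2 3 < F q 3 := hq.2.2.2
  have h3 : F q 3 < F p 3 := hpq.2.2.2
  exact (hc.2 r).2 ⟨p, q, ⟨⟨hpq.1.1, by linarith⟩, ⟨hpq.2.1.1, by linarith⟩, hpq.2.2⟩,
    ⟨⟨hq.1.1, by linarith⟩, ⟨hq.2.1.1, h1⟩, hq.2.2⟩⟩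

theorem exists_goodLevel (hF : IsSliceDisc F) (hg : Gen (shadow F))
    {v : Plane × Plane → Plane × Plane} {Φ : ℝ → Plane × Plane → Plane × Plane}
    (hΦ : CutFlow (shadow F) v Φ) {u0 u1 : ℝ} (hu0 : 0 < u0) (hu1 : u0 < u1) {Bad : Set ℝ}
    (hBad : Bad.Finite) :
    ∃ s, u0 < s ∧ s < u1 ∧ (∀ u ∈ Bad, u ≤ s → u ≤ u0) ∧
      ∀ c ∈ FreeSet (shadow F) (fun x => F x 3) (region F s) Φ, s < F c.2 3 := by
  obtain ⟨ι, hι, G, hG, hcl, hΦG⟩ := exists_freeCurves (emb_shadow hF) hg (region_height hF hu0) hΦ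
  have htc : Continuous (fun x => F x 3) := (emb_shadow hF).smz.continuous
  have hmin : ∀ i, ∃ τ ∈ Icc 0 (G.len i), ∀ τ' ∈ Icc 0 (G.len i),
      F (G.snd i τ) 3 ≤ F (G.snd i τ') 3 := by
    intro i
    have hc : ContinuousOn (fun τ => F (G.snd i τ) 3) (Icc 0 (G.len i)) :=
      (htc.comp (continuous_snd.comp (hG.smooth i).continuous)).continuousOn
    obtain ⟨τ, hτ, hm⟩ := isCompact_Icc.exists_isMinOn
      (nonempty_Icc.2 (hG.pos i).le) hc
    exact ⟨τ, hτ, fun τ' hτ' => hm hτ'⟩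
  choose τ hτ hτm using hmin
  set h : ι → ℝ := fun i => F (G.snd i (τ i)) 3 with hh
  have hBf : (Bad ∪ range h).Finite := hBad.union (Set.finite_range h)
  have hcl' : IsClosed ((Bad ∪ range h) \ {u0}) := (hBf.subset sdiff_subset).isClosed
  obtain ⟨ε, hε, hball⟩ := Metric.isOpen_iff.1 hcl'.isOpen_compl u0 (fun h => h.2 rfl)
  set s : ℝ := u0 + min (ε / 2) ((u1 - u0) / 2) with hs
  have hm1 : 0 < min (ε / 2) ((u1 - u0) / 2) := lt_min (by linarith) (by linarith)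
  have hm2 := min_le_left (ε / 2) ((u1 - u0) / 2)
  have hm3 := min_le_right (ε / 2) ((u1 - u0) / 2)
  have hno : ∀ u ∈ Bad ∪ range h, u ≤ s → u ≤ u0 := by
    intro u hu hle
    by_contra hcon
    push Not at hcon
    have h1 : u ∈ ball u0 ε := by
      rw [mem_ball, Real.dist_eq, abs_of_pos (by linarith)]
      linarith
    exact hball h1 ⟨hu, fun h => hcon.ne' h⟩
  refine ⟨s, by linarith, by linarith, fun u hu => hno u (Or.inl hu), ?_⟩
  intro c hc
  have hc0 : c ∈ FreeSet (shadow F) (fun x => F x 3) (region F u0) Φ :=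
    freeSet_anti (by linarith) hc
  obtain ⟨i, t, ht, hct⟩ := hG.exists_param hc0
  have h1 : G.c i (τ i) = Φ (τ i - t) c := by
    rw [← hct, hΦG]
    congr 1
    ring
  have h2 : s ≤ h i := by
    have h3 := (hc.2 (τ i - t)).1.2.1.2
    rw [← h1] at h3
    exact h3
  have h4 : s < h i := by
    rcases h2.lt_or_eq with h5 | h5
    · exact h5
    · have := hno (h i) (Or.inr ⟨i, rfl⟩) h5.ge
      linarith
  have h6 : h i ≤ F (G.snd i t) 3 := hτm i t ht
  have h7 : G.snd i t = c.2 := by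
    show (G.c i t).2 = c.2
    rw [hct]
  rw [h7] at h6
  linarith

end Pool.Agent.Lib_MP_752436_ts
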