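import Pool.Agent.Lib_MP_752436_ts.CapOrbit
import Pool.Agent.Lib_MP_752436_tp.Exists

/-!
Piece V3 (port of mv/Orbits.lean): the free pairs form finitely many closed curves. `R` is compact,
so limits of pairs of `R` are in `R`.
-/

open Metric Set Filter
open scoped ContDiff Topology

namespace Pool.Agent.Lib_MP_752436_ts

open Pool.Agent.Lib_MP_752436_gt Pool.Agent.Lib_MP_752436_tp Pool.Agent.Lib_MP_752436_rb
open Pool.Agent.Lib_MP_752436_mv (flipSet)

section Aux

variable {m : Plane → Space} {z : Plane → ℝ} {R : Set Plane}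
  {v : Plane × Plane → Plane × Plane} {Φ : ℝ → Plane × Plane → Plane × Plane}

private theorem orbits_continuous_flow (h : CutFlow m v Φ) (c : Plane × Plane) :
    Continuous fun t => Φ t c :=
  continuous_iff_continuousAt.mpr fun t => (h.flow.deriv c t).continuousAt

/-- The free set is invariant under the flow. -/
private theorem orbits_free_flow (h : CutFlow m v Φ) {c : Plane × Plane}
    (hc : c ∈ FreeSet m z R Φ) (r : ℝ) : Φ r c ∈ FreeSet m z R Φ := by
  obtain ⟨⟨T, hT, hTc⟩, hr⟩ := hc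
  refine ⟨⟨T, hT, ?_⟩, fun r' => ?_⟩
  · rw [← h.flow.add, add_comm, h.flow.add, hTc]
  · rw [← h.flow.add]
    exact hr _

private theorem orbits_of_flow (h : CutFlow m v Φ) {c : Plane × Plane} {r : ℝ}
    (hc : Φ r c ∈ FreeSet m z R Φ) : c ∈ FreeSet m z R Φ := by
  have h1 := orbits_free_flow h hc (-r)
  rw [← h.flow.add, neg_add_cancel, h.flow.zero] at h1
  exact h1

private theorem orbits_free_over (h : CutFlow m v Φ) {c : Plane × Plane}
    (hc : c ∈ FreeSet m z R Φ) : c ∈ Over m z R := by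
  have := (hc.2 0).1
  rwa [h.flow.zero] at this

private theorem orbits_field_eq (hR : R ⊆ closedBall (0 : Plane) 1) (h : CutFlow m v Φ)
    {c : Plane × Plane} (hc : c ∈ Over m z R) : v c = field m c :=
  h.agree c (mem_ball.mpr ((mem_closedBall.mp (hR hc.1)).trans_lt (by norm_num)))
    (mem_ball.mpr ((mem_closedBall.mp (hR hc.2.1)).trans_lt (by norm_num)))

private theorem orbits_kernel (hg : Gen m) (hR : R ⊆ closedBall (0 : Plane) 1)
    {c : Plane × Plane} (hc : c ∈ Over m z R) :
    (field m c).1 ≠ 0 ∧ (field m c).2 ≠ 0 :=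
  let h := field_kernel (hg.inj_fst hR hc) (hg.inj_snd hR hc) (hg.double' hR hc)
  ⟨h.1, h.2.1⟩

private theorem orbits_box (hE : Emb m z) (hg : Gen m) (hR : R ⊆ closedBall (0 : Plane) 1)
    (h : CutFlow m v Φ) {c : Plane × Plane} (hc : c ∈ Over m z R) {η : ℝ}
    (hη : 0 < η) : ∃ O ∈ 𝓝 c, ∀ p ∈ O, m p.1 = m p.2 → ∃ t, |t| < η ∧ Φ t c = p :=
  flowBox hE.smm h (hR hc.1) (hR hc.2.1) hc.2.2.1 (hg.inj_fst hR hc) (hg.inj_snd hR hc)
    (hg.double' hR hc) hη

/-- A point at which the derivative of `m` is injective is not a limit of pairs. -/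
private theorem orbits_not_inj (hE : Emb m z) {x : Plane}
    (hx : (x, x) ∈ closure (FreeSet m z R Φ)) (h : CutFlow m v Φ) :
    ¬ Function.Injective (fderiv ℝ m x) := by
  intro hinj
  obtain ⟨N, hN, hNinj⟩ := eventually_injOn_of_strict
    ((hE.smm.contDiffAt (x := x)).hasStrictFDerivAt (by simp)) hinj
  obtain ⟨q, hqO, hqD⟩ := mem_closure_iff_nhds.mp hx _ (prod_mem_nhds hN hN)
  have hq := orbits_free_over h hqD
  exact Over.ne hq (hNinj hqO.1 hqO.2 hq.2.2.1)

private theorem orbits_isCompact (hE : Emb m z) (hg : Gen m) (hRc : IsCompact R)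
    (hR : R ⊆ closedBall (0 : Plane) 1) (h : CutFlow m v Φ)
    (hcap : ∀ x0 ∈ closedBall (0 : Plane) 1, ¬ Function.Injective (fderiv ℝ m x0) →
      ∃ δ > 0, ∀ c ∈ ball (x0, x0) δ, ∀ T > 0, Φ T c = c → ¬ ∀ r, Φ r c ∈ Over m z R) :
    IsCompact (FreeSet m z R Φ) := by
  have hcomp : IsCompact (R ×ˢ R) := hRc.prod hRc
  refine hcomp.of_isClosed_subset ?_
    (fun p hp => ⟨(orbits_free_over h hp).1, (orbits_free_over h hp).2.1⟩)
  refine isClosed_of_closure_subset fun p hp => ?_
  have hmc : Continuous m := hE.smm.continuous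
  have hzc : Continuous z := hE.smz.continuous
  have hsub : closure (FreeSet m z R Φ) ⊆ {p : Plane × Plane | p.1 ∈ R ∧ p.2 ∈ R ∧
      m p.1 = m p.2 ∧ z p.2 ≤ z p.1} := by
    refine closure_minimal (fun q hq => ?_) ?_
    · have hq' := orbits_free_over h hq
      exact ⟨hq'.1, hq'.2.1, hq'.2.2.1, hq'.2.2.2.le⟩
    · refine IsClosed.inter (hRc.isClosed.preimage continuous_fst)
        (IsClosed.inter (hRc.isClosed.preimage continuous_snd)
        (IsClosed.inter (isClosed_eq (hmc.comp continuous_fst) (hmc.comp continuous_snd))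
        (isClosed_le (hzc.comp continuous_snd) (hzc.comp continuous_fst))))
  obtain ⟨h1, h2, h4, h5⟩ := hsub hp
  have hlt : z p.2 < z p.1 := by
    refine lt_of_le_of_ne h5 fun h6 => ?_
    have hxy : p.1 = p.2 := hE.inj p.1 (hR h1) p.2 (hR h2) h4 h6.symm
    have hpp : p = (p.1, p.1) := Prod.ext rfl hxy.symm
    have hp' : (p.1, p.1) ∈ closure (FreeSet m z R Φ) := hpp ▸ hp
    obtain ⟨δ, hδ, hno⟩ := hcap p.1 (hR h1) (orbits_not_inj hE hp' h)
    obtain ⟨q, hqO, hqD⟩ := mem_closure_iff_nhds.mp hp' _ (ball_mem_nhds _ hδ)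
    obtain ⟨⟨T, hT, hTq⟩, hr⟩ := hqD
    exact hno q hqO T hT hTq fun r => (hr r).1
  have hpc : p ∈ Over m z R := ⟨h1, h2, h4, hlt⟩
  obtain ⟨O, hO, hbox⟩ := orbits_box hE hg hR h hpc one_pos
  obtain ⟨q, hqO, hqD⟩ := mem_closure_iff_nhds.mp hp _ hO
  obtain ⟨t, -, ht⟩ := hbox q hqO (orbits_free_over h hqD).2.2.1
  exact orbits_of_flow h (ht ▸ hqD)

private theorem orbits_oneDim (hE : Emb m z) (hg : Gen m) (hRc : IsCompact R)
    (hR : R ⊆ closedBall (0 : Plane) 1) (h : CutFlow m v Φ)
    (hcap : ∀ x0 ∈ closedBall (0 : Plane) 1, ¬ Function.Injective (fderiv ℝ m x0) →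
      ∃ δ > 0, ∀ c ∈ ball (x0, x0) δ, ∀ T > 0, Φ T c = c → ¬ ∀ r, Φ r c ∈ Over m z R) :
    OneDim (FreeSet m z R Φ) ∅ Φ where
  compact := orbits_isCompact hE hg hRc hR h hcap
  sub := empty_subset _
  zero := h.flow.zero
  add := h.flow.add
  cont := orbits_continuous_flow h
  box := by
    intro c hc η hη
    obtain ⟨O, hO, hbox⟩ := orbits_box hE hg hR h (orbits_free_over h hc) hη
    exact ⟨O, hO, fun p hp => hbox p hp.2 (orbits_free_over h hp.1).2.2.1⟩
  stay := fun c hc => ⟨1, one_pos, fun t _ => orbits_free_flow h hc.1 t⟩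
  bd := fun c hc => absurd hc (notMem_empty c)
  move := by
    intro c hc
    have h1 := h.flow.deriv c 0
    rw [h.flow.zero] at h1
    have hne : v c ≠ 0 := by
      rw [orbits_field_eq hR h (orbits_free_over h hc)]
      intro h0
      exact (orbits_kernel hg hR (orbits_free_over h hc)).1 (by rw [h0]; rfl)
    have h2 := h1.eventually_ne (c := c) hne
    obtain ⟨η, hη, hη2⟩ := Metric.eventually_nhds_iff.mp (eventually_nhdsWithin_iff.mp h2)
    exact ⟨η, hη, fun t ht0 ht => hη2 (y := t) (by simpa [Real.dist_eq] using ht)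
      (abs_pos.mp ht0)⟩

/-- V3, with the statement of V2 (no_periodic_near_cap) as a hypothesis. -/
theorem orbits_exists_of_cap (hE : Emb m z) (hg : Gen m) (hR : Region m z R)
    (h : CutFlow m v Φ)
    (hcap : ∀ x0 ∈ closedBall (0 : Plane) 1, ¬ Function.Injective (fderiv ℝ m x0) →
      ∃ δ > 0, ∀ c ∈ ball (x0, x0) δ, ∀ T > 0, Φ T c = c → ¬ ∀ r, Φ r c ∈ Over m z R) :
    ∃ (ι : Type) (_ : Finite ι) (G : Curves ι), IsCurves G (FreeSet m z R Φ) ∧
      (∀ i, G.closed i) ∧ ∀ i r t, Φ r (G.c i t) = G.c i (t + r) := by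
  obtain ⟨ι, hι, c, len, closed, hlen, hcov, hcl, harc, hdisj⟩ :=
    exists_orbit_family (orbits_oneDim hE hg hR.compact hR.sub' h hcap)
  have hall : ∀ i, closed i := fun i => by
    by_contra hi
    exact absurd (harc i hi).1 (notMem_empty _)
  have hmem : ∀ i t, Φ t (c i) ∈ Over m z R := fun i t =>
    orbits_free_over h ((hcl i (hall i)).2.2 t).1
  have hvc : Continuous v := h.smooth.continuous
  have hv : ∀ i t, (v (Φ t (c i))).1 ≠ 0 ∧ (v (Φ t (c i))).2 ≠ 0 := by
    intro i t
    rw [orbits_field_eq hR.sub' h (hmem i t)]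
    exact orbits_kernel hg hR.sub' (hmem i t)
  refine ⟨ι, hι, ⟨fun i t => Φ t (c i), len, closed⟩, ?_, hall, fun i r t => ?_⟩
  · exact {
      pos := hlen
      smooth := fun i => by
        have hd : ∀ t, HasDerivAt (fun t => Φ t (c i)) (v (Φ t (c i))) t := h.flow.deriv (c i)
        change ContDiff ℝ 1 (fun t => Φ t (c i))
        rw [contDiff_one_iff_deriv]
        refine ⟨fun t => (hd t).differentiableAt, ?_⟩
        have : deriv (fun t => Φ t (c i)) = fun t => v (Φ t (c i)) := funext fun t => (hd t).deriv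
        rw [this]
        exact hvc.comp (orbits_continuous_flow h (c i))
      immFst := fun i t _ => by
        have hd : HasDerivAt (fun t => (Φ t (c i)).1) (v (Φ t (c i))).1 t :=
          (h.flow.deriv (c i) t).fst
        change deriv (fun t => (Φ t (c i)).1) t ≠ 0
        rw [hd.deriv]
        exact (hv i t).1
      immSnd := fun i t _ => by
        have hd : HasDerivAt (fun t => (Φ t (c i)).2) (v (Φ t (c i))).2 t :=
          (h.flow.deriv (c i) t).snd
        change deriv (fun t => (Φ t (c i)).2) t ≠ 0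
        rw [hd.deriv]
        exact (hv i t).2
      cover := hcov
      disj := fun i j hij => hdisj i j hij
      periodic := fun i _ t => by
        change Φ (t + len i) (c i) = Φ t (c i)
        rw [h.flow.add, (hcl i (hall i)).1]
      injClosed := fun i _ => (hcl i (hall i)).2.1
      injArc := fun i hi => absurd (hall i) hi
      fstMem := fun i t _ => hR.sub (hmem i t).1
      sndMem := fun i t _ => hR.sub' (hmem i t).2.1
      sndClosed := fun i _ t => hR.sub (hmem i t).2.1
      sndArc := fun i hi => absurd (hall i) hi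
      ends := fun i hi => absurd (hall i) hi }
  · change Φ r (Φ t (c i)) = Φ (t + r) (c i)
    rw [← h.flow.add, add_comm]

end Aux

theorem exists_freeCurves {m : Plane → Space} {z : Plane → ℝ} (hE : Emb m z) (hg : Gen m)
    {R : Set Plane} (hR : Region m z R) {v : Plane × Plane → Plane × Plane}
    {Φ : ℝ → Plane × Plane → Plane × Plane} (h : CutFlow m v Φ) :
    ∃ (ι : Type) (_ : Finite ι) (G : Curves ι), IsCurves G (FreeSet m z R Φ) ∧
      (∀ i, G.closed i) ∧ ∀ i r t, Φ r (G.c i t) = G.c i (t + r) :=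
  orbits_exists_of_cap hE hg hR h fun _ hx0 hcap =>
    no_periodic_near_cap hE hg hR.sub' h hx0 hcap

end Pool.Agent.Lib_MP_752436_ts
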