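import Pool.Agent.Lib_MP_752436_ts.SardNull

/-!
Piece G5: level sets of submersions. `exists_param`: choose a linear map P : E -> R^k, k = finrank of the
kernel of fderiv L p0, which is injective on the kernel; (L, P) : E -> E' x R^k has invertible
derivative at p0; let g be its local inverse (ContDiffAt.toOpenPartialHomeomorph), gamma xi = g (0, xi).
`null_of_submersion`: pi o gamma is C^1 on an open subset of R^k, k < finrank F
(`null_of_finrank_lt`); if L p0 /= 0 take N without zeros. `sard_of_submersion`: k = finrank F; for p =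
gamma xi, d(pi o gamma)(xi) = dpi(p) o dgamma(xi) and dL(p) o dgamma(xi) = 0 (L o gamma = 0 on V), so if
d(pi o gamma)(xi) is onto then the condition in the set fails: `sard_equal`.
-/

open MeasureTheory Metric Set Filter Module
open scoped ContDiff Topology NNReal ENNReal

namespace Pool.Agent.Lib_MP_752436_ts

variable {E E' F : Type} [NormedAddCommGroup E] [NormedSpace ℝ E] [FiniteDimensional ℝ E]
  [NormedAddCommGroup E'] [NormedSpace ℝ E'] [FiniteDimensional ℝ E']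
  [NormedAddCommGroup F] [NormedSpace ℝ F] [FiniteDimensional ℝ F] [MeasurableSpace F]
  [BorelSpace F]

theorem exists_param {L : E → E'} {p0 : E} (hL : ContDiffAt ℝ ∞ L p0)
    (hs : Function.Surjective (fderiv ℝ L p0)) (h0 : L p0 = 0) {O : Set E} (hO : O ∈ 𝓝 p0) :
    ∃ k : ℕ, k + finrank ℝ E' = finrank ℝ E ∧ ∃ (V : Set (Fin k → ℝ)) (γ : (Fin k → ℝ) → E),
      IsOpen V ∧ ContDiffOn ℝ 1 γ V ∧ (∀ ξ ∈ V, γ ξ ∈ O ∧ L (γ ξ) = 0) ∧
      ∃ N ∈ 𝓝 p0, ∀ p ∈ N, L p = 0 → ∃ ξ ∈ V, γ ξ = p := by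
  have hcE : CompleteSpace E := FiniteDimensional.complete ℝ E
  have hcE' : CompleteSpace E' := FiniteDimensional.complete ℝ E'
  let A : E →ₗ[ℝ] E' := (fderiv ℝ L p0 : E →L[ℝ] E')
  have hA : LinearMap.range A = ⊤ := LinearMap.range_eq_top.2 hs
  have hk : finrank ℝ (LinearMap.ker A) + finrank ℝ E' = finrank ℝ E := by
    have h1 := LinearMap.finrank_range_add_finrank_ker A
    rw [hA, finrank_top] at h1
    omega
  refine ⟨finrank ℝ (LinearMap.ker A), hk, ?_⟩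
  obtain ⟨q, hq⟩ := LinearMap.exists_leftInverse_of_injective (LinearMap.ker A).subtype
    (Submodule.ker_subtype _)
  let e0 : LinearMap.ker A ≃ₗ[ℝ] (Fin (finrank ℝ (LinearMap.ker A)) → ℝ) :=
    LinearEquiv.ofFinrankEq _ _ (by simp)
  let P : E →L[ℝ] (Fin (finrank ℝ (LinearMap.ker A)) → ℝ) :=
    LinearMap.toContinuousLinearMap (e0.toLinearMap ∘ₗ q)
  have hP : ∀ u, fderiv ℝ L p0 u = 0 → P u = 0 → u = 0 := by
    intro u hu hPu
    have h1 : q u = 0 := by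
      have h2 : e0 (q u) = 0 := hPu
      exact e0.map_eq_zero_iff.1 h2
    have h3 : q ((LinearMap.ker A).subtype ⟨u, hu⟩) = ⟨u, hu⟩ :=
      LinearMap.congr_fun hq ⟨u, hu⟩
    rw [Submodule.subtype_apply, h1] at h3
    exact congrArg Subtype.val h3.symm
  let D : E →L[ℝ] E' × (Fin (finrank ℝ (LinearMap.ker A)) → ℝ) := (fderiv ℝ L p0).prod P
  have hD : Function.Injective (D : E →ₗ[ℝ] E' × (Fin (finrank ℝ (LinearMap.ker A)) → ℝ)) := by
    rw [injective_iff_map_eq_zero]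
    intro u hu
    have hu' : (fderiv ℝ L p0 u, P u) = 0 := hu
    rw [Prod.mk_eq_zero] at hu'
    exact hP u hu'.1 hu'.2
  let De : E ≃L[ℝ] E' × (Fin (finrank ℝ (LinearMap.ker A)) → ℝ) :=
    (LinearMap.linearEquivOfInjective _ hD (by
      rw [finrank_prod, finrank_pi, Fintype.card_fin]
      omega)).toContinuousLinearEquiv
  have hDe : (De : E →L[ℝ] E' × (Fin (finrank ℝ (LinearMap.ker A)) → ℝ)) = D := by
    ext u <;> rfl
  let Φ : E → E' × (Fin (finrank ℝ (LinearMap.ker A)) → ℝ) := fun p => (L p, P p)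
  have hΦ : ContDiffAt ℝ ∞ Φ p0 := hL.prodMk P.contDiff.contDiffAt
  have hΦ' : HasFDerivAt Φ (De : E →L[ℝ] E' × (Fin (finrank ℝ (LinearMap.ker A)) → ℝ)) p0 := by
    rw [hDe]
    exact ((hL.differentiableAt (by simp)).hasFDerivAt).prodMk P.hasFDerivAt
  have hn : (∞ : WithTop ℕ∞) ≠ 0 := by simp
  let e := hΦ.toOpenPartialHomeomorph Φ hΦ' hn
  have hecoe : ∀ p, e p = Φ p := fun p => by
    rw [hΦ.toOpenPartialHomeomorph_coe hΦ' hn]
  have hp0s : p0 ∈ e.source := hΦ.mem_toOpenPartialHomeomorph_source hΦ' hn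
  have hg : ContDiffAt ℝ ∞ e.symm (Φ p0) := hΦ.to_localInverse hΦ' hn
  have hg1 : ∀ᶠ y in 𝓝 (Φ p0), ContDiffAt ℝ 1 e.symm y :=
    (hg.of_le (by norm_cast)).eventually (by simp)
  have hΦ0 : e p0 = Φ p0 := hecoe p0
  have ht : e.target ∈ 𝓝 (Φ p0) := by
    rw [← hΦ0]
    exact e.open_target.mem_nhds (e.map_source hp0s)
  have hsymm : e.symm (Φ p0) = p0 := by
    rw [← hΦ0]
    exact e.left_inv hp0s
  have hgO : ∀ᶠ y in 𝓝 (Φ p0), e.symm y ∈ O := by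
    have h1 : Tendsto e.symm (𝓝 (Φ p0)) (𝓝 (e.symm (Φ p0))) := hg.continuousAt
    rw [hsymm] at h1
    exact h1 hO
  obtain ⟨W, hWsub, hWo, hW0⟩ := _root_.mem_nhds_iff.1 ((hg1.and hgO).and ht)
  refine ⟨{ξ | ((0 : E'), ξ) ∈ W}, fun ξ => e.symm ((0 : E'), ξ), ?_, ?_, ?_, ?_⟩
  · exact hWo.preimage (by fun_prop)
  · intro ξ hξ
    refine ContDiffAt.contDiffWithinAt ?_
    have h1 : ContDiffAt ℝ 1 e.symm ((0 : E'), ξ) := (hWsub hξ).1.1
    exact h1.comp ξ (f := fun ξ => ((0 : E'), ξ)) (by fun_prop)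
  · intro ξ hξ
    refine ⟨(hWsub hξ).1.2, ?_⟩
    have h1 : e (e.symm ((0 : E'), ξ)) = ((0 : E'), ξ) := e.right_inv (hWsub hξ).2
    rw [hecoe] at h1
    exact congrArg Prod.fst h1
  · refine ⟨e.source ∩ Φ ⁻¹' W, inter_mem (e.open_source.mem_nhds hp0s)
      (hΦ.continuousAt.preimage_mem_nhds (hWo.mem_nhds hW0)), ?_⟩
    rintro p ⟨hps, hpW⟩ hp
    have h1 : ((0 : E'), P p) = Φ p := by
      rw [← hp]
    refine ⟨P p, ?_, ?_⟩
    · change ((0 : E'), P p) ∈ W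
      rw [h1]
      exact hpW
    · change e.symm ((0 : E'), P p) = p
      rw [h1, ← hecoe]
      exact e.left_inv hps

theorem null_of_submersion (μ : Measure F) [μ.IsAddHaarMeasure] {L : E → E'} {π : E → F} {p0 : E}
    (hL : ContDiffAt ℝ ∞ L p0) (hs : Function.Surjective (fderiv ℝ L p0))
    (hπ : ContDiffAt ℝ ∞ π p0) (hd : finrank ℝ E < finrank ℝ E' + finrank ℝ F) :
    ∃ N ∈ 𝓝 p0, μ (π '' {p | p ∈ N ∧ L p = 0}) = 0 := by
  by_cases h0 : L p0 = 0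
  · have hO : {p | ContDiffAt ℝ 1 π p} ∈ 𝓝 p0 :=
      (hπ.of_le (by norm_cast)).eventually (by simp)
    obtain ⟨k, hk, V, γ, hV, hγ, hγO, N, hN, hNV⟩ := exists_param hL hs h0 hO
    refine ⟨N, hN, ?_⟩
    have h1 : ContDiffOn ℝ 1 (π ∘ γ) V := fun ξ hξ =>
      ContDiffAt.comp_contDiffWithinAt ξ (hγO ξ hξ).1 (hγ ξ hξ)
    have h2 : μ ((π ∘ γ) '' V) = 0 :=
      null_of_finrank_lt μ (by rw [finrank_pi, Fintype.card_fin]; omega) hV h1
    refine measure_mono_null ?_ h2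
    rintro _ ⟨p, ⟨hp, hp0⟩, rfl⟩
    obtain ⟨ξ, hξ, rfl⟩ := hNV p hp hp0
    exact ⟨ξ, hξ, rfl⟩
  · refine ⟨{p | L p ≠ 0}, hL.continuousAt.eventually_ne h0, ?_⟩
    have h1 : {p | p ∈ {p | L p ≠ 0} ∧ L p = 0} = ∅ := by
      ext p
      simp
    rw [h1, image_empty, measure_empty]

theorem sard_of_submersion (μ : Measure F) [μ.IsAddHaarMeasure] {L : E → E'} {π : E → F} {p0 : E}
    (hL : ContDiffAt ℝ ∞ L p0) (hs : Function.Surjective (fderiv ℝ L p0))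
    (hπ : ContDiffAt ℝ ∞ π p0) (hd : finrank ℝ E = finrank ℝ E' + finrank ℝ F) :
    ∃ N ∈ 𝓝 p0, μ (π '' {p | p ∈ N ∧ L p = 0 ∧
      ¬ ∀ w, ∃ u, fderiv ℝ L p u = 0 ∧ fderiv ℝ π p u = w}) = 0 := by
  by_cases h0 : L p0 = 0
  · have hO : {p | ContDiffAt ℝ 1 π p ∧ ContDiffAt ℝ 1 L p} ∈ 𝓝 p0 :=
      ((hπ.of_le (by norm_cast)).eventually (by simp)).and
        ((hL.of_le (by norm_cast)).eventually (by simp))
    obtain ⟨k, hk, V, γ, hV, hγ, hγO, N, hN, hNV⟩ := exists_param hL hs h0 hO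
    refine ⟨N, hN, ?_⟩
    have hγd : ∀ ξ ∈ V, DifferentiableAt ℝ γ ξ := fun ξ hξ =>
      ((hγ.differentiableOn (by simp)) ξ hξ).differentiableAt (hV.mem_nhds hξ)
    have hπd : ∀ ξ ∈ V, DifferentiableAt ℝ π (γ ξ) := fun ξ hξ =>
      (hγO ξ hξ).1.1.differentiableAt (by simp)
    have hLd : ∀ ξ ∈ V, DifferentiableAt ℝ L (γ ξ) := fun ξ hξ =>
      (hγO ξ hξ).1.2.differentiableAt (by simp)
    have h2 : μ ((π ∘ γ) '' {ξ | ξ ∈ V ∧ ¬ Function.Surjective (fderiv ℝ (π ∘ γ) ξ)}) = 0 := by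
      refine sard_equal μ (by rw [finrank_pi, Fintype.card_fin]; omega) (fun ξ hξ => ?_)
        fun ξ hξ => hξ.2
      exact (hπd ξ hξ.1).comp ξ (hγd ξ hξ.1)
    refine measure_mono_null ?_ h2
    rintro _ ⟨p, ⟨hp, hp0, hc⟩, rfl⟩
    obtain ⟨ξ, hξ, rfl⟩ := hNV p hp hp0
    refine ⟨ξ, ⟨hξ, fun hsur => hc fun w => ?_⟩, rfl⟩
    obtain ⟨v, hv⟩ := hsur w
    refine ⟨fderiv ℝ γ ξ v, ?_, ?_⟩
    · have h3 : fderiv ℝ (L ∘ γ) ξ = 0 := by
        have h4 : L ∘ γ =ᶠ[𝓝 ξ] fun _ => (0 : E') := by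
          filter_upwards [hV.mem_nhds hξ] with η hη
          exact (hγO η hη).2
        rw [h4.fderiv_eq]
        simp
      rw [fderiv_comp ξ (hLd ξ hξ) (hγd ξ hξ)] at h3
      have h5 := congrArg (fun T : (Fin k → ℝ) →L[ℝ] E' => T v) h3
      simpa using h5
    · rw [fderiv_comp ξ (hπd ξ hξ) (hγd ξ hξ)] at hv
      simpa using hv
  · refine ⟨{p | L p ≠ 0}, hL.continuousAt.eventually_ne h0, ?_⟩
    have h1 : {p | p ∈ {p | L p ≠ 0} ∧ L p = 0 ∧
        ¬ ∀ w, ∃ u, fderiv ℝ L p u = 0 ∧ fderiv ℝ π p u = w} = ∅ := by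
      ext p
      simp only [mem_ofPred_eq, mem_empty_iff_false, iff_false]
      exact fun h => h.1 h.2.1
    rw [h1, image_empty, measure_empty]

end Pool.Agent.Lib_MP_752436_ts
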