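import Pool.Agent.Lib_MP_752436_ts.TripleT

/-!
Piece G11: no quadruple points in almost every direction: (G-Q) in Blueprint.md. E = the product of four
copies of Plane, E' = Space × Space, F = Space, `null_of_submersion`.
-/

open MeasureTheory Metric Set Filter Module
open scoped ContDiff Topology

namespace Pool.Agent.Lib_MP_752436_ts

open Pool.Agent.Lib_MP_752436_gt Pool.Agent.Lib_MP_752436_tp Pool.Agent.Lib_MP_752436_rb

section Quad

variable {F : Plane → EuclideanSpace ℝ (Fin 4)}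

/-- The first two points. -/
private noncomputable def Quad_l1 : Plane × (Plane × (Plane × Plane)) →L[ℝ] Plane × Plane :=
  (ContinuousLinearMap.fst ℝ Plane (Plane × (Plane × Plane))).prod
    ((ContinuousLinearMap.fst ℝ Plane (Plane × Plane)).comp
      (ContinuousLinearMap.snd ℝ Plane (Plane × (Plane × Plane))))

/-- The first and the third point. -/
private noncomputable def Quad_l2 : Plane × (Plane × (Plane × Plane)) →L[ℝ] Plane × Plane :=
  (ContinuousLinearMap.fst ℝ Plane (Plane × (Plane × Plane))).prod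
    ((ContinuousLinearMap.fst ℝ Plane Plane).comp
      ((ContinuousLinearMap.snd ℝ Plane (Plane × Plane)).comp
        (ContinuousLinearMap.snd ℝ Plane (Plane × (Plane × Plane)))))

/-- The first and the fourth point. -/
private noncomputable def Quad_l3 : Plane × (Plane × (Plane × Plane)) →L[ℝ] Plane × Plane :=
  (ContinuousLinearMap.fst ℝ Plane (Plane × (Plane × Plane))).prod
    ((ContinuousLinearMap.snd ℝ Plane Plane).comp
      ((ContinuousLinearMap.snd ℝ Plane (Plane × Plane)).comp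
        (ContinuousLinearMap.snd ℝ Plane (Plane × (Plane × Plane)))))

private noncomputable def Quad_pi (F : Plane → EuclideanSpace ℝ (Fin 4)) :
    Plane × (Plane × (Plane × Plane)) → Space := fun p => pm F (Quad_l1 p)

private noncomputable def Quad_L (F : Plane → EuclideanSpace ℝ (Fin 4)) :
    Plane × (Plane × (Plane × Plane)) → Space × Space :=
  fun p => (pm F (Quad_l1 p) - pm F (Quad_l2 p), pm F (Quad_l1 p) - pm F (Quad_l3 p))

private theorem Quad_contDiffAt_pi (hF : ContDiff ℝ ∞ F) {p : Plane × (Plane × (Plane × Plane))}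
    (h : F p.1 3 ≠ F p.2.1 3) : ContDiffAt ℝ ∞ (Quad_pi F) p :=
  (contDiffAt_pm hF (p := Quad_l1 p) h).comp p Quad_l1.contDiff.contDiffAt

private theorem Quad_contDiffAt_L (hF : ContDiff ℝ ∞ F) {p : Plane × (Plane × (Plane × Plane))}
    (h : F p.1 3 ≠ F p.2.1 3) (h' : F p.1 3 ≠ F p.2.2.1 3) (h'' : F p.1 3 ≠ F p.2.2.2 3) :
    ContDiffAt ℝ ∞ (Quad_L F) p :=
  (((contDiffAt_pm hF (p := Quad_l1 p) h).comp p Quad_l1.contDiff.contDiffAt).sub
    ((contDiffAt_pm hF (p := Quad_l2 p) h').comp p Quad_l2.contDiff.contDiffAt)).prodMk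
  (((contDiffAt_pm hF (p := Quad_l1 p) h).comp p Quad_l1.contDiff.contDiffAt).sub
    ((contDiffAt_pm hF (p := Quad_l3 p) h'').comp p Quad_l3.contDiff.contDiffAt))

private theorem Quad_fderiv_L (hF : ContDiff ℝ ∞ F) {p : Plane × (Plane × (Plane × Plane))}
    (h : F p.1 3 ≠ F p.2.1 3) (h' : F p.1 3 ≠ F p.2.2.1 3) (h'' : F p.1 3 ≠ F p.2.2.2 3)
    (u : Plane × (Plane × (Plane × Plane))) :
    fderiv ℝ (Quad_L F) p u = (fderiv ℝ (pm F) (p.1, p.2.1) (u.1, u.2.1) -
      fderiv ℝ (pm F) (p.1, p.2.2.1) (u.1, u.2.2.1),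
      fderiv ℝ (pm F) (p.1, p.2.1) (u.1, u.2.1) -
      fderiv ℝ (pm F) (p.1, p.2.2.2) (u.1, u.2.2.2)) := by
  have h1 := ((contDiffAt_pm hF (p := Quad_l1 p) h).differentiableAt (by simp)).hasFDerivAt
  have h2 := h1.comp p Quad_l1.hasFDerivAt
  have h3 := ((contDiffAt_pm hF (p := Quad_l2 p) h').differentiableAt (by simp)).hasFDerivAt
  have h4 := h3.comp p Quad_l2.hasFDerivAt
  have h5 := ((contDiffAt_pm hF (p := Quad_l3 p) h'').differentiableAt (by simp)).hasFDerivAt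
  have h6 := h5.comp p Quad_l3.hasFDerivAt
  have h7 : fderiv ℝ (Quad_L F) p =
      ((fderiv ℝ (pm F) (Quad_l1 p)).comp Quad_l1 -
        (fderiv ℝ (pm F) (Quad_l2 p)).comp Quad_l2).prod
      ((fderiv ℝ (pm F) (Quad_l1 p)).comp Quad_l1 -
        (fderiv ℝ (pm F) (Quad_l3 p)).comp Quad_l3) :=
    ((h2.sub h4).prodMk (h2.sub h6)).fderiv
  rw [h7]
  rfl

end Quad

theorem ae_noQuad {F : Plane → EuclideanSpace ℝ (Fin 4)} (hF : IsSliceDisc F) :
    ∀ᵐ a : Space, ∀ x ∈ closedBall (0 : Plane) 1, ∀ y ∈ closedBall (0 : Plane) 1,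
      ∀ z ∈ closedBall (0 : Plane) 1, ∀ w ∈ closedBall (0 : Plane) 1,
      x ≠ y → x ≠ z → x ≠ w → y ≠ z → y ≠ w → z ≠ w → proj F a x = proj F a y →
      proj F a x = proj F a z → proj F a x ≠ proj F a w := by
  have hs := hF.smooth
  set S : Set (Plane × (Plane × (Plane × Plane))) := {p | F p.1 3 ≠ F p.2.1 3 ∧
    F p.1 3 ≠ F p.2.2.1 3 ∧ F p.1 3 ≠ F p.2.2.2 3 ∧ Quad_L F p = 0 ∧
    TripleReg (proj F (Quad_pi F p)) p.2.1 p.2.2.1 p.2.2.2} with hS
  have hnull : volume (Quad_pi F '' S) = 0 := by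
    refine null_of_locally volume fun p hp => ?_
    obtain ⟨h1, h2, h3, h4, h5⟩ := hp
    have h4' : pm F (p.1, p.2.1) - pm F (p.1, p.2.2.1) = 0 ∧
        pm F (p.1, p.2.1) - pm F (p.1, p.2.2.2) = 0 := Prod.mk_eq_zero.1 h4
    have hpm : pm F (p.1, p.2.1) = pm F (p.1, p.2.2.1) := sub_eq_zero.1 h4'.1
    have hpm' : pm F (p.1, p.2.1) = pm F (p.1, p.2.2.2) := sub_eq_zero.1 h4'.2
    have hpi : Quad_pi F p = pm F (p.1, p.2.1) := rfl
    have hsur : Function.Surjective (fderiv ℝ (Quad_L F) p) := by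
      rintro ⟨t, t'⟩
      obtain ⟨b, c, d, hbc, hbd⟩ := h5 t t'
      refine ⟨((0 : Plane), ((F p.2.1 3 - F p.1 3) • b, ((F p.2.2.1 3 - F p.1 3) • c,
        (F p.2.2.2 3 - F p.1 3) • d))), ?_⟩
      rw [Quad_fderiv_L hs h1 h2 h3, fderiv_pm hs h1, fderiv_pm hs h2, fderiv_pm hs h3, ← hpm,
        ← hpm', ← hpi]
      have e1 : F p.2.1 3 - F p.1 3 ≠ 0 := sub_ne_zero.2 (Ne.symm h1)
      have e2 : F p.2.2.1 3 - F p.1 3 ≠ 0 := sub_ne_zero.2 (Ne.symm h2)
      have e3 : F p.2.2.2 3 - F p.1 3 ≠ 0 := sub_ne_zero.2 (Ne.symm h3)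
      simp only [map_zero, map_smul, zero_sub, smul_neg, smul_smul, sub_neg_eq_add]
      rw [inv_mul_cancel₀ e1, inv_mul_cancel₀ e2, inv_mul_cancel₀ e3, one_smul, one_smul,
        one_smul, ← hbc, ← hbd]
      refine Prod.ext ?_ ?_
      · simp only
        abel
      · simp only
        abel
    obtain ⟨N, hN, hN0⟩ := null_of_submersion volume (Quad_contDiffAt_L hs h1 h2 h3) hsur
      (Quad_contDiffAt_pi hs h1) (by
        rw [finrank_prod, finrank_prod, finrank_prod, finrank_prod, finrank_euclideanSpace_fin,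
          finrank_euclideanSpace_fin]
        norm_num)
    refine ⟨N, hN, measure_mono_null (image_mono ?_) hN0⟩
    rintro q ⟨⟨-, -, -, q4, -⟩, hqN⟩
    exact ⟨hqN, q4⟩
  have hnull' : ∀ᵐ a : Space, a ∉ Quad_pi F '' S := measure_eq_zero_iff_ae_notMem.1 hnull
  filter_upwards [ae_tripleReg hF, hnull'] with a ha1 ha2
  intro x hx y hy z hz w hw hxy hxz hxw hyz hyw hzw exy exz exw
  have hxy3 := height_ne_of_proj hF hx hy hxy exy
  have hxz3 := height_ne_of_proj hF hx hz hxz exz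
  have hxw3 := height_ne_of_proj hF hx hw hxw exw
  have e1 : pm F (x, y) = a := (proj_eq_iff hxy3).1 exy
  have e2 : pm F (x, z) = a := (proj_eq_iff hxz3).1 exz
  have e3 : pm F (x, w) = a := (proj_eq_iff hxw3).1 exw
  have hT := ha1 y hy z hz w hw hyz hyw hzw (exy.symm.trans exz) (exy.symm.trans exw)
  apply ha2
  refine ⟨(x, (y, (z, w))), ⟨hxy3, hxz3, hxw3, ?_, ?_⟩, e1⟩
  · change (pm F (x, y) - pm F (x, z), pm F (x, y) - pm F (x, w)) = 0
    rw [e1, e2, e3, sub_self]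
    rfl
  · change TripleReg (proj F (pm F (x, y))) y z w
    rw [e1]
    exact hT

end Pool.Agent.Lib_MP_752436_ts
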