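import Pool.Agent.Lib_MP_752436_ts.CapBox
import Pool.Agent.Lib_MP_752436_tp.OneDim
import Pool.Agent.Lib_MP_752436_tp.Orbit
import Pool.Agent.Lib_MP_752436_tp.FrontierCurve

/-!
Piece V6 (port of mv/Reg.lean): regularisation of traps, and the pairs over the frontier form closed
curves. In the port `F, s` become `m, z, R`; instead of the height condition use `Z ⊆ R`, `R` compact.
-/

open Metric Set Filter
open scoped ContDiff Topology

namespace Pool.Agent.Lib_MP_752436_ts

open Pool.Agent.Lib_MP_752436_gt Pool.Agent.Lib_MP_752436_tp Pool.Agent.Lib_MP_752436_rb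
open Pool.Agent.Lib_MP_752436_mv (flipSet cap_isolated)

/-- A regular trap: every frontier point is the upper point over an interior point. -/
structure RegTrap (m : Plane → Space) (z : Plane → ℝ) (R Z : Set Plane) : Prop where
  compact : IsCompact Z
  nonempty : Z.Nonempty
  sub : Z ⊆ R
  above : ∀ x ∈ frontier Z, ∃ y ∈ interior Z, (x, y) ∈ Over m z R
  reg : Z ⊆ closure (interior Z)
  free : Disjoint Z (bottoms m z R)

/-- The pairs over the frontier. -/
def overFrontier (m : Plane → Space) (z : Plane → ℝ) (R Z : Set Plane) : Set (Plane × Plane) :=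
  {c | c ∈ Over m z R ∧ c.1 ∈ frontier Z ∧ c.2 ∈ Z}

theorem reg_below {m : Plane → Space} {z : Plane → ℝ} (hg : Gen m) {R : Set Plane}
    (hR : R ⊆ closedBall (0 : Plane) 1) {Z : Set Plane} (hZ : IsLTrap m z R Z)
    (hm : Disjoint Z (bottoms m z R)) {p q : Plane} (hpq : (p, q) ∈ Over m z R) (hq : q ∈ Z) :
    q ∈ interior Z := by
  by_contra hni
  obtain ⟨y, hy, hqy⟩ := hZ.above q ⟨subset_closure hq, hni⟩ (hg.inj_snd hR hpq)
  exact Set.disjoint_left.1 hm hy ⟨p, q, hpq, hqy⟩

theorem reg_interior_nonempty {m : Plane → Space} {z : Plane → ℝ} (hE : Emb m z) (hg : Gen m)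
    {R : Set Plane} (hR : R ⊆ closedBall (0 : Plane) 1) {Z : Set Plane}
    (hZ : IsLTrap m z R Z) (hm : Disjoint Z (bottoms m z R)) : (interior Z).Nonempty := by
  by_contra hne
  rw [not_nonempty_iff_eq_empty] at hne
  have hcap : ∀ x ∈ Z, ¬ Function.Injective (fderiv ℝ m x) := by
    intro x hx hinj
    obtain ⟨y, hy, hzy⟩ := hZ.above x ⟨subset_closure hx, by rw [hne]; exact notMem_empty x⟩ hinj
    have := reg_below hg hR hZ hm hzy hy
    rw [hne] at this
    exact this
  obtain ⟨x, hx⟩ := hZ.nonempty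
  have hxD := hR (hZ.sub hx)
  obtain ⟨k, hk, hk0, -, hW⟩ := exists_kernel hE hg hxD (hcap x hx)
  obtain ⟨δ, hδ, hiso⟩ := cap_isolated hE.smm hk hk0 hW
  obtain ⟨y, hy, hyx⟩ := Metric.mem_closure_iff.1 (hZ.cap x hx (hcap x hx)) δ hδ
  refine hy.2 (hiso y ?_ (hcap y hy.1))
  rw [mem_ball, dist_comm]
  exact hyx

/-- The closure of the interior of a trap without bottom points is a regular trap. -/
theorem IsLTrap.regTrap {m : Plane → Space} {z : Plane → ℝ} (hE : Emb m z) (hg : Gen m)
    {R : Set Plane} (hR : R ⊆ closedBall (0 : Plane) 1) {Z : Set Plane}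
    (hZ : IsLTrap m z R Z) (hm : Disjoint Z (bottoms m z R)) :
    RegTrap m z R (closure (interior Z)) := by
  have hsub : closure (interior Z) ⊆ Z :=
    closure_minimal interior_subset hZ.compact.isClosed
  have hint : interior Z ⊆ interior (closure (interior Z)) :=
    interior_maximal subset_closure isOpen_interior
  have hfr : frontier (closure (interior Z)) ⊆ frontier Z :=
    frontier_closure_subset.trans frontier_interior_subset
  have habove : ∀ x ∈ frontier (closure (interior Z)),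
      Function.Injective (fderiv ℝ m x) →
      ∃ y ∈ interior (closure (interior Z)), (x, y) ∈ Over m z R := by
    intro x hx hinj
    obtain ⟨y, hy, hxy⟩ := hZ.above x (hfr hx) hinj
    exact ⟨y, hint (reg_below hg hR hZ hm hxy hy), hxy⟩
  refine ⟨hZ.compact.of_isClosed_subset isClosed_closure hsub,
    (reg_interior_nonempty hE hg hR hZ hm).closure, hsub.trans hZ.sub, ?_,
    closure_mono hint, hm.mono_left hsub⟩
  intro x hx
  refine habove x hx ?_
  by_contra hcap
  have hxZ : x ∈ closure (interior Z) := by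
    have := frontier_subset_closure hx
    rwa [isClosed_closure.closure_eq] at this
  have hxD := hR (hZ.sub (hsub hxZ))
  refine cap_notMem_frontier hE hg hR hxD hcap isClosed_closure (closure_mono hint) ?_ hx
  intro y hy hinj
  obtain ⟨w, -, hw⟩ := habove y hy hinj
  exact ⟨w, hw⟩

section Reg

variable {m : Plane → Space} {z : Plane → ℝ} {R Z : Set Plane}
  {v : Plane × Plane → Plane × Plane} {Φ : ℝ → Plane × Plane → Plane × Plane}

theorem RegTrap.frontier_subset (hZ : RegTrap m z R Z) : frontier Z ⊆ Z := by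
  have := frontier_subset_closure (s := Z)
  rwa [hZ.compact.isClosed.closure_eq] at this

theorem RegTrap.snd_interior (hZ : RegTrap m z R Z) {p q : Plane} (hpq : (p, q) ∈ Over m z R)
    (hq : q ∈ Z) : q ∈ interior Z := by
  by_contra hni
  obtain ⟨y, hy, hqy⟩ := hZ.above q ⟨subset_closure hq, hni⟩
  exact Set.disjoint_left.1 hZ.free (interior_subset hy) ⟨p, q, hpq, hqy⟩

/-- Two points of the trap below the same point coincide. -/
theorem RegTrap.unique (hE : Emb m z) (hR : R ⊆ closedBall (0 : Plane) 1) (hZ : RegTrap m z R Z)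
    {p q q' : Plane} (h : (p, q) ∈ Over m z R) (h' : (p, q') ∈ Over m z R) (hq : q ∈ Z)
    (hq' : q' ∈ Z) : q = q' := by
  by_contra hne
  have hm : m q = m q' := h.2.2.1.symm.trans h'.2.2.1
  rcases over_total hE hR h.2.1 h'.2.1 hne hm with h1 | h1
  · exact Set.disjoint_left.1 hZ.free hq' ⟨p, q, h, h1⟩
  · exact Set.disjoint_left.1 hZ.free hq ⟨p, q', h', h1⟩

theorem RegTrap.isCompact_overFrontier (hE : Emb m z) (hg : Gen m)
    (hR : R ⊆ closedBall (0 : Plane) 1) (hZ : RegTrap m z R Z) :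
    IsCompact (overFrontier m z R Z) := by
  have hfc : IsCompact (frontier Z) :=
    hZ.compact.of_isClosed_subset isClosed_frontier hZ.frontier_subset
  refine (hfc.prod hZ.compact).of_isClosed_subset ?_ (fun c hc => ⟨hc.2.1, hc.2.2⟩)
  refine isClosed_of_closure_subset fun c hc => ?_
  have hmc : Continuous m := hE.smm.continuous
  have hzc : Continuous z := hE.smz.continuous
  have hcl : closure (overFrontier m z R Z) ⊆ {c : Plane × Plane | (c.1 ∈ frontier Z ∧ c.2 ∈ Z) ∧
      m c.1 = m c.2 ∧ z c.2 ≤ z c.1} := by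
    refine closure_minimal (fun c hc => ⟨hc.2, hc.1.2.2.1, hc.1.2.2.2.le⟩) ?_
    exact ((isClosed_frontier.preimage continuous_fst).inter
      (hZ.compact.isClosed.preimage continuous_snd)).inter
      ((isClosed_eq (hmc.comp continuous_fst) (hmc.comp continuous_snd)).inter
      (isClosed_le (hzc.comp continuous_snd) (hzc.comp continuous_fst)))
  obtain ⟨⟨h1, h2⟩, h3, h4⟩ := hcl hc
  obtain ⟨y, -, hy⟩ := hZ.above c.1 h1
  have hinj := hg.inj_fst hR hy
  have h1R := hZ.sub (hZ.frontier_subset h1)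
  have h2R := hZ.sub h2
  refine ⟨⟨h1R, h2R, h3, lt_of_le_of_ne h4 fun h5 => ?_⟩, h1, h2⟩
  have hcc : c.1 = c.2 := hE.inj _ (hR h1R) _ (hR h2R) h3 h5.symm
  obtain ⟨N, hN, hNinj⟩ := eventually_injOn_of_strict
    ((hE.smm.contDiffAt (x := c.1)).hasStrictFDerivAt (by simp)) hinj
  have hO : N ×ˢ N ∈ 𝓝 c := by
    rw [show c = (c.1, c.2) from rfl, ← hcc]
    exact prod_mem_nhds hN hN
  obtain ⟨e, heO, heD⟩ := mem_closure_iff_nhds.mp hc _ hO
  exact Over.ne heD.1 (hNinj heO.1 heO.2 heD.1.2.2.1)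

theorem reg_continuous_flow (h : CutFlow m v Φ) (c : Plane × Plane) :
    Continuous fun t => Φ t c :=
  continuous_iff_continuousAt.mpr fun t => (h.flow.deriv c t).continuousAt

theorem reg_field_eq (h : CutFlow m v Φ) (hR : R ⊆ closedBall (0 : Plane) 1) {c : Plane × Plane}
    (hc : c ∈ Over m z R) : v c = field m c :=
  h.agree c (mem_ball.mpr ((mem_closedBall.mp (hR hc.1)).trans_lt (by norm_num)))
    (mem_ball.mpr ((mem_closedBall.mp (hR hc.2.1)).trans_lt (by norm_num)))

theorem reg_kernel (hg : Gen m) (hR : R ⊆ closedBall (0 : Plane) 1) {c : Plane × Plane}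
    (hc : c ∈ Over m z R) : (field m c).1 ≠ 0 ∧ (field m c).2 ≠ 0 :=
  let h := field_kernel (hg.inj_fst hR hc) (hg.inj_snd hR hc) (hg.double' hR hc)
  ⟨h.1, h.2.1⟩

theorem reg_flowBox (hE : Emb m z) (hg : Gen m) (hR : R ⊆ closedBall (0 : Plane) 1)
    (h : CutFlow m v Φ) {c : Plane × Plane} (hc : c ∈ Over m z R) {η : ℝ} (hη : 0 < η) :
    ∃ O ∈ 𝓝 c, ∀ p ∈ O, m p.1 = m p.2 → ∃ t, |t| < η ∧ Φ t c = p :=
  flowBox hE.smm h (hR hc.1) (hR hc.2.1) hc.2.2.1 (hg.inj_fst hR hc) (hg.inj_snd hR hc)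
    (hg.double' hR hc) hη

/-- Near a frontier point the frontier is contained in the upper curve. -/
theorem RegTrap.frontier_local (hE : Emb m z) (hg : Gen m) (hR : R ⊆ closedBall (0 : Plane) 1)
    (h : CutFlow m v Φ) (hZ : RegTrap m z R Z) {c : Plane × Plane}
    (hc : c ∈ overFrontier m z R Z) {η : ℝ} (hη : 0 < η) :
    ∃ O ∈ 𝓝 c.1, frontier Z ∩ O ⊆ (fun t => (Φ t c).1) '' Ioo (-η) η := by
  obtain ⟨O2, hO2, hbox⟩ := reg_flowBox hE hg hR h hc.1 hη
  set C : Set (Plane × Plane) := overFrontier m z R Z \ interior O2 with hC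
  have hCc : IsCompact C := (hZ.isCompact_overFrontier hE hg hR).diff isOpen_interior
  have hCp : c.1 ∉ Prod.fst '' C := by
    rintro ⟨⟨x, q⟩, ⟨hq1, hq2⟩, hxt⟩
    simp only at hxt
    subst hxt
    have hqe : q = c.2 := hZ.unique hE hR hq1.1 hc.1 hq1.2.2 hc.2.2
    apply hq2
    rw [hqe]
    exact mem_interior_iff_mem_nhds.2 hO2
  refine ⟨(Prod.fst '' C)ᶜ, (hCc.image continuous_fst).isClosed.isOpen_compl.mem_nhds hCp, ?_⟩
  rintro x ⟨hx1, hx2⟩
  obtain ⟨q, hq, hxq⟩ := hZ.above x hx1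
  have hmem : ((x, q) : Plane × Plane) ∈ O2 := by
    by_contra hcon
    exact hx2 ⟨(x, q), ⟨⟨hxq, hx1, interior_subset hq⟩,
      fun h' => hcon (interior_subset h')⟩, rfl⟩
  obtain ⟨t', ht', hct'⟩ := hbox (x, q) hmem hxq.2.2.1
  exact ⟨t', abs_lt.1 ht', by show (Φ t' c).1 = x; rw [hct']⟩

theorem RegTrap.stay (hE : Emb m z) (hg : Gen m) (hR : R ⊆ closedBall (0 : Plane) 1)
    (h : CutFlow m v Φ) (hZ : RegTrap m z R Z) {c : Plane × Plane}
    (hc : c ∈ overFrontier m z R Z) :
    ∃ η > 0, ∀ t, |t| < η → Φ t c ∈ overFrontier m z R Z := by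
  have hcont := reg_continuous_flow h c
  have hΦ0 : Φ 0 c = c := h.flow.zero c
  have hzc : Continuous z := hE.smz.continuous
  -- the upper point stays in the frontier
  have hv : (v c).1 ≠ 0 := by
    rw [reg_field_eq h hR hc.1]
    exact (reg_kernel hg hR hc.1).1
  have hsm : ContDiff ℝ 1 (fun t => (Φ t c).1) := by
    have hd : ∀ t, HasDerivAt (fun t => (Φ t c).1) (v (Φ t c)).1 t := fun t =>
      (h.flow.deriv c t).fst
    rw [contDiff_one_iff_deriv]
    refine ⟨fun t => (hd t).differentiableAt, ?_⟩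
    have : deriv (fun t => (Φ t c).1) = fun t => (v (Φ t c)).1 := funext fun t => (hd t).deriv
    rw [this]
    exact continuous_fst.comp (h.smooth.continuous.comp hcont)
  have hd0 : deriv (fun t => (Φ t c).1) 0 ≠ 0 := by
    have hd : HasDerivAt (fun t => (Φ t c).1) (v (Φ 0 c)).1 0 := (h.flow.deriv c 0).fst
    rw [hd.deriv, hΦ0]
    exact hv
  obtain ⟨ν, hν⟩ := exists_det2_ne hd0
  obtain ⟨η1, hη1, -, hbox⟩ := exists_sideBox hsm hν one_pos
  obtain ⟨O, hO, hfO⟩ := hZ.frontier_local hE hg hR h hc hη1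
  obtain ⟨η, hη, -, N, P, M, hb, hsN, hNO, hNA, -⟩ := hbox O (by simp only [hΦ0]; exact hO)
  have hfr : ∀ t, |t| < η → (Φ t c).1 ∈ frontier Z := by
    have hside := side_argument (V := interior Z) (W := Zᶜ) hb isOpen_interior
      hZ.compact.isClosed.isOpen_compl
      (Set.disjoint_left.2 fun x hx hx' => hx' (interior_subset hx)) hsN
      (by
        simp only [hΦ0]
        exact hZ.reg (hZ.frontier_subset hc.2.1))
      (by
        simp only [hΦ0]
        rw [closure_compl]
        exact hc.2.1.2)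
      (by
        intro x hx
        refine hNA ⟨hx.2, ?_⟩
        have h1 := hfO ⟨frontier_interior_subset hx.1, hNO hx.2⟩
        simpa using h1)
    intro t ht
    refine frontier_interior_subset (hside.1 ⟨t, ?_, rfl⟩)
    rw [abs_lt] at ht
    exact ⟨by linarith [ht.1], by linarith [ht.2]⟩
  -- the lower point stays in the interior
  have hint : ∀ᶠ t in 𝓝 (0 : ℝ), (Φ t c).2 ∈ interior Z := by
    refine (continuous_snd.comp hcont).continuousAt.eventually_mem
      (isOpen_interior.mem_nhds ?_)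
    simp only [Function.comp, hΦ0]
    exact hZ.snd_interior hc.1 hc.2.2
  have hord : ∀ᶠ t in 𝓝 (0 : ℝ), z (Φ t c).2 < z (Φ t c).1 := by
    have hd : ContinuousAt (fun t => z (Φ t c).1 - z (Φ t c).2) 0 :=
      ((hzc.comp (continuous_fst.comp hcont)).sub
        (hzc.comp (continuous_snd.comp hcont))).continuousAt
    have h0 : (0 : ℝ) < z (Φ 0 c).1 - z (Φ 0 c).2 := by
      rw [hΦ0]
      linarith [hc.1.2.2.2]
    filter_upwards [hd.eventually (lt_mem_nhds h0)] with t ht
    linarith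
  obtain ⟨η2, hη2, hη3⟩ := Metric.eventually_nhds_iff.mp (hint.and hord)
  refine ⟨min η η2, lt_min hη hη2, fun t ht => ?_⟩
  have h1 := hfr t (ht.trans_le (min_le_left _ _))
  obtain ⟨h2, h3⟩ := hη3 (y := t) (by
    rw [Real.dist_eq, sub_zero]
    exact ht.trans_le (min_le_right _ _))
  have h4 := hZ.sub (hZ.frontier_subset h1)
  have h6 := hZ.sub (interior_subset h2)
  have h7 := CutFlow.const hE.smm h c t
  rw [hc.1.2.2.1, sub_self] at h7
  exact ⟨⟨h4, h6, sub_eq_zero.mp h7, h3⟩, h1, interior_subset h2⟩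

theorem RegTrap.oneDim (hE : Emb m z) (hg : Gen m) (hR : R ⊆ closedBall (0 : Plane) 1)
    (h : CutFlow m v Φ) (hZ : RegTrap m z R Z) : OneDim (overFrontier m z R Z) ∅ Φ where
  compact := hZ.isCompact_overFrontier hE hg hR
  sub := empty_subset _
  zero := h.flow.zero
  add := h.flow.add
  cont := reg_continuous_flow h
  box := by
    intro c hc η hη
    obtain ⟨O, hO, hbox⟩ := reg_flowBox hE hg hR h hc.1 hη
    exact ⟨O, hO, fun p hp => hbox p hp.2 hp.1.1.2.2.1⟩
  stay := fun c hc => hZ.stay hE hg hR h hc.1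
  bd := fun c hc => absurd hc (notMem_empty c)
  move := by
    intro c hc
    have h1 := h.flow.deriv c 0
    rw [h.flow.zero] at h1
    have hne : v c ≠ 0 := by
      rw [reg_field_eq h hR hc.1]
      intro h0
      exact (reg_kernel hg hR hc.1).1 (by rw [h0]; rfl)
    have h2 := h1.eventually_ne (c := c) hne
    obtain ⟨η, hη, hη2⟩ := Metric.eventually_nhds_iff.mp (eventually_nhdsWithin_iff.mp h2)
    exact ⟨η, hη, fun t ht0 ht => hη2 (y := t) (by simpa [Real.dist_eq] using ht)
      (abs_pos.mp ht0)⟩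

end Reg

/-- The orbit of a pair over the frontier is periodic and consists of pairs over the frontier. (State
it as in mv/Reg.lean: `RegTrap.periodic`.) -/
theorem RegTrap.periodic {m : Plane → Space} {z : Plane → ℝ} (hE : Emb m z) (hg : Gen m)
    {R : Set Plane} (hR : R ⊆ ball (0 : Plane) 1) (hRc : IsCompact R)
    {v : Plane × Plane → Plane × Plane}
    {Φ : ℝ → Plane × Plane → Plane × Plane} (h : CutFlow m v Φ) {Z : Set Plane}
    (hZ : RegTrap m z R Z) {c : Plane × Plane} (hc : c ∈ overFrontier m z R Z) :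
    (∃ T > 0, Φ T c = c) ∧ ∀ t, Φ t c ∈ overFrontier m z R Z := by
  rcases orbit_classification (hZ.oneDim hE hg (hR.trans ball_subset_closedBall) h) hc with
    ⟨L, hL, hLc, -, hD⟩ | ⟨a, b, -, -, -, ha, -⟩
  · exact ⟨⟨L, hL, hLc⟩, fun t => (hD t).1⟩
  · exact absurd ha (notMem_empty _)

end Pool.Agent.Lib_MP_752436_ts
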