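import Pool.Agent.Lib_MP_752436_ts.SardCrit

/-!
Piece G4: the induction step of Sard's theorem. `SardFor.congr`: f' : E' -> F' is e' o f o e^{-1}; the
image measure of a Haar measure under a linear equivalence is a Haar measure.
`sardFor_step`: f : R x E -> R x F smooth on U. The points with fderiv f x = 0: `null_critical_one`.
Otherwise (`null_of_locally`): after linear changes of coordinates in source and target the derivative
maps (1, 0) to (1, 0), so h (t, xi) = (first component of f, xi) is a local diffeomorphism with local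
inverse k, and f o k = (tau, g(tau, xi)). In a compact ball the critical points S are compact, every
slice of f(S) is contained in the image under g(tau, .) of its critical points, so it is null by
`h : SardFor E F`, and f(S) is null for the product measure.
-/

open MeasureTheory Metric Set Filter Module
open scoped ContDiff Topology NNReal ENNReal

namespace Pool.Agent.Lib_MP_752436_ts

/-- Sard's theorem for smooth maps from open subsets of `E` to `F`. -/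
def SardFor (E F : Type) [NormedAddCommGroup E] [NormedSpace ℝ E] [NormedAddCommGroup F]
    [NormedSpace ℝ F] [MeasurableSpace F] : Prop :=
  ∀ (μ : Measure F) [μ.IsAddHaarMeasure] (U : Set E) (f : E → F), IsOpen U →
    ContDiffOn ℝ ∞ f U → μ (f '' {x | x ∈ U ∧ ¬ Function.Surjective (fderiv ℝ f x)}) = 0

variable {E F : Type} [NormedAddCommGroup E] [NormedSpace ℝ E] [FiniteDimensional ℝ E]
  [NormedAddCommGroup F] [NormedSpace ℝ F] [FiniteDimensional ℝ F] [MeasurableSpace F]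
  [BorelSpace F]

theorem SardFor.congr {E' F' : Type} [NormedAddCommGroup E'] [NormedSpace ℝ E']
    [NormedAddCommGroup F'] [NormedSpace ℝ F'] [MeasurableSpace F'] [BorelSpace F']
    (e : E ≃L[ℝ] E') (e' : F ≃L[ℝ] F') (h : SardFor E F) : SardFor E' F' := by
  intro μ _ U f hU hf
  have h1 := h (μ.map e'.symm) (e ⁻¹' U) (e'.symm ∘ f ∘ e) (hU.preimage e.continuous)
    (e'.symm.contDiff.comp_contDiffOn (hf.comp e.contDiff.contDiffOn fun x hx => hx))
  have hme : MeasurableEmbedding (e'.symm : F' → F) :=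
    e'.symm.toHomeomorph.measurableEmbedding
  rw [hme.map_apply] at h1
  refine measure_mono_null ?_ h1
  rintro _ ⟨x, ⟨hxU, hx⟩, rfl⟩
  refine ⟨e.symm x, ⟨by simpa using hxU, ?_⟩, by simp⟩
  intro hs
  apply hx
  have h2 : fderiv ℝ (e'.symm ∘ f ∘ e) (e.symm x)
      = (e'.symm : F' →L[ℝ] F) ∘L ((fderiv ℝ f x) ∘L (e : E →L[ℝ] E')) := by
    rw [e'.symm.comp_fderiv, e.comp_right_fderiv]
    simp
  rw [h2] at hs
  intro y
  obtain ⟨w, hw⟩ := hs (e'.symm y)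
  refine ⟨e w, ?_⟩
  have : e'.symm (fderiv ℝ f x (e w)) = e'.symm y := hw
  exact e'.symm.injective this

/-- Non surjective maps form a closed set. -/
theorem isClosed_not_surjective {E F : Type} [NormedAddCommGroup E] [NormedSpace ℝ E]
    [FiniteDimensional ℝ E] [NormedAddCommGroup F] [NormedSpace ℝ F] [FiniteDimensional ℝ F] :
    IsClosed {D : E →L[ℝ] F | ¬ Function.Surjective D} := by
  rw [← isOpen_compl_iff]
  have h := isOpen_setOfPred_nat_le_rank (𝕜 := ℝ) (E := E) (F := F) (finrank ℝ F)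
  convert h using 1
  ext D
  rw [mem_compl_iff, mem_ofPred_eq, not_not, mem_ofPred_eq, LinearMap.rank, ← finrank_eq_rank,
    Nat.cast_le]
  constructor
  · intro hs
    have h1 : LinearMap.range (D : E →ₗ[ℝ] F) = ⊤ := LinearMap.range_eq_top.2 hs
    rw [h1, finrank_top]
  · intro hs
    have h1 : LinearMap.range (D : E →ₗ[ℝ] F) = ⊤ :=
      Submodule.eq_top_of_finrank_eq (le_antisymm (Submodule.finrank_le _) hs)
    exact LinearMap.range_eq_top.1 h1

/-- The local statement when the derivative maps `(1, 0)` to `(1, 0)`. -/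
theorem step_local (h : SardFor E F) (μ : Measure (ℝ × F)) [μ.IsAddHaarMeasure]
    {U : Set (ℝ × E)} (hU : IsOpen U) {f : ℝ × E → ℝ × F} (hf : ContDiffOn ℝ ∞ f U)
    {y₀ : ℝ × E} (hy₀ : y₀ ∈ U) (h1 : fderiv ℝ f y₀ (1, 0) = (1, 0)) :
    ∃ N ∈ 𝓝 y₀, μ (f '' ({x | x ∈ U ∧ ¬ Function.Surjective (fderiv ℝ f x)} ∩ N)) = 0 := by
  classical
  -- the straightening map
  set g : ℝ × E → ℝ × E := fun y => ((f y).1, y.2) with hgdef
  have hfd : ∀ y ∈ U, HasFDerivAt f (fderiv ℝ f y) y := fun y hy =>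
    ((hf.contDiffAt (hU.mem_nhds hy)).differentiableAt (by simp)).hasFDerivAt
  have hfc : ∀ y ∈ U, ContDiffAt ℝ ∞ f y := fun y hy => hf.contDiffAt (hU.mem_nhds hy)
  have hgc : ∀ y ∈ U, ContDiffAt ℝ ∞ g y := fun y hy =>
    (contDiffAt_fst.comp y (hfc y hy)).prodMk contDiffAt_snd
  set L : ℝ × E → (ℝ × E →L[ℝ] ℝ × E) := fun y =>
    ((ContinuousLinearMap.fst ℝ ℝ F) ∘L (fderiv ℝ f y)).prod (ContinuousLinearMap.snd ℝ ℝ E)
    with hLdef
  have hgd : ∀ y ∈ U, HasFDerivAt g (L y) y := fun y hy =>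
    ((ContinuousLinearMap.fst ℝ ℝ F).hasFDerivAt.comp y (hfd y hy)).prodMk hasFDerivAt_snd
  have hLinj : ∀ y, (fderiv ℝ f y (1, 0)).1 ≠ 0 → Function.Injective (L y) := by
    intro y hy
    rw [injective_iff_map_eq_zero]
    rintro ⟨t, ξ⟩ ht
    have h2 : (fderiv ℝ f y (t, ξ)).1 = 0 := congrArg Prod.fst ht
    have h3 : ξ = 0 := congrArg Prod.snd ht
    subst h3
    have h4 : ((t, 0) : ℝ × E) = t • (1, 0) := by simp
    rw [h4, map_smul] at h2
    have h5 : t * (fderiv ℝ f y (1, 0)).1 = 0 := by simpa using h2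
    rcases mul_eq_zero.1 h5 with h6 | h6
    · rw [h6]; rfl
    · exact absurd h6 hy
  have hLe : ∀ y, (fderiv ℝ f y (1, 0)).1 ≠ 0 →
      ∃ e : (ℝ × E) ≃L[ℝ] (ℝ × E), (e : ℝ × E →L[ℝ] ℝ × E) = L y := by
    intro y hy
    refine ⟨(LinearEquiv.ofInjectiveEndo (L y : ℝ × E →ₗ[ℝ] ℝ × E)
      (hLinj y hy)).toContinuousLinearEquiv, ?_⟩
    ext v <;> rfl
  obtain ⟨e₀, he₀⟩ := hLe y₀ (by rw [h1]; norm_num)
  have hgd₀ : HasFDerivAt g (e₀ : ℝ × E →L[ℝ] ℝ × E) y₀ := by rw [he₀]; exact hgd y₀ hy₀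
  set Φ := (hgc y₀ hy₀).toOpenPartialHomeomorph g hgd₀ (by simp) with hΦ
  have hΦg : ∀ y, Φ y = g y := fun y => rfl
  have hfdc : ContinuousOn (fun y => (fderiv ℝ f y (1, 0)).1) U := by
    have := hf.continuousOn_fderiv_of_isOpen hU (by simp)
    exact continuous_fst.comp_continuousOn (this.clm_apply continuousOn_const)
  set W : Set (ℝ × E) := Φ.source ∩ (U ∩ {y | (fderiv ℝ f y (1, 0)).1 ≠ 0}) with hW
  have hWo : IsOpen W := Φ.open_source.inter
    (hfdc.isOpen_inter_preimage hU isOpen_ne)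
  have hyW : y₀ ∈ W := ⟨(hgc y₀ hy₀).mem_toOpenPartialHomeomorph_source hgd₀ (by simp), hy₀, by
    show (fderiv ℝ f y₀ (1, 0)).1 ≠ 0
    rw [h1]; norm_num⟩
  have hWU : ∀ y ∈ W, y ∈ U := fun y hy => hy.2.1
  set V : Set (ℝ × E) := Φ.target ∩ Φ.symm ⁻¹' W with hV
  have hVo : IsOpen V := Φ.isOpen_inter_preimage_symm hWo
  have hks : ∀ z ∈ V, ContDiffAt ℝ ∞ Φ.symm z := by
    intro z hz
    obtain ⟨e, he⟩ := hLe (Φ.symm z) hz.2.2.2
    refine Φ.contDiffAt_symm hz.1 (f₀' := e) ?_ (hgc _ (hWU _ hz.2))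
    rw [he]
    exact hgd _ (hWU _ hz.2)
  have hΦs : ∀ z ∈ V, g (Φ.symm z) = z := fun z hz => Φ.right_inv hz.1
  have hG1 : ∀ z ∈ V, (f (Φ.symm z)).1 = z.1 := fun z hz => congrArg Prod.fst (hΦs z hz)
  have hGc : ∀ z ∈ V, ContDiffAt ℝ ∞ (f ∘ Φ.symm) z := fun z hz =>
    (hfc _ (hWU _ hz.2)).comp z (hks z hz)
  obtain ⟨r, hr, hrW⟩ := Metric.nhds_basis_closedBall.mem_iff.1 (hWo.mem_nhds hyW)
  refine ⟨closedBall y₀ r, closedBall_mem_nhds y₀ hr, ?_⟩
  have hKU : closedBall y₀ r ⊆ U := fun y hy => hWU y (hrW hy)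
  set S : Set (ℝ × E) := closedBall y₀ r ∩
    (fderiv ℝ f) ⁻¹' {D : (ℝ × E) →L[ℝ] (ℝ × F) | ¬ Function.Surjective D} with hS
  have hSc : IsCompact S := by
    refine (isCompact_closedBall y₀ r).of_isClosed_subset ?_ inter_subset_left
    exact ((hf.continuousOn_fderiv_of_isOpen hU (by simp)).mono hKU).preimage_isClosed_of_isClosed
      isClosed_closedBall isClosed_not_surjective
  have hfS : IsCompact (f '' S) := hSc.image_of_continuousOn
    (hf.continuousOn.mono (inter_subset_left.trans hKU))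
  have hsub : f '' ({x | x ∈ U ∧ ¬ Function.Surjective (fderiv ℝ f x)} ∩ closedBall y₀ r)
      ⊆ f '' S := image_mono fun y hy => ⟨hy.2, hy.1.2⟩
  refine measure_mono_null hsub ?_
  have hac : μ ≪ (volume : Measure ℝ).prod (Measure.addHaar : Measure F) :=
    Measure.absolutelyContinuous_isAddHaarMeasure μ _
  refine hac ((Measure.measure_prod_null hfS.measurableSet).2 (Eventually.of_forall fun τ => ?_))
  show Measure.addHaar (Prod.mk τ ⁻¹' (f '' S)) = 0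
  -- the slice
  set γ : E → F := fun ξ => (f (Φ.symm (τ, ξ))).2 with hγ
  set Vτ : Set E := (fun ξ => (τ, ξ)) ⁻¹' V with hVτ
  have hVτo : IsOpen Vτ := hVo.preimage (by fun_prop)
  have hγc : ContDiffOn ℝ ∞ γ Vτ := by
    intro ξ hξ
    have h2 : ContDiffAt ℝ ∞ (fun ξ : E => ((τ, ξ) : ℝ × E)) ξ :=
      contDiffAt_const.prodMk contDiffAt_id
    have h3 : ContDiffAt ℝ ∞ (fun ξ : E => (f ∘ Φ.symm) (τ, ξ)) ξ :=
      ContDiffAt.comp (g := f ∘ Φ.symm) ξ (hGc (τ, ξ) hξ) h2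
    exact (contDiffAt_snd.comp ξ h3).contDiffWithinAt
  refine measure_mono_null ?_ (h Measure.addHaar Vτ γ hVτo hγc)
  rintro η ⟨y, hyS, hyη⟩
  have hyW : y ∈ W := hrW hyS.1
  have hys : Φ.symm (Φ y) = y := Φ.left_inv hyW.1
  have hyV : Φ y ∈ V := ⟨Φ.map_source hyW.1, by
    show Φ.symm (Φ y) ∈ W
    rw [hys]; exact hyW⟩
  have hy1 : (f y).1 = τ := congrArg Prod.fst hyη
  have hΦy : Φ y = (τ, y.2) := by
    rw [hΦg, hgdef]
    simp only [hy1]
  rw [hΦy] at hyV hys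
  refine ⟨y.2, ⟨hyV, ?_⟩, ?_⟩
  swap
  · show (f (Φ.symm (τ, y.2))).2 = η
    rw [hys]
    exact congrArg Prod.snd hyη
  intro hsurj
  apply hyS.2
  -- derivative of G = f ∘ Φ.symm at (τ, y.2)
  have hGd : HasFDerivAt (f ∘ Φ.symm) (fderiv ℝ (f ∘ Φ.symm) (τ, y.2)) (τ, y.2) :=
    ((hGc _ hyV).differentiableAt (by simp)).hasFDerivAt
  have hkd : HasFDerivAt Φ.symm (fderiv ℝ Φ.symm (τ, y.2)) (τ, y.2) :=
    ((hks _ hyV).differentiableAt (by simp)).hasFDerivAt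
  have hcomp : fderiv ℝ (f ∘ Φ.symm) (τ, y.2)
      = (fderiv ℝ f y) ∘L (fderiv ℝ Φ.symm (τ, y.2)) := by
    have h2 : HasFDerivAt f (fderiv ℝ f y) (Φ.symm (τ, y.2)) := by
      rw [hys]; exact hfd y (hWU y hyW)
    exact (h2.comp _ hkd).fderiv
  have hfst : (ContinuousLinearMap.fst ℝ ℝ F) ∘L (fderiv ℝ (f ∘ Φ.symm) (τ, y.2))
      = ContinuousLinearMap.fst ℝ ℝ E := by
    have h2 : HasFDerivAt (fun z => (f (Φ.symm z)).1)
        ((ContinuousLinearMap.fst ℝ ℝ F) ∘L (fderiv ℝ (f ∘ Φ.symm) (τ, y.2))) (τ, y.2) :=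
      (ContinuousLinearMap.fst ℝ ℝ F).hasFDerivAt.comp _ hGd
    have h3 : (fun z => (f (Φ.symm z)).1) =ᶠ[𝓝 (τ, y.2)] Prod.fst := by
      filter_upwards [hVo.mem_nhds hyV] with z hz using hG1 z hz
    have h4 : HasFDerivAt (Prod.fst : ℝ × E → ℝ)
        ((ContinuousLinearMap.fst ℝ ℝ F) ∘L (fderiv ℝ (f ∘ Φ.symm) (τ, y.2))) (τ, y.2) :=
      h2.congr_of_eventuallyEq h3.symm
    exact h4.unique hasFDerivAt_fst
  have hγd : ∀ w : E, fderiv ℝ γ y.2 w = (fderiv ℝ (f ∘ Φ.symm) (τ, y.2) (0, w)).2 := by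
    intro w
    have h2 : HasFDerivAt (fun ξ : E => ((τ, ξ) : ℝ × E))
        ((0 : E →L[ℝ] ℝ).prod (ContinuousLinearMap.id ℝ E)) y.2 :=
      (hasFDerivAt_const τ y.2).prodMk (hasFDerivAt_id y.2)
    have h3 : HasFDerivAt (fun ξ : E => (f ∘ Φ.symm) (τ, ξ))
        ((fderiv ℝ (f ∘ Φ.symm) (τ, y.2)) ∘L
          ((0 : E →L[ℝ] ℝ).prod (ContinuousLinearMap.id ℝ E))) y.2 :=
      HasFDerivAt.comp (g := f ∘ Φ.symm) y.2 hGd h2
    have h4 : HasFDerivAt γ ((ContinuousLinearMap.snd ℝ ℝ F) ∘L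
        ((fderiv ℝ (f ∘ Φ.symm) (τ, y.2)) ∘L
          ((0 : E →L[ℝ] ℝ).prod (ContinuousLinearMap.id ℝ E)))) y.2 :=
      (ContinuousLinearMap.snd ℝ ℝ F).hasFDerivAt.comp _ h3
    rw [h4.fderiv]
    rfl
  rintro ⟨a, b⟩
  set G' := fderiv ℝ (f ∘ Φ.symm) (τ, y.2) with hG'
  obtain ⟨w, hw⟩ := hsurj (b - (G' (a, 0)).2)
  refine ⟨fderiv ℝ Φ.symm (τ, y.2) (a, w), ?_⟩
  have h5 : fderiv ℝ f y (fderiv ℝ Φ.symm (τ, y.2) (a, w)) = G' (a, w) := by
    rw [hcomp]; rfl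
  rw [h5]
  have h6 : (G' (a, w)).1 = a := by
    have := congrArg (fun D : (ℝ × E) →L[ℝ] ℝ => D (a, w)) hfst
    simpa using this
  have h7 : (G' (a, w)).2 = b := by
    have h8 : ((a, w) : ℝ × E) = (a, 0) + (0, w) := by simp
    rw [h8, map_add, Prod.snd_add, ← hγd w, hw]
    abel
  exact Prod.ext h6 h7

theorem sardFor_step (h : SardFor E F) (hd : finrank ℝ E + 1 < 2 * (finrank ℝ F + 1)) :
    SardFor (ℝ × E) (ℝ × F) := by
  intro μ _ U f hU hf
  have hd' : finrank ℝ (ℝ × E) < 2 * finrank ℝ (ℝ × F) := by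
    rw [finrank_prod, finrank_prod, finrank_self]; omega
  have h0 := null_critical_one μ hd' hU hf
  have h1 : μ (f '' {x | x ∈ U ∧ fderiv ℝ f x ≠ 0 ∧
      ¬ Function.Surjective (fderiv ℝ f x)}) = 0 := by
    refine null_of_locally μ ?_
    rintro x₀ ⟨hx₀, hne, -⟩
    obtain ⟨a, ha⟩ : ∃ a, fderiv ℝ f x₀ a ≠ 0 := by
      by_contra hcon
      push Not at hcon
      exact hne (ContinuousLinearMap.ext hcon)
    have ha0 : a ≠ 0 := by
      rintro rfl
      exact ha (map_zero _)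
    have he1 : ((1, 0) : ℝ × E) ≠ 0 := fun hh => one_ne_zero (congrArg Prod.fst hh)
    have he2 : ((1, 0) : ℝ × F) ≠ 0 := fun hh => one_ne_zero (congrArg Prod.fst hh)
    obtain ⟨B, hB⟩ := SeparatingDual.exists_continuousLinearEquiv_apply_eq (R := ℝ) he1 ha0
    obtain ⟨A, hA⟩ := SeparatingDual.exists_continuousLinearEquiv_apply_eq (R := ℝ) ha he2
    set f₁ : ℝ × E → ℝ × F := A ∘ f ∘ B with hf₁
    have hf₁c : ContDiffOn ℝ ∞ f₁ (B ⁻¹' U) :=
      A.contDiff.comp_contDiffOn (hf.comp B.contDiff.contDiffOn fun x hx => hx)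
    have hder : ∀ y, fderiv ℝ f₁ y = (A : ℝ × F →L[ℝ] ℝ × F) ∘L
        ((fderiv ℝ f (B y)) ∘L (B : ℝ × E →L[ℝ] ℝ × E)) := by
      intro y
      rw [hf₁, A.comp_fderiv, B.comp_right_fderiv]
    have hd1 : fderiv ℝ f₁ (B.symm x₀) (1, 0) = (1, 0) := by
      rw [hder]
      simp [hB, hA]
    have hBx : B.symm x₀ ∈ B ⁻¹' U := by simpa using hx₀
    obtain ⟨N, hN, hμN⟩ := step_local h (μ.map A) (hU.preimage B.continuous) hf₁c hBx hd1
    refine ⟨B '' N, ?_, ?_⟩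
    · have := B.toHomeomorph.isOpenMap.image_mem_nhds hN
      simpa using this
    · have hme : MeasurableEmbedding (A : ℝ × F → ℝ × F) :=
        A.toHomeomorph.measurableEmbedding
      rw [hme.map_apply] at hμN
      refine measure_mono_null ?_ hμN
      rintro _ ⟨x, ⟨⟨hxU, -, hxs⟩, ⟨y, hyN, rfl⟩⟩, rfl⟩
      refine ⟨y, ⟨⟨hxU, ?_⟩, hyN⟩, rfl⟩
      intro hs
      apply hxs
      rw [hder] at hs
      intro v
      obtain ⟨w, hw⟩ := hs (A v)
      refine ⟨B w, A.injective ?_⟩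
      exact hw
  refine measure_mono_null ?_ (measure_union_null h0 h1)
  rintro _ ⟨x, ⟨hxU, hx⟩, rfl⟩
  by_cases h2 : fderiv ℝ f x = 0
  · exact Or.inl ⟨x, ⟨hxU, h2⟩, rfl⟩
  · exact Or.inr ⟨x, ⟨hxU, h2, hx⟩, rfl⟩

end Pool.Agent.Lib_MP_752436_ts
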