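import Pool.Agent.Lib_MP_752436_ts.SardPlane
import Pool.Agent.Lib_MP_752436_ts.SardStep
import Pool.Agent.Lib_MP_752436_tp.Defs

/-!
Sard's theorem for smooth maps from `R^4` to `R^3` (piece G4b, short).
-/

open MeasureTheory Metric Set Filter Module
open scoped ContDiff Topology NNReal ENNReal

namespace Pool.Agent.Lib_MP_752436_ts

open Pool.Agent.Lib_MP_752436_tp

theorem sardFor_plane : SardFor (ℝ × ℝ) ℝ := by
  intro μ _ U f hU hf
  have hac : μ ≪ (volume : Measure ℝ) := Measure.absolutelyContinuous_isAddHaarMeasure μ _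
  refine hac (measure_mono_null ?_ (sard_plane hU hf))
  rintro _ ⟨x, ⟨hxU, hx⟩, rfl⟩
  refine ⟨x, ⟨hxU, ?_⟩, rfl⟩
  by_contra hne
  apply hx
  have h1 : (fderiv ℝ f x : ℝ × ℝ →ₗ[ℝ] ℝ) ≠ 0 := by
    intro h0
    exact hne (ContinuousLinearMap.coe_injective (by rw [h0]; rfl))
  exact LinearMap.surjective h1

/-- `sardFor_step` twice and `SardFor.congr`. -/
theorem sardFor_pair : SardFor (Plane × Plane) Space := by
  have h1 : SardFor (ℝ × (ℝ × ℝ)) (ℝ × ℝ) :=
    sardFor_step sardFor_plane (by rw [finrank_prod, finrank_self]; norm_num)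
  have h2 : SardFor (ℝ × (ℝ × (ℝ × ℝ))) (ℝ × (ℝ × ℝ)) :=
    sardFor_step h1 (by
      rw [finrank_prod, finrank_prod, finrank_self]; norm_num)
  have e : (ℝ × (ℝ × (ℝ × ℝ))) ≃L[ℝ] (Plane × Plane) := by
    refine ContinuousLinearEquiv.ofFinrankEq ?_
    rw [finrank_prod, finrank_prod, finrank_prod, finrank_self, finrank_prod,
      finrank_euclideanSpace_fin]
  have e' : (ℝ × (ℝ × ℝ)) ≃L[ℝ] Space := by
    refine ContinuousLinearEquiv.ofFinrankEq ?_
    rw [finrank_prod, finrank_prod, finrank_self, finrank_euclideanSpace_fin]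
  exact h2.congr e e'

end Pool.Agent.Lib_MP_752436_ts
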