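import Pool.Agent.Lib_MP_752436_ts.SardNull

/-!
Piece G2: the points where the derivatives vanish up to order one or two have a null image.
`null_critical_one`: by `null_of_locally`; near x0 in a small closed ball in `U` the derivative of `f`
is Lipschitz with constant M (it is C^1), so for x, y in the ball with fderiv f x = 0 one has
|f y - f x| <= M |y - x|^2 (mean value inequality on the segment): HolderOnWith with exponent 2.
`null_critical_two`: the same with exponent 3.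
-/

open MeasureTheory Metric Set Filter Module
open scoped ContDiff Topology NNReal ENNReal

namespace Pool.Agent.Lib_MP_752436_ts

variable {E F : Type} [NormedAddCommGroup E] [NormedSpace ℝ E] [FiniteDimensional ℝ E]
  [NormedAddCommGroup F] [NormedSpace ℝ F] [FiniteDimensional ℝ F] [MeasurableSpace F]
  [BorelSpace F]

/-- A map `g` which is smooth on an open set is locally Lipschitz on a ball in it. -/
private theorem exists_ball {G : Type} [NormedAddCommGroup G] [NormedSpace ℝ G] {g : E → G}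
    {U : Set E} (hU : IsOpen U) (hg : ContDiffOn ℝ 1 g U) {x : E} (hx : x ∈ U) :
    ∃ K : ℝ≥0, ∃ δ > 0, ball x δ ⊆ U ∧ LipschitzOnWith K g (ball x δ) := by
  have h1 : ContDiffAt ℝ 1 g x := hg.contDiffAt (hU.mem_nhds hx)
  obtain ⟨K, t, ht, hK⟩ := h1.exists_lipschitzOnWith
  obtain ⟨δ, hδ, hb⟩ := Metric.mem_nhds_iff.1 (inter_mem ht (hU.mem_nhds hx))
  exact ⟨K, δ, hδ, fun y hy => (hb hy).2, hK.mono fun y hy => (hb hy).1⟩

/-- The mean value inequality on a segment in a ball. -/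
private theorem seg_le {G : Type} [NormedAddCommGroup G] [NormedSpace ℝ G] {g : E → G}
    {U : Set E} (hU : IsOpen U) (hg : DifferentiableOn ℝ g U) {x0 x y : E} {δ C : ℝ}
    (hb : ball x0 δ ⊆ U) (hx : x ∈ ball x0 δ) (hy : y ∈ ball x0 δ)
    (h : ∀ z ∈ ball x0 δ, ‖z - x‖ ≤ ‖y - x‖ → ‖fderiv ℝ g z‖ ≤ C) :
    ‖g y - g x‖ ≤ C * ‖y - x‖ := by
  have hsub : segment ℝ x y ⊆ ball x0 δ := (convex_ball x0 δ).segment_subset hx hy
  refine (convex_segment x y).norm_image_sub_le_of_norm_fderiv_le (𝕜 := ℝ)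
    (fun z hz => (hg z (hb (hsub hz))).differentiableAt (hU.mem_nhds (hb (hsub hz))))
    (fun z hz => h z (hsub hz) ?_) (left_mem_segment ℝ x y) (right_mem_segment ℝ x y)
  exact norm_sub_le_of_mem_segment hz

theorem null_critical_one (μ : Measure F) [μ.IsAddHaarMeasure]
    (hd : finrank ℝ E < 2 * finrank ℝ F) {f : E → F} {U : Set E} (hU : IsOpen U)
    (hf : ContDiffOn ℝ ∞ f U) : μ (f '' {x | x ∈ U ∧ fderiv ℝ f x = 0}) = 0 := by
  refine null_of_locally μ fun x0 hx0 => ?_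
  have h1 : ContDiffOn ℝ 1 (fderiv ℝ f) U :=
    (hf.fderiv_of_isOpen hU (m := 1) (by norm_cast))
  obtain ⟨K, δ, hδ, hb, hK⟩ := exists_ball hU h1 hx0.1
  refine ⟨ball x0 δ, ball_mem_nhds x0 hδ, ?_⟩
  refine null_of_holder μ (C := K) (r := 2) (by norm_num) ?_ (by exact_mod_cast hd)
  rintro x ⟨⟨-, hx0'⟩, hx⟩ y ⟨-, hy⟩
  have h2 : ‖f y - f x‖ ≤ (K * ‖y - x‖) * ‖y - x‖ := by
    refine seg_le hU (hf.differentiableOn (by simp)) hb hx hy fun z hz hzx => ?_
    have h3 := hK.norm_sub_le hz hx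
    rw [hx0', sub_zero] at h3
    exact h3.trans (mul_le_mul_of_nonneg_left hzx (NNReal.coe_nonneg K))
  rw [edist_comm, edist_comm x y, edist_dist, edist_dist, dist_eq_norm, dist_eq_norm]
  have h4 : ((2 : ℝ≥0) : ℝ) = ((2 : ℕ) : ℝ) := by norm_num
  rw [h4, ENNReal.rpow_natCast, ← ENNReal.ofReal_pow (norm_nonneg _), ← ENNReal.ofReal_coe_nnreal,
    ← ENNReal.ofReal_mul (NNReal.coe_nonneg K)]
  refine ENNReal.ofReal_le_ofReal ?_
  calc ‖f y - f x‖ ≤ (K * ‖y - x‖) * ‖y - x‖ := h2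
    _ = K * ‖y - x‖ ^ 2 := by ring

theorem null_critical_two (hd : finrank ℝ E < 3) {f : E → ℝ} {U : Set E} (hU : IsOpen U)
    (hf : ContDiffOn ℝ ∞ f U) :
    volume (f '' {x | x ∈ U ∧ fderiv ℝ f x = 0 ∧ fderiv ℝ (fderiv ℝ f) x = 0}) = 0 := by
  refine null_of_locally volume fun x0 hx0 => ?_
  have h0 : ContDiffOn ℝ ∞ (fderiv ℝ f) U := hf.fderiv_of_isOpen hU (m := ∞) (by simp)
  have h1 : ContDiffOn ℝ 1 (fderiv ℝ (fderiv ℝ f)) U :=
    (h0.fderiv_of_isOpen hU (m := 1) (by norm_cast))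
  obtain ⟨K, δ, hδ, hb, hK⟩ := exists_ball hU h1 hx0.1
  refine ⟨ball x0 δ, ball_mem_nhds x0 hδ, ?_⟩
  refine null_of_holder volume (C := K) (r := 3) (by norm_num) ?_ ?_
  · rintro x ⟨⟨-, hx1, hx2⟩, hx⟩ y ⟨-, hy⟩
    have h3 : ∀ z ∈ ball x0 δ, ‖fderiv ℝ f z‖ ≤ (K * ‖z - x‖) * ‖z - x‖ := by
      intro z hz
      have h4 : ‖fderiv ℝ f z - fderiv ℝ f x‖ ≤ (K * ‖z - x‖) * ‖z - x‖ := by
        refine seg_le hU (h0.differentiableOn (by simp)) hb hx hz fun w hw hwx => ?_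
        have h5 := hK.norm_sub_le hw hx
        rw [hx2, sub_zero] at h5
        exact h5.trans (mul_le_mul_of_nonneg_left hwx (NNReal.coe_nonneg K))
      rwa [hx1, sub_zero] at h4
    have h2 : ‖f y - f x‖ ≤ ((K * ‖y - x‖) * ‖y - x‖) * ‖y - x‖ := by
      refine seg_le hU (hf.differentiableOn (by simp)) hb hx hy fun z hz hzx => ?_
      refine (h3 z hz).trans ?_
      have h6 : (K : ℝ) * ‖z - x‖ ≤ K * ‖y - x‖ := mul_le_mul_of_nonneg_left hzx (NNReal.coe_nonneg K)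
      exact mul_le_mul h6 hzx (norm_nonneg _) (mul_nonneg (NNReal.coe_nonneg K) (norm_nonneg _))
    rw [edist_comm, edist_comm x y, edist_dist, edist_dist, dist_eq_norm, dist_eq_norm]
    have h4 : ((3 : ℝ≥0) : ℝ) = ((3 : ℕ) : ℝ) := by norm_num
    rw [h4, ENNReal.rpow_natCast, ← ENNReal.ofReal_pow (norm_nonneg _),
      ← ENNReal.ofReal_coe_nnreal, ← ENNReal.ofReal_mul (NNReal.coe_nonneg K)]
    refine ENNReal.ofReal_le_ofReal ?_
    calc ‖f y - f x‖ ≤ ((K * ‖y - x‖) * ‖y - x‖) * ‖y - x‖ := h2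
      _ = K * ‖y - x‖ ^ 3 := by ring
  · rw [finrank_self]
    have : (finrank ℝ E : ℝ≥0) < 3 := by exact_mod_cast hd
    simpa using this

end Pool.Agent.Lib_MP_752436_ts
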