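import Pool.Agent.Lib_MP_752436_ts.SardCrit

/-!
Piece G3: Sard's theorem for smooth real functions of two variables. Split the critical points into
those with vanishing second derivative (`null_critical_two`) and the others. Near x0 with
fderiv f x0 = 0 and fderiv (fderiv f) x0 /= 0 choose a direction w with the derivative of
h = (fun x => fderiv f x w) at x0 not zero; (h, l) : R^2 -> R^2 with a suitable linear functional l is a
local diffeomorphism at x0, g = its local inverse on the line {first coordinate = 0}: a smooth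
curve containing the critical points near x0. The real function f o g has derivative 0 at the
parameters of critical points; `sard_equal` with E = F = R (`null_of_locally` to put the pieces together).
-/

open MeasureTheory Metric Set Filter Module
open scoped ContDiff Topology NNReal ENNReal

namespace Pool.Agent.Lib_MP_752436_ts

/-- A linear functional on the plane which is not zero is the first coordinate of an
isomorphism. -/
theorem exists_equiv_fst (L : ℝ × ℝ →L[ℝ] ℝ) (hL : L ≠ 0) :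
    ∃ (l : ℝ × ℝ →L[ℝ] ℝ) (e : (ℝ × ℝ) ≃L[ℝ] ℝ × ℝ), ∀ x, e x = (L x, l x) := by
  obtain ⟨a, ha⟩ : ∃ a : ℝ, a = L (1, 0) := ⟨_, rfl⟩
  obtain ⟨b, hb⟩ : ∃ b : ℝ, b = L (0, 1) := ⟨_, rfl⟩
  have hLx : ∀ x : ℝ × ℝ, L x = a * x.1 + b * x.2 := by
    intro x
    have h1 : x = x.1 • ((1 : ℝ), (0 : ℝ)) + x.2 • ((0 : ℝ), (1 : ℝ)) := by
      ext <;> simp
    conv_lhs => rw [h1]
    rw [map_add, map_smul, map_smul, ← ha, ← hb, smul_eq_mul, smul_eq_mul]
    ring
  have hab : a ^ 2 + b ^ 2 ≠ 0 := by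
    intro h
    have ha0 : a = 0 := by nlinarith [sq_nonneg a, sq_nonneg b]
    have hb0 : b = 0 := by nlinarith [sq_nonneg a, sq_nonneg b]
    apply hL
    ext x
    · simp [hLx, ha0, hb0]
    · simp [hLx, ha0, hb0]
  let l : ℝ × ℝ →L[ℝ] ℝ :=
    (-b) • ContinuousLinearMap.fst ℝ ℝ ℝ + a • ContinuousLinearMap.snd ℝ ℝ ℝ
  have hl : ∀ x : ℝ × ℝ, l x = -b * x.1 + a * x.2 := by
    intro x
    simp [l]
  have hinj : Function.Injective (L.prod l) := by
    rw [injective_iff_map_eq_zero]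
    intro x hx
    have h1 : L x = 0 := congrArg Prod.fst hx
    have h2 : l x = 0 := congrArg Prod.snd hx
    rw [hLx] at h1
    rw [hl] at h2
    have h3 : (a ^ 2 + b ^ 2) * x.1 = 0 := by linear_combination a * h1 - b * h2
    have h4 : (a ^ 2 + b ^ 2) * x.2 = 0 := by linear_combination b * h1 + a * h2
    have h5 := (mul_eq_zero.1 h3).resolve_left hab
    have h6 := (mul_eq_zero.1 h4).resolve_left hab
    exact Prod.ext h5 h6
  let e : (ℝ × ℝ) ≃ₗ[ℝ] ℝ × ℝ := LinearEquiv.ofInjectiveEndo (L.prod l).toLinearMap hinj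
  refine ⟨l, e.toContinuousLinearEquiv, fun x => ?_⟩
  rfl

theorem sard_plane {f : ℝ × ℝ → ℝ} {U : Set (ℝ × ℝ)} (hU : IsOpen U) (hf : ContDiffOn ℝ ∞ f U) :
    volume (f '' {x | x ∈ U ∧ fderiv ℝ f x = 0}) = 0 := by
  have hsub : {x | x ∈ U ∧ fderiv ℝ f x = 0} ⊆
      {x | x ∈ U ∧ fderiv ℝ f x = 0 ∧ fderiv ℝ (fderiv ℝ f) x = 0} ∪
        {x | x ∈ U ∧ fderiv ℝ f x = 0 ∧ fderiv ℝ (fderiv ℝ f) x ≠ 0} := by
    intro x hx
    by_cases h : fderiv ℝ (fderiv ℝ f) x = 0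
    · exact Or.inl ⟨hx.1, hx.2, h⟩
    · exact Or.inr ⟨hx.1, hx.2, h⟩
  refine measure_mono_null (image_mono hsub) ?_
  rw [image_union]
  refine measure_union_null (null_critical_two (by simp) hU hf) ?_
  apply null_of_locally
  rintro x₀ ⟨hx₀, hd₀, hdd₀⟩
  -- smoothness near the point
  have hfx : ∀ x ∈ U, ContDiffAt ℝ ∞ f x := fun x hx => hf.contDiffAt (hU.mem_nhds hx)
  have hg : ∀ x ∈ U, ContDiffAt ℝ ∞ (fderiv ℝ f) x := fun x hx =>
    (hfx x hx).fderiv_right (m := ∞) (by simp)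
  obtain ⟨v, hv⟩ : ∃ v, fderiv ℝ (fderiv ℝ f) x₀ v ≠ 0 := by
    by_contra hc
    push Not at hc
    exact hdd₀ (ContinuousLinearMap.ext hc)
  obtain ⟨w, hw⟩ : ∃ w, fderiv ℝ (fderiv ℝ f) x₀ v w ≠ 0 := by
    by_contra hc
    push Not at hc
    exact hv (ContinuousLinearMap.ext hc)
  let h : ℝ × ℝ → ℝ := fun x => fderiv ℝ f x w
  have hh : ∀ x ∈ U, ContDiffAt ℝ ∞ h x := fun x hx => (hg x hx).clm_apply contDiffAt_const
  let L : ℝ × ℝ →L[ℝ] ℝ := fderiv ℝ h x₀
  have hL : L ≠ 0 := by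
    intro h0
    apply hw
    have h1 : L v = 0 := by rw [h0]; rfl
    have h2 : fderiv ℝ h x₀ v = fderiv ℝ (fderiv ℝ f) x₀ v w := by
      have h3 : HasFDerivAt (fderiv ℝ f) (fderiv ℝ (fderiv ℝ f) x₀) x₀ :=
        ((hg x₀ hx₀).differentiableAt (by simp)).hasFDerivAt
      have h4 := h3.clm_apply (hasFDerivAt_const w x₀)
      have h5 : fderiv ℝ h x₀ = _ := h4.fderiv
      rw [h5]
      simp
    rw [← h2]
    exact h1
  obtain ⟨l, e, he⟩ := exists_equiv_fst L hL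
  let Φ : ℝ × ℝ → ℝ × ℝ := fun x => (h x, l x)
  have hΦ : ∀ x ∈ U, ContDiffAt ℝ ∞ Φ x := fun x hx => (hh x hx).prodMk l.contDiff.contDiffAt
  have hΦ1 : ContDiffAt ℝ 1 Φ x₀ := (hΦ x₀ hx₀).of_le (by simp)
  have hΦd : HasFDerivAt Φ (e : ℝ × ℝ →L[ℝ] ℝ × ℝ) x₀ := by
    have h1 : HasFDerivAt h L x₀ := ((hh x₀ hx₀).differentiableAt (by simp)).hasFDerivAt
    have h2 : HasFDerivAt (fun x => l x) l x₀ := l.hasFDerivAt
    have h3 : (e : ℝ × ℝ →L[ℝ] ℝ × ℝ) = L.prod l := by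
      apply ContinuousLinearMap.ext
      intro x
      exact he x
    rw [h3]
    exact h1.prodMk h2
  let P := hΦ1.toOpenPartialHomeomorph Φ hΦd one_ne_zero
  have hP : ∀ x, P x = Φ x := fun x => rfl
  have hsrc : x₀ ∈ P.source := hΦ1.mem_toOpenPartialHomeomorph_source hΦd one_ne_zero
  have hinv : ContDiffAt ℝ 1 P.symm (Φ x₀) := by
    apply P.contDiffAt_symm (f₀' := e)
      (hΦ1.image_mem_toOpenPartialHomeomorph_target hΦd one_ne_zero)
    · have : P.symm (Φ x₀) = x₀ := P.left_inv hsrc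
      rw [this]
      exact hΦd
    · have : P.symm (Φ x₀) = x₀ := P.left_inv hsrc
      rw [this]
      exact hΦ1
  have hinv2 : ∀ᶠ x in 𝓝 x₀, DifferentiableAt ℝ P.symm (Φ x) := by
    have h1 : ∀ᶠ y in 𝓝 (Φ x₀), ContDiffAt ℝ 1 P.symm y := hinv.eventually (by simp)
    have h2 := (hΦ1.continuousAt).eventually h1
    exact h2.mono fun x hx => hx.differentiableAt one_ne_zero
  refine ⟨P.source ∩ U ∩ {x | DifferentiableAt ℝ P.symm (Φ x)},
    inter_mem (inter_mem (P.open_source.mem_nhds hsrc) (hU.mem_nhds hx₀)) hinv2, ?_⟩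
  -- the curve
  let γ : ℝ → ℝ × ℝ := fun t => P.symm (0, t)
  let S : Set ℝ := {t | ∃ x, (x ∈ P.source ∧ x ∈ U ∧ DifferentiableAt ℝ P.symm (Φ x)) ∧
    fderiv ℝ f x = 0 ∧ t = l x}
  have hkey : ∀ x, x ∈ P.source → fderiv ℝ f x = 0 → Φ x = (0, l x) ∧ γ (l x) = x := by
    intro x hx hdx
    have h1 : Φ x = (0, l x) := by
      show (fderiv ℝ f x w, l x) = (0, l x)
      rw [hdx]
      rfl
    refine ⟨h1, ?_⟩
    show P.symm (0, l x) = x
    rw [← h1]
    exact P.left_inv hx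
  have hnull : volume ((fun t => f (γ t)) '' S) = 0 := by
    have hD : ∀ t ∈ S, HasFDerivAt (fun t => f (γ t)) (0 : ℝ →L[ℝ] ℝ) t := by
      rintro t ⟨x, ⟨hx1, hx2, hx3⟩, hx4, rfl⟩
      obtain ⟨k1, k2⟩ := hkey x hx1 hx4
      rw [k1] at hx3
      have hγ : DifferentiableAt ℝ γ (l x) := by
        have h1 : DifferentiableAt ℝ (fun t : ℝ => ((0 : ℝ), t)) (l x) := by fun_prop
        exact DifferentiableAt.comp (l x) hx3 h1
      have hfd : HasFDerivAt f (fderiv ℝ f x) (γ (l x)) := by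
        rw [k2]
        exact ((hfx x hx2).differentiableAt (by simp)).hasFDerivAt
      have h2 := hfd.comp (l x) hγ.hasFDerivAt
      rw [hx4, ContinuousLinearMap.zero_comp] at h2
      exact h2
    apply sard_equal volume rfl
    · intro t ht
      exact (hD t ht).differentiableAt
    · intro t ht hs
      rw [(hD t ht).fderiv] at hs
      obtain ⟨z, hz⟩ := hs 1
      simp at hz
  refine measure_mono_null ?_ hnull
  rintro _ ⟨x, ⟨⟨hx1, hx2, -⟩, ⟨hx4, -⟩, hx5⟩, rfl⟩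
  refine ⟨l x, ⟨x, ⟨hx4, hx1, hx5⟩, hx2, rfl⟩, ?_⟩
  show f (γ (l x)) = f x
  rw [(hkey x hx4 hx2).2]

end Pool.Agent.Lib_MP_752436_ts
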