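import Pool.Agent.Lib_MP_752436_ts.Param
import Pool.Agent.Lib_MP_752436_ts.Double

/-!
Piece G10: triple points are transverse in almost every direction: (G-T) in Blueprint.md. The null set
is the union of the null set of `ae_doubleReg` and the image under p -> pm F (p.1, p.2.1) of the triples
p of E = Plane × Plane × Plane with three different heights, pairwise surjective differences of
derivatives (the sheets at the second and third point transverse is enough), Lambda p = 0, and the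
nonregularity condition of `sard_of_submersion`.
-/

open MeasureTheory Metric Set Filter Module
open scoped ContDiff Topology

namespace Pool.Agent.Lib_MP_752436_ts

open Pool.Agent.Lib_MP_752436_gt Pool.Agent.Lib_MP_752436_tp Pool.Agent.Lib_MP_752436_rb

/-- The sheets of `m` at `x`, `y`, `z` are transverse. -/
def TripleReg (m : Plane → Space) (x y z : Plane) : Prop :=
  ∀ v v', ∃ u₁ u₂ u₃, fderiv ℝ m y u₂ - fderiv ℝ m x u₁ = v ∧
    fderiv ℝ m z u₃ - fderiv ℝ m x u₁ = v'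

/-- Linear algebra: regularity gives transversality. -/
theorem tripleReg_of_regular {A B C : Plane →L[ℝ] Space} {τ τ' : ℝ} (hτ : τ ≠ 0) (hτ' : τ' ≠ 0)
    (hBC : ∀ v, ∃ a b, B a + C b = v)
    (h : ∀ α : Space, ∃ u v w, A u - B v = τ • α ∧ A u - C w = τ' • α) :
    ∀ v v', ∃ u₁ u₂ u₃, B u₂ - A u₁ = v ∧ C u₃ - A u₁ = v' := by
  intro v v'
  obtain ⟨a, b, hab⟩ := hBC (τ'⁻¹ • v' - τ⁻¹ • v)
  obtain ⟨u, v1, w1, h1, h2⟩ := h (-(τ⁻¹ • v) - B a)
  refine ⟨u, v1 - τ • a, w1 + τ' • b, ?_, ?_⟩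
  · have e1 : τ • (-(τ⁻¹ • v) - B a) = -v - τ • B a := by
      rw [smul_sub, smul_neg, smul_smul, mul_inv_cancel₀ hτ, one_smul]
    rw [e1] at h1
    rw [map_sub, map_smul]
    have e2 : B v1 = A u - (-v - τ • B a) := by rw [← h1]; abel
    rw [e2]
    abel
  · have e0 : -(τ⁻¹ • v) - B a = -(τ'⁻¹ • v') + C b := by
      have e3 : B a = τ'⁻¹ • v' - τ⁻¹ • v - C b := by rw [← hab]; abel
      rw [e3]
      abel
    rw [e0] at h2
    have e1 : τ' • (-(τ'⁻¹ • v') + C b) = -v' + τ' • C b := by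
      rw [smul_add, smul_neg, smul_smul, mul_inv_cancel₀ hτ', one_smul]
    rw [e1] at h2
    rw [map_add, map_smul]
    have e2 : C w1 = A u - (-v' + τ' • C b) := by rw [← h2]; abel
    rw [e2]
    abel

section TripleT

variable {F : Plane → EuclideanSpace ℝ (Fin 4)}

/-- The first two points. -/
private noncomputable def TripleT_l1 : Plane × (Plane × Plane) →L[ℝ] Plane × Plane :=
  (ContinuousLinearMap.fst ℝ Plane (Plane × Plane)).prod
    ((ContinuousLinearMap.fst ℝ Plane Plane).comp (ContinuousLinearMap.snd ℝ Plane (Plane × Plane)))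

/-- The first and the third point. -/
private noncomputable def TripleT_l2 : Plane × (Plane × Plane) →L[ℝ] Plane × Plane :=
  (ContinuousLinearMap.fst ℝ Plane (Plane × Plane)).prod
    ((ContinuousLinearMap.snd ℝ Plane Plane).comp (ContinuousLinearMap.snd ℝ Plane (Plane × Plane)))

private noncomputable def TripleT_pi (F : Plane → EuclideanSpace ℝ (Fin 4)) :
    Plane × (Plane × Plane) → Space := fun p => pm F (TripleT_l1 p)

private noncomputable def TripleT_L (F : Plane → EuclideanSpace ℝ (Fin 4)) :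
    Plane × (Plane × Plane) → Space := fun p => pm F (TripleT_l1 p) - pm F (TripleT_l2 p)

private theorem TripleT_contDiffAt_pi (hF : ContDiff ℝ ∞ F) {p : Plane × (Plane × Plane)}
    (h : F p.1 3 ≠ F p.2.1 3) : ContDiffAt ℝ ∞ (TripleT_pi F) p :=
  (contDiffAt_pm hF (p := TripleT_l1 p) h).comp p TripleT_l1.contDiff.contDiffAt

private theorem TripleT_contDiffAt_L (hF : ContDiff ℝ ∞ F) {p : Plane × (Plane × Plane)}
    (h : F p.1 3 ≠ F p.2.1 3) (h' : F p.1 3 ≠ F p.2.2 3) : ContDiffAt ℝ ∞ (TripleT_L F) p :=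
  ((contDiffAt_pm hF (p := TripleT_l1 p) h).comp p TripleT_l1.contDiff.contDiffAt).sub
    ((contDiffAt_pm hF (p := TripleT_l2 p) h').comp p TripleT_l2.contDiff.contDiffAt)

private theorem TripleT_fderiv_pi (hF : ContDiff ℝ ∞ F) {p : Plane × (Plane × Plane)}
    (h : F p.1 3 ≠ F p.2.1 3) (u : Plane × (Plane × Plane)) :
    fderiv ℝ (TripleT_pi F) p u = fderiv ℝ (pm F) (p.1, p.2.1) (u.1, u.2.1) := by
  have h1 := ((contDiffAt_pm hF (p := TripleT_l1 p) h).differentiableAt (by simp)).hasFDerivAt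
  have h2 := h1.comp p TripleT_l1.hasFDerivAt
  have h3 : fderiv ℝ (TripleT_pi F) p = (fderiv ℝ (pm F) (TripleT_l1 p)).comp TripleT_l1 :=
    h2.fderiv
  rw [h3]
  rfl

private theorem TripleT_fderiv_L (hF : ContDiff ℝ ∞ F) {p : Plane × (Plane × Plane)}
    (h : F p.1 3 ≠ F p.2.1 3) (h' : F p.1 3 ≠ F p.2.2 3) (u : Plane × (Plane × Plane)) :
    fderiv ℝ (TripleT_L F) p u = fderiv ℝ (pm F) (p.1, p.2.1) (u.1, u.2.1) -
      fderiv ℝ (pm F) (p.1, p.2.2) (u.1, u.2.2) := by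
  have h1 := ((contDiffAt_pm hF (p := TripleT_l1 p) h).differentiableAt (by simp)).hasFDerivAt
  have h2 := h1.comp p TripleT_l1.hasFDerivAt
  have h3 := ((contDiffAt_pm hF (p := TripleT_l2 p) h').differentiableAt (by simp)).hasFDerivAt
  have h4 := h3.comp p TripleT_l2.hasFDerivAt
  have h5 : fderiv ℝ (TripleT_L F) p = (fderiv ℝ (pm F) (TripleT_l1 p)).comp TripleT_l1 -
      (fderiv ℝ (pm F) (TripleT_l2 p)).comp TripleT_l2 := (h2.sub h4).fderiv
  rw [h5]
  rfl

end TripleT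

theorem ae_tripleReg {F : Plane → EuclideanSpace ℝ (Fin 4)} (hF : IsSliceDisc F) :
    ∀ᵐ a : Space, ∀ x ∈ closedBall (0 : Plane) 1, ∀ y ∈ closedBall (0 : Plane) 1,
      ∀ z ∈ closedBall (0 : Plane) 1, x ≠ y → x ≠ z → y ≠ z → proj F a x = proj F a y →
      proj F a x = proj F a z → TripleReg (proj F a) x y z := by
  have hs := hF.smooth
  set S : Set (Plane × (Plane × Plane)) := {p | F p.1 3 ≠ F p.2.1 3 ∧ F p.1 3 ≠ F p.2.2 3 ∧
    TripleT_L F p = 0 ∧ (∀ v, ∃ b c, fderiv ℝ (proj F (TripleT_pi F p)) p.2.1 b +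
      fderiv ℝ (proj F (TripleT_pi F p)) p.2.2 c = v) ∧
    ¬ ∀ w, ∃ u, fderiv ℝ (TripleT_L F) p u = 0 ∧ fderiv ℝ (TripleT_pi F) p u = w} with hS
  have hnull : volume (TripleT_pi F '' S) = 0 := by
    refine null_of_locally volume fun p hp => ?_
    obtain ⟨h1, h2, h3, h4, h5⟩ := hp
    have hpm : pm F (p.1, p.2.1) = pm F (p.1, p.2.2) := sub_eq_zero.1 h3
    have hpi : TripleT_pi F p = pm F (p.1, p.2.1) := rfl
    have hsur : Function.Surjective (fderiv ℝ (TripleT_L F) p) := by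
      intro t
      obtain ⟨b, c, hbc⟩ := h4 t
      refine ⟨((0 : Plane), (-(F p.2.1 3 - F p.1 3) • b, (F p.2.2 3 - F p.1 3) • c)), ?_⟩
      rw [TripleT_fderiv_L hs h1 h2, fderiv_pm hs h1, fderiv_pm hs h2, ← hpm, ← hpi]
      have e1 : F p.2.1 3 - F p.1 3 ≠ 0 := sub_ne_zero.2 (Ne.symm h1)
      have e2 : F p.2.2 3 - F p.1 3 ≠ 0 := sub_ne_zero.2 (Ne.symm h2)
      simp only [map_zero, map_neg, map_smul, zero_sub, smul_neg, neg_smul, smul_smul,
        sub_neg_eq_add, zero_add]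
      rw [inv_mul_cancel₀ e1, inv_mul_cancel₀ e2, one_smul, one_smul]
      exact hbc
    obtain ⟨N, hN, hN0⟩ := sard_of_submersion volume (TripleT_contDiffAt_L hs h1 h2) hsur
      (TripleT_contDiffAt_pi hs h1) (by
        rw [finrank_prod, finrank_prod, finrank_euclideanSpace_fin, finrank_euclideanSpace_fin])
    refine ⟨N, hN, measure_mono_null (image_mono ?_) hN0⟩
    rintro q ⟨⟨-, -, q3, -, q5⟩, hqN⟩
    exact ⟨hqN, q3, q5⟩
  have hnull' : ∀ᵐ a : Space, a ∉ TripleT_pi F '' S := measure_eq_zero_iff_ae_notMem.1 hnull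
  filter_upwards [ae_doubleReg hF, hnull'] with a ha1 ha2
  intro x hx y hy z hz hxy hxz hyz exy exz
  have hxy3 := height_ne_of_proj hF hx hy hxy exy
  have hxz3 := height_ne_of_proj hF hx hz hxz exz
  have e1 : pm F (x, y) = a := (proj_eq_iff hxy3).1 exy
  have e2 : pm F (x, z) = a := (proj_eq_iff hxz3).1 exz
  have hBC := ha1 y hy z hz hyz (exy.symm.trans exz)
  have hreg : ∀ w, ∃ u, fderiv ℝ (TripleT_L F) (x, (y, z)) u = 0 ∧
      fderiv ℝ (TripleT_pi F) (x, (y, z)) u = w := by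
    by_contra hcon
    apply ha2
    refine ⟨(x, (y, z)), ⟨hxy3, hxz3, ?_, ?_, hcon⟩, e1⟩
    · change pm F (x, y) - pm F (x, z) = 0
      rw [e1, e2, sub_self]
    · change ∀ v, ∃ b c, fderiv ℝ (proj F (pm F (x, y))) y b +
        fderiv ℝ (proj F (pm F (x, y))) z c = v
      rw [e1]
      exact hBC
  have t1 : F y 3 - F x 3 ≠ 0 := sub_ne_zero.2 (Ne.symm hxy3)
  have t2 : F z 3 - F x 3 ≠ 0 := sub_ne_zero.2 (Ne.symm hxz3)
  refine tripleReg_of_regular t1 t2 hBC fun α => ?_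
  obtain ⟨u, hu1, hu2⟩ := hreg α
  rw [TripleT_fderiv_pi hs (p := (x, (y, z))) hxy3] at hu2
  rw [TripleT_fderiv_L hs (p := (x, (y, z))) hxy3 hxz3, hu2] at hu1
  have hu3 : fderiv ℝ (pm F) (x, z) (u.1, u.2.2) = α := (sub_eq_zero.1 hu1).symm
  have hu2' : fderiv ℝ (pm F) (x, y) (u.1, u.2.1) = α := hu2
  rw [fderiv_pm hs hxy3, e1] at hu2'
  rw [fderiv_pm hs hxz3, e2] at hu3
  refine ⟨u.1, u.2.1, u.2.2, ?_, ?_⟩
  · rw [← hu2', smul_smul, mul_inv_cancel₀ t1, one_smul]
  · rw [← hu3, smul_smul, mul_inv_cancel₀ t2, one_smul]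

end Pool.Agent.Lib_MP_752436_ts
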